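import Pool.Agent.H240.CG.Fin

/-!
# Metrics near the limit metric, and metrics of negative curvature
-/

set_option autoImplicit false
set_option linter.unusedSectionVars false

open Set Filter Topology MeasureTheory
open scoped ContDiff ComplexConjugate Real

noncomputable section

namespace Pool.Agent.H240.CG

open Pool.Agent.Y262.EG Pool.Agent.Y262.EX Pool.Agent.Y262.EL Pool.Agent.Y262.QE
open Pool.Agent.Y264.QR Pool.Agent.H240.SC Pool.Agent.H240.SG
open Pool.Agent.Y868.EX (stp_open om_open)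

/-- the square of the distance to the centre -/
def sqF (x : ℝ) : ℝ := (x - L0 / 2) ^ 2

theorem sqF_cd : ContDiff ℝ ∞ sqF := by
  unfold sqF
  fun_prop

theorem sqF_dd (x : ℝ) : deriv (deriv sqF) x = 2 := by
  have h1 : deriv sqF = fun x => 2 * (x - L0 / 2) := by
    funext y
    have h2 : HasDerivAt sqF (2 * (y - L0 / 2)) y := by
      have h3 : HasDerivAt (fun x : ℝ => (x - L0 / 2) ^ 2)
          (((2 : ℕ) : ℝ) * (y - L0 / 2) ^ (2 - 1) * 1) y :=
        ((hasDerivAt_id y).sub_const (L0 / 2)).pow 2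
      have h4 : ((2 : ℕ) : ℝ) * (y - L0 / 2) ^ (2 - 1) * 1 = 2 * (y - L0 / 2) := by norm_num
      rw [h4] at h3
      exact h3
    exact h2.deriv
  rw [h1]
  have h2 : HasDerivAt (fun x : ℝ => 2 * (x - L0 / 2)) (2 * 1) x :=
    ((hasDerivAt_id x).sub_const (L0 / 2)).const_mul 2
  rw [h2.deriv]
  norm_num

section

variable {g X G : ℝ → ℝ} {c1 C0 c C x0 : ℝ} {M P : Type} [MetricSpace M] [CompactSpace M]
  [MetricSpace P] [CompactSpace P] [MeasurableSpace M] [BorelSpace M] {pr : ℂ → M} {q : Y → P}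
  {μ : Measure M} {D : Data M} {Φ : ℂ → M} {σ : M → M}

/-- the metric becomes negatively curved -/
theorem neg_prof (hX : Cut X) (hG : Prof2 G c C) : ∃ τ1 : ℝ, 0 < τ1 ∧ ∀ τ : ℝ, 0 < τ → τ < τ1 →
    ∀ z ∈ Om, curv (fun z => phi G c z + τ * Hf (et sqF X 1) 1 z) z < 0 := by
  have h0 := L0p
  have hη : ContDiff ℝ ∞ (et sqF X 1) := et_cd sqF_cd.contDiffOn hX 1
  obtain ⟨K, hK0, hK⟩ := bdd_der hη (fun x hx => et_far hX hx) 2
  -- the lower bound in the middle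
  have hd2 : ContDiffOn ℝ ∞ (deriv (deriv G)) I0 := deriv_smooth (deriv_smooth hG.smooth)
  have hAsub : ∀ x ∈ {x : ℝ | 4 / 5 * L0 ≤ |x - L0 / 2| ∧ |x - L0 / 2| ≤ 9 / 10 * L0}, x ∈ I0 :=
    fun x hx => mem_I0 (by linarith [hx.2])
  have hAc : IsCompact {x : ℝ | 4 / 5 * L0 ≤ |x - L0 / 2| ∧ |x - L0 / 2| ≤ 9 / 10 * L0} := by
    have hc1 : IsClosed {x : ℝ | 4 / 5 * L0 ≤ |x - L0 / 2|} :=
      isClosed_le continuous_const (by fun_prop)
    have hc2 : IsClosed {x : ℝ | |x - L0 / 2| ≤ 9 / 10 * L0} :=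
      isClosed_le (by fun_prop) continuous_const
    refine (isCompact_Icc (a := -L0) (b := 2 * L0)).of_isClosed_subset (hc1.inter hc2) ?_
    · intro x hx
      have h1 := abs_le.1 hx.2
      exact ⟨by linarith [h1.1], by linarith [h1.2]⟩
  obtain ⟨m, hm, hmA⟩ : ∃ m : ℝ, 0 < m ∧ ∀ x ∈ {x : ℝ | 4 / 5 * L0 ≤ |x - L0 / 2| ∧
      |x - L0 / 2| ≤ 9 / 10 * L0}, m ≤ deriv (deriv G) x := by
    rcases {x : ℝ | 4 / 5 * L0 ≤ |x - L0 / 2| ∧ |x - L0 / 2| ≤ 9 / 10 * L0}.eq_empty_or_nonempty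
      with hem | hne
    · exact ⟨1, one_pos, fun x hx => by rw [hem] at hx; exact absurd hx (notMem_empty x)⟩
    · obtain ⟨x1, hx1, hmin⟩ := hAc.exists_isMinOn hne (hd2.continuousOn.mono hAsub)
      refine ⟨_, lt_of_le_of_ne (hG.cvx x1 (hAsub x1 hx1)) fun hcon => ?_, fun x hx => hmin hx⟩
      have h1 := hG.zero x1 (hAsub x1 hx1) hcon.symm
      have h2 := hx1.1
      rw [h1, sub_self, abs_zero] at h2
      linarith
  refine ⟨m / (K + 1), by positivity, fun τ hτ hτ1 => ?_⟩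
  set Gτ : ℝ → ℝ := fun x => G x + τ * et sqF X 1 x with hGτ
  have hPW : ProfW Gτ (c + τ * 1) := hG.profW.add (adW_et sqF_cd.contDiffOn hX 1) τ
  have hpos : ∀ x ∈ I0, 0 < deriv (deriv Gτ) x := by
    intro x hx
    obtain ⟨h1, h2, h3⟩ := d_three I0_open (fun x hx => hx) hG.smooth hη 1 τ
      (F := Gτ) (fun x _ => by rw [one_mul])
    rw [h2 x hx, one_mul]
    rcases tri x with h4 | h4 | h4
    · have h5 : deriv (deriv (et sqF X 1)) x = 2 := by
        have hO : IsOpen {x : ℝ | |x - L0 / 2| < 4 / 5 * L0} :=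
          isOpen_lt (by fun_prop) continuous_const
        have h6 : et sqF X 1 =ᶠ[𝓝 x] sqF := by
          filter_upwards [hO.mem_nhds h4] with y hy
          exact et_near hX (le_of_lt hy)
        rw [h6.deriv.deriv_eq, sqF_dd]
      rw [h5]
      have := hG.cvx x hx
      linarith
    · have h5 := hmA x h4
      have h6 := hK 2 le_rfl x
      rw [iteratedDeriv_succ, iteratedDeriv_one] at h6
      have h7 := (abs_le.1 h6).1
      rw [lt_div_iff₀ (by positivity)] at hτ1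
      nlinarith
    · have h5 : deriv (deriv (et sqF X 1)) x = 0 := by
        have hO : IsOpen {x : ℝ | 9 / 10 * L0 < |x - L0 / 2|} :=
          isOpen_lt continuous_const (by fun_prop)
        have h6 : et sqF X 1 =ᶠ[𝓝 x] fun _ => 1 := by
          filter_upwards [hO.mem_nhds h4] with y hy
          exact et_far hX (le_of_lt hy)
        rw [h6.deriv.deriv_eq]
        simp
      rw [h5, mul_zero, add_zero]
      refine lt_of_le_of_ne (hG.cvx x hx) fun hcon => ?_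
      have h6 := hG.zero x hx hcon.symm
      rw [h6, sub_self, abs_zero] at h4
      linarith
  have e1 : (fun z => phi G c z + τ * Hf (et sqF X 1) 1 z) = phi Gτ (c + τ * 1) := by
    funext z
    exact (phi_lin G (et sqF X 1) c 1 τ z).symm
  intro z hz
  rw [e1]
  obtain ⟨p1, p2⟩ := phi3W hPW
  by_cases hex : ∃ γ : Gq, ac γ z ∈ Stp L0 (3 / 2 * L0)
  · obtain ⟨γ, hγ⟩ := hex
    rw [← curv_ac (phi2W hPW).1 γ hz, p1 _ hγ]
    have hxI : (ac γ z).re ∈ I0 := mem_I0 (by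
      have h1 := hγ.1
      have h2 := hγ.2
      rw [abs_lt]
      constructor <;> linarith)
    have h1 := hpos _ hxI
    have h2 := Real.exp_pos (-2 * Gτ (ac γ z).re)
    have h3 : 0 < Real.exp (-2 * Gτ (ac γ z).re) * deriv (deriv Gτ) (ac γ z).re := mul_pos h2 h1
    linarith
  · push Not at hex
    rw [p2 z hz fun γ hγ => hex γ ⟨by linarith [hγ.1], by linarith [hγ.2]⟩]
    have hl : 0 < lam := tW.2.1
    have h2 := Real.exp_pos (-2 * (c + τ * 1))
    have h3 : 0 < lam ^ 2 * Real.exp (-2 * (c + τ * 1)) := by positivity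
    linarith

/-- the metrics near the metric of a profile -/
theorem prof_fam (hP : Prof g c1 C0) (hX : Cut X) (hpr : PrM Om ac pr) (hq : PrP Om ac q)
    (hB : Bs0 g X c1 pr μ D Φ σ) (hA : AdW (fun x => G x - g x) c) :
    ∃ κ : C(M, ℝ), ContDiffOn ℝ ∞ (fun z => κ (pr z)) Om ∧
      ∀ f : C(M, ℝ), ContDiffOn ℝ ∞ (fun z => f (pr z)) Om →
      (D.conf fun x => Real.exp ((κ + (2 : ℝ) • f) x)).IsSurf
          (wm μ fun x => Real.exp ((κ + (2 : ℝ) • f) x)) ∧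
        Compat (D.conf fun x => Real.exp ((κ + (2 : ℝ) • f) x)) Om
          (fun z => phi G (c1 + c) z + f (pr z)) pr ∧
        IsArea Om (fun z => phi G (c1 + c) z + f (pr z)) pr
          (wm μ fun x => Real.exp ((κ + (2 : ℝ) • f) x)) := by
  have a1 := hfW (adW_et (G := g) hP.smooth hX 0)
  have a2 := hfW hA
  obtain ⟨κ, hκ⟩ := desc hpr (F := fun z => 2 * (Hf (et g X 0) 0 z + Hf (fun x => G x - g x) c z))
    (continuousOn_const.mul (a1.sm.continuousOn.add a2.sm.continuousOn))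
    (fun γ z hz => by rw [a1.inv γ z hz, a2.inv γ z hz])
  have hκs : ContDiffOn ℝ ∞ (fun z => κ (pr z)) Om :=
    (contDiffOn_const.mul (a1.sm.add a2.sm)).congr fun z hz => hκ z hz
  refine ⟨κ, hκs, fun f hf => ?_⟩
  refine data_gen hP hX hpr hq hB (κ + (2 : ℝ) • f) (hκs.add (contDiffOn_const.mul hf)) _
    fun z hz => ?_
  have h1 : (κ + (2 : ℝ) • f) (pr z) = κ (pr z) + 2 * f (pr z) := rfl
  rw [phi_eq g X G c1 c z, h1, hκ z hz]
  ring

/-- a weak basis and the smooth basis -/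
theorem eb_ex2 {Ω : Set ℂ} {φ : ℂ → ℝ} {μ : Measure M} {D : Data M} (hUT : IsUT Ω φ pr q)
    (hS : D.IsSurf μ) (hC : Compat D Ω φ pr)
    (hA : IsArea Ω φ pr μ) {u : ℕ → M → ℝ} {lam : ℕ → ℝ} (hu : EigBasis D μ u lam) :
    ∃ v : ℕ → M → ℝ, EB Ω φ pr μ v lam ∧ ∀ j, u j =ᵐ[μ] v j := by
  have hv : ∀ j, ∃ v : M → ℝ, (∀ᵐ x ∂μ, u j x = v x) ∧
      ContDiffOn ℝ ∞ (fun z => v (pr z)) Ω ∧ ∀ z ∈ Ω,
        -(Real.exp (-2 * φ z) * lap (fun z => v (pr z)) z) = lam j * v (pr z) := fun j =>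
    tEll M P Ω _ pr q _ μ hUT hS hC hA (lam j) (u j) (hu.eig j)
  choose v hv1 hv2 hv3 using hv
  refine ⟨v, ⟨fun j => ⟨hv2 j, hv3 j⟩, hu.mono, ?_, ?_⟩, hv1⟩
  · intro k l
    rw [← hu.orth k l]
    refine integral_congr_ae ?_
    filter_upwards [hv1 k, hv1 l] with x hx hx'
    rw [hx, hx']
  · intro f hf hfv
    refine hu.total f hf fun j => ?_
    rw [← hfv j]
    refine integral_congr_ae ?_
    filter_upwards [hv1 j] with x hx
    rw [hx]

/-- localization and integrals of functions which vanish on the closed set -/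
theorem loc_int {ν : Measure M} [IsFiniteMeasure ν] {Z : Set M} (H : C(M, ℝ))
    (hH : ∀ x, 0 ≤ H x) (hz : ∀ x ∈ Z, H x = 0) {u : ℕ → M → ℝ}
    (hint : ∀ j, Integrable (fun x => (u j x) ^ 2) ν) (hone : ∀ j, ∫ x, (u j x) ^ 2 ∂ν = 1)
    {l : Filter ℕ} (hloc : ∀ K : Set M, IsCompact K → Disjoint K Z →
      Tendsto (fun j => ∫ x in K, (u j x) ^ 2 ∂ν) l (𝓝 0)) :
    Tendsto (fun j => ∫ x, H x * (u j x) ^ 2 ∂ν) l (𝓝 0) := by
  obtain ⟨B, hB⟩ := isCompact_univ.exists_bound_of_continuousOn H.continuous.continuousOn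
  have hBp : 0 ≤ max B 0 := le_max_right _ _
  have hBH : ∀ x, H x ≤ max B 0 := fun x =>
    (le_abs_self _).trans ((hB x (mem_univ x)).trans (le_max_left _ _))
  have hI : ∀ j, Integrable (fun x => H x * (u j x) ^ 2) ν := fun j =>
    (hint j).bdd_mul H.continuous.aestronglyMeasurable
      (Filter.Eventually.of_forall fun x => hB x (mem_univ x))
  rw [Metric.tendsto_nhds]
  intro ε hε
  set K : Set M := {x | ε / 2 ≤ H x} with hK
  have hKc : IsClosed K := isClosed_le continuous_const H.continuous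
  have hKd : Disjoint K Z := by
    rw [disjoint_left]
    intro x hx hxZ
    have h1 : ε / 2 ≤ H x := hx
    rw [hz x hxZ] at h1
    linarith
  have h1 := hloc K hKc.isCompact hKd
  have h2 : ∀ᶠ j in l, ∫ x in K, (u j x) ^ 2 ∂ν < ε / (2 * (max B 0 + 1)) :=
    h1.eventually (gt_mem_nhds (by positivity))
  filter_upwards [h2] with j hj
  have h3 : 0 ≤ ∫ x, H x * (u j x) ^ 2 ∂ν :=
    integral_nonneg fun x => mul_nonneg (hH x) (sq_nonneg _)
  rw [Real.dist_eq, sub_zero, abs_of_nonneg h3, ← integral_add_compl hKc.measurableSet (hI j)]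
  have h4 : ∫ x in K, H x * (u j x) ^ 2 ∂ν ≤ max B 0 * ∫ x in K, (u j x) ^ 2 ∂ν := by
    rw [← integral_const_mul]
    refine setIntegral_mono (hI j).integrableOn ((hint j).const_mul _).integrableOn fun x => ?_
    exact mul_le_mul_of_nonneg_right (hBH x) (sq_nonneg _)
  have h5 : ∫ x in Kᶜ, H x * (u j x) ^ 2 ∂ν ≤ ε / 2 := by
    have h6 : ∫ x in Kᶜ, H x * (u j x) ^ 2 ∂ν ≤ ∫ x in Kᶜ, ε / 2 * (u j x) ^ 2 ∂ν := by
      refine setIntegral_mono_on (hI j).integrableOn ((hint j).const_mul _).integrableOn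
        hKc.measurableSet.compl fun x hx => ?_
      have h7 : H x < ε / 2 := not_le.1 hx
      exact mul_le_mul_of_nonneg_right h7.le (sq_nonneg _)
    rw [integral_const_mul] at h6
    have h8 : ∫ x in Kᶜ, (u j x) ^ 2 ∂ν ≤ 1 := by
      rw [← hone j]
      exact setIntegral_le_integral (hint j) (Filter.Eventually.of_forall fun x => sq_nonneg _)
    nlinarith
  have h9 : max B 0 * ∫ x in K, (u j x) ^ 2 ∂ν < ε / 2 := by
    have h10 : 0 ≤ ∫ x in K, (u j x) ^ 2 ∂ν := integral_nonneg fun x => sq_nonneg _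
    rw [lt_div_iff₀ (by positivity)] at hj
    nlinarith
  linarith

end

/-- Localized eigenfunctions for all metrics near a metric whose curvature vanishes on one closed
geodesic. -/
def Concl6 : Prop :=
  ∃ (M P : Type) (_ : MetricSpace M) (_ : CompactSpace M) (_ : ConnectedSpace M)
    (_ : MeasurableSpace M) (_ : BorelSpace M) (_ : MetricSpace P) (_ : CompactSpace P)
    (_ : MeasurableSpace P) (_ : BorelSpace P) (Ω : Set ℂ) (φ : ℂ → ℝ) (pr : ℂ → M) (q : Y → P)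
    (μ : Measure M) (m : Measure P) (Fl : ℝ → Y → Y) (ψ : M → ℝ) (G : ℝ → ℝ) (x0 δ τ1 : ℝ),
    0 < δ ∧ (∀ z : ℂ, |z.re - x0| < δ → z ∈ Ω ∧ φ z = G z.re) ∧
    (∀ z w : ℂ, |z.re - x0| < δ → |w.re - x0| < δ →
      (pr z = pr w ↔ ∃ n : ℤ, w = z + n * (2 * π * Complex.I))) ∧
    G x0 = 0 ∧ HasDerivAt G 0 x0 ∧
    IsUT Ω φ pr q ∧ IsArea Ω φ pr μ ∧ IsFiniteMeasure μ ∧ IsLiou Ω φ q m ∧ IsGeo Ω φ Fl ∧
    (∀ z : ℂ, z.re = x0 → ∀ t : ℝ, Fl t (z, π / 2) = (z + t * Complex.I, π / 2)) ∧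
    (∀ z ∈ Ω, curv φ z ≤ 0) ∧ (∀ z ∈ Ω, curv φ z = 0 ↔ pr z ∈ Gm pr x0) ∧
    Erg Ω q m Fl ∧ IsClosed (Gm pr x0) ∧ μ (Gm pr x0) = 0 ∧
    (∃ u lam, EB Ω φ pr μ u lam) ∧
    (∀ u lam, EB Ω φ pr μ u lam → Tendsto lam atTop atTop ∧
      (∀ j, Integrable (fun x => (u j x) ^ 2) μ) ∧ Loc μ (Gm pr x0) u lam) ∧
    ContDiffOn ℝ ∞ (fun z => ψ (pr z)) Ω ∧ 0 < τ1 ∧
    (∀ τ : ℝ, 0 < τ → τ < τ1 → ∀ z ∈ Ω, curv (fun z => φ z + τ * ψ (pr z)) z < 0) ∧
    (∀ f : M → ℝ, ContDiffOn ℝ ∞ (fun z => f (pr z)) Ω →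
      IsUT Ω (fun z => φ z + f (pr z)) pr q ∧ ∃ μ' : Measure M,
        IsArea Ω (fun z => φ z + f (pr z)) pr μ' ∧
        (∀ V : Set M, MeasurableSet V → ∀ B : ℝ, (∀ x, f x ≤ B) →
          μ' V ≤ ENNReal.ofReal (Real.exp (2 * B)) * μ V) ∧
        ∃ u lam, EB Ω (fun z => φ z + f (pr z)) pr μ' u lam) ∧
    ∀ U : Set M, IsOpen U → Gm pr x0 ⊆ U → ∀ C ε Λ0 : ℝ, 0 < ε → ∃ (Λ1 η : ℝ),
      0 < η ∧ ∀ f : M → ℝ, ContDiffOn ℝ ∞ (fun z => f (pr z)) Ω → (∀ x, |f x| < η) →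
      ∀ μ' : Measure M, IsArea Ω (fun z => φ z + f (pr z)) pr μ' →
      ∀ (u : ℕ → M → ℝ) (lam : ℕ → ℝ), EB Ω (fun z => φ z + f (pr z)) pr μ' u lam →
      (∀ j, Integrable (fun x => (u j x) ^ 2) μ') ∧
      ∃ Λ : ℝ, Λ0 ≤ Λ ∧ Λ ≤ Λ1 ∧
        C * √Λ < ({j | 1 - ε ≤ (∫ x in U, (u j x) ^ 2 ∂μ') ∧ lam j ≤ Λ}.ncard : ℝ)

theorem curv_congr {φ φ' : ℂ → ℝ} {z : ℂ} (h : φ =ᶠ[𝓝 z] φ') : curv φ z = curv φ' z := by
  have h1 : px φ =ᶠ[𝓝 z] px φ' := by
    filter_upwards [h.fderiv (𝕜 := ℝ)] with w hw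
    unfold px
    rw [hw]
  have h2 : py φ =ᶠ[𝓝 z] py φ' := by
    filter_upwards [h.fderiv (𝕜 := ℝ)] with w hw
    unfold py
    rw [hw]
  have h3 : px (px φ) z = px (px φ') z := by
    show fderiv ℝ (px φ) z 1 = fderiv ℝ (px φ') z 1
    rw [h1.fderiv_eq]
  have h4 : py (py φ) z = py (py φ') z := by
    show fderiv ℝ (py φ) z Complex.I = fderiv ℝ (py φ') z Complex.I
    rw [h2.fderiv_eq]
  unfold curv
  rw [h.eq_of_nhds, h3, h4]

theorem wm_le {M : Type} [MetricSpace M] [CompactSpace M] [MeasurableSpace M] [BorelSpace M]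
    (μ : Measure M) (κ f : C(M, ℝ)) {V : Set M} (hV : MeasurableSet V) {B : ℝ} (hf : ∀ x, f x ≤ B) :
    wm μ (fun x => Real.exp ((κ + (2 : ℝ) • f) x)) V ≤
      ENNReal.ofReal (Real.exp (2 * B)) * wm μ (fun x => Real.exp (κ x)) V := by
  unfold wm
  rw [withDensity_apply _ hV, withDensity_apply _ hV, ← lintegral_const_mul]
  · refine lintegral_mono fun x => ?_
    rw [← ENNReal.ofReal_mul (Real.exp_pos _).le, ← Real.exp_add]
    refine ENNReal.ofReal_le_ofReal (Real.exp_le_exp.2 ?_)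
    have h1 : (κ + (2 : ℝ) • f) x = κ x + 2 * f x := rfl
    rw [h1]
    linarith [hf x]
  · exact (ENNReal.continuous_ofReal.comp (Real.continuous_exp.comp κ.continuous)).measurable

theorem fin6 : Concl6 := by
  obtain ⟨g, c1, C0, hP⟩ := tProf
  obtain ⟨X, hX⟩ := cut_ex
  have h0 := L0p
  have hA : Act Gq Om ac := tAct
  obtain ⟨hI, hconj⟩ := tPhi2 g c1 C0 hP
  obtain ⟨M, iM, cM, pr, hpr⟩ := Pool.Agent.Y338.EX.qM Pool.Agent.Y749.EX.top Gq Om ac hA
  obtain ⟨P, iP, cP, q, hq⟩ := Pool.Agent.Y848.EX.qP Pool.Agent.Y749.EX.top Gq Om ac hA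
    (fun γ z hz => (hI.2 γ z hz).1)
  let _ : MeasurableSpace M := borel M
  have _ : BorelSpace M := ⟨rfl⟩
  let _ : MeasurableSpace P := borel P
  have _ : BorelSpace P := ⟨rfl⟩
  obtain ⟨μ0, D, Φ, σ, hB⟩ := base0_ex hP hX hpr hq
  have hneM : Nonempty M := ⟨Φ 0⟩
  have hconn : ConnectedSpace M := { toPreconnectedSpace := ⟨hpr.conn⟩, toNonempty := hneM }
  obtain ⟨G, c, C, r, hG2, hG0, hAd, hr0, hrL, hst⟩ := lim_ex hP hX hpr hq hB
  have hGW : ProfW G (c1 + c) := hG2.profW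
  have hUT : IsUT Om (phi G (c1 + c)) pr q := ut_prof hpr hq hGW
  obtain ⟨C', hC⟩ := clsE2 hG2 hpr hUT
  obtain ⟨κ, hκs, hfam⟩ := prof_fam hP hX hpr hq hB hAd
  obtain ⟨b1, b2, b3⟩ := hfam 0 contDiffOn_const
  have e0 : κ + (2 : ℝ) • (0 : C(M, ℝ)) = κ := by simp
  rw [e0] at b1 b2 b3
  have e1 : ∀ z ∈ Om, phi G (c1 + c) z = phi G (c1 + c) z + (0 : C(M, ℝ)) (pr z) := fun z _ => by
    show _ = _ + (0 : ℝ)
    ring
  have hν : IsArea Om (phi G (c1 + c)) pr (wm μ0 fun x => Real.exp (κ x)) := area_congr b3 e1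
  have hCmp : Compat (D.conf fun x => Real.exp (κ x)) Om (phi G (c1 + c)) pr := cmp_congr b2 e1
  have hνf : IsFiniteMeasure (wm μ0 fun x => Real.exp (κ x)) := (tFin M _ _ b1).1
  have hall : ∀ u lam, EB Om (phi G (c1 + c)) pr (wm μ0 fun x => Real.exp (κ x)) u lam →
      Tendsto lam atTop atTop ∧
        (∀ j, Integrable (fun x => (u j x) ^ 2) (wm μ0 fun x => Real.exp (κ x))) ∧
        ∀ j, ∫ x, (u j x) ^ 2 ∂(wm μ0 fun x => Real.exp (κ x)) = 1 := by
    intro u lam hu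
    have hw := eb_weak hUT b1 hCmp hν hu
    refine ⟨Pool.Agent.H240.NL.eb_tt hB.surf hneM hw, fun j => (hw.eig j).mem.integrable_sq,
      fun j => ?_⟩
    have h8 := hw.orth j j
    rw [if_pos rfl] at h8
    rw [← h8]
    refine integral_congr_ae (Filter.Eventually.of_forall fun x => ?_)
    simp only
    ring
  have hloc : ∀ u lam, EB Om (phi G (c1 + c)) pr (wm μ0 fun x => Real.exp (κ x)) u lam →
      Loc (wm μ0 fun x => Real.exp (κ x)) (Gm pr (L0 / 2)) u lam := by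
    intro u lam hu
    obtain ⟨h1, h2, h3⟩ := hall u lam hu
    exact loc_ex hX hpr h1 h2 h3 hr0 hrL fun n => hst n _ hν u lam hu
  have hIn : Inva Om (phi G (c1 + c)) ac := (phi2W hGW).1
  obtain ⟨Fl, hFl⟩ := tGeo Gq Om ac _ hA hIn
  obtain ⟨m, hm⟩ := tLiouEx M P Om _ pr q hUT
  have hS : ∀ z : ℂ, |z.re - L0 / 2| < L0 → z ∈ Stp L0 (3 / 2 * L0) := by
    intro z hz
    have h1 := abs_lt.1 hz
    exact ⟨by linarith [h1.1], by linarith [h1.2]⟩
  have hline : ∀ z : ℂ, z.re = L0 / 2 → z ∈ Stp L0 (3 / 2 * L0) := by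
    intro z hz
    exact hS z (by rw [hz, sub_self, abs_zero]; exact h0)
  have hper : ∀ z ∈ Stp L0 (3 / 2 * L0), ∀ w ∈ Stp L0 (3 / 2 * L0),
      (pr z = pr w ↔ ∃ n : ℤ, w = z + n * (2 * π * Complex.I)) := by
    intro z hz w hw
    refine ⟨hC.inj z hz w hw, ?_⟩
    rintro ⟨n, hn⟩
    have hper : ∀ k : ℤ, pr (z + k * (2 * π * Complex.I)) = pr z := by
      have hre : ∀ k : ℤ, (z + k * (2 * π * Complex.I)) ∈ Stp L0 (3 / 2 * L0) := by
        intro k
        have : (z + k * (2 * π * Complex.I)).re = z.re := by simp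
        constructor
        · rw [this]; exact hz.1
        · rw [this]; exact hz.2
      intro k
      induction k using Int.induction_on with
      | zero => simp
      | succ k ih =>
        have h1 := hC.per _ (hre k)
        rw [ih] at h1
        rw [← h1]
        congr 1
        push_cast
        ring
      | pred k ih =>
        have h1 := hC.per _ (hre (-k - 1))
        rw [← h1, ← ih]
        congr 1
        push_cast
        ring
    rw [hn, hper n]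
  have hrot : ∀ z ∈ Stp L0 (3 / 2 * L0), phi G (c1 + c) z = G z.re := fun z hz => hC.rot z hz
  have hpx : ∀ z : ℂ, z.re = L0 / 2 → phi G (c1 + c) z = 0 ∧ px (phi G (c1 + c)) z = 0 := by
    intro z hz
    refine ⟨by rw [hrot z (hline z hz), hz, hG2.g0], ?_⟩
    have h1 : phi G (c1 + c) =ᶠ[𝓝 z] fun w => G w.re := by
      filter_upwards [(stp_open _ _).mem_nhds (hline z hz)] with w hw using hrot w hw
    have h2 : HasFDerivAt (fun w : ℂ => G w.re)
        ((ContinuousLinearMap.toSpanSingleton ℝ (0 : ℝ)).comp Complex.reCLM) z := by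
      have h3 : HasDerivAt G 0 (Complex.reCLM z) := by
        show HasDerivAt G 0 z.re
        rw [hz]
        exact hG2.g1
      exact h3.hasFDerivAt.comp z Complex.reCLM.hasFDerivAt
    unfold px
    rw [h1.fderiv_eq, h2.fderiv]
    simp
  -- the function which vanishes on the closed geodesic
  have a3 := hfW (adW_et (G := sqF) sqF_cd.contDiffOn hX 1)
  obtain ⟨H, hH⟩ := desc hpr (F := Hf (et sqF X 1) 1) a3.sm.continuousOn a3.inv
  have hHs : ContDiffOn ℝ ∞ (fun z => H (pr z)) Om := a3.sm.congr fun z hz => hH z hz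
  have hHz' := h_zero_gen hX hpr (F := sqF) (r := 0) (by positivity) sqF_cd.contDiffOn
    (fun x hx => by
      have h1 := abs_nonpos_iff.1 hx
      simp only [sqF, h1]
      norm_num)
    (fun x _ hx => by
      have h1 := abs_pos.1 hx
      unfold sqF
      positivity) hH
  have hT : ∀ x, x ∈ Tc pr 0 ↔ x ∈ Gm pr (L0 / 2) := by
    intro x
    have h1 : {z : ℂ | |z.re - L0 / 2| ≤ 0} = {z : ℂ | z.re = L0 / 2} := by
      ext z
      simp only [mem_setOf_eq, abs_nonpos_iff]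
      exact sub_eq_zero
    unfold Tc Gm
    rw [h1]
  have hHn : ∀ x, 0 ≤ H x := fun x => (hHz' x).1
  have hHz : ∀ x, H x = 0 ↔ x ∈ Gm pr (L0 / 2) := fun x => (hHz' x).2.trans (hT x)
  -- weak bases
  have hgood : ∀ (u : ℕ → M → ℝ) (lam : ℕ → ℝ),
      EigBasis (D.conf fun x => Real.exp (κ x)) (wm μ0 fun x => Real.exp (κ x)) u lam →
      ∃ J : Set ℕ, (∀ C : ℝ, ∃ᶠ Λ : ℝ in atTop,
        C * Real.sqrt Λ < ({j | j ∈ J ∧ lam j ≤ Λ}.ncard : ℝ)) ∧
        Tendsto (fun j => ∫ x, H x * (u j x) ^ 2 ∂(wm μ0 fun x => Real.exp (κ x)))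
          (atTop ⊓ 𝓟 J) (𝓝 0) := by
    intro u lam hu
    obtain ⟨v, hv, huv⟩ := eb_ex2 hUT b1 hCmp hν hu
    obtain ⟨h1, h2, h3⟩ := hall v lam hv
    obtain ⟨J, hJ1, hJ2⟩ := hloc v lam hv
    refine ⟨J, hJ1, ?_⟩
    have h4 := loc_int H hHn (fun x hx => (hHz x).2 hx) h2 h3 hJ2
    refine h4.congr fun j => integral_congr_ae ?_
    filter_upwards [huv j] with x hx
    rw [hx]
  obtain ⟨τ1, hτ1, hneg⟩ := neg_prof hX hG2
  refine ⟨M, P, iM, cM, hconn, inferInstance, inferInstance, iP, cP, inferInstance, inferInstance,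
    Om, phi G (c1 + c), pr, q, _, m, Fl, H, G, L0 / 2, L0, τ1, h0, ?_, ?_, hG2.g0, hG2.g1, hUT, hν,
    hνf, hm, hFl, ?_, hC.neg, ?_, ?_, (gm_far hX hpr).1, ?_, ?_, fun u lam hu => ?_, hHs, hτ1, ?_,
    ?_, ?_⟩
  · intro z hz
    exact ⟨strip_om (hS z hz), hrot z (hS z hz)⟩
  · intro z w hz hw
    exact hper z (hS z hz) w (hS w hw)
  · exact geo_line om_open hIn.1 hFl (fun z hz => strip_om (hline z hz)) hpx
  · intro z hz
    constructor
    · intro hz0
      obtain ⟨w, hw1, hw2⟩ := hC.zero z hz hz0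
      exact ⟨w, hw1, hw2⟩
    · rintro ⟨w, hw1, hw2⟩
      have hw1' : w.re = L0 / 2 := hw1
      obtain ⟨γ, hγ⟩ := (hpr.rel z hz w (strip_om (hline w hw1'))).1 hw2.symm
      rw [← curv_ac hIn γ hz, hγ, (phi3W hGW).1 w (hline w hw1'), hw1', hG0]
      simp
  · exact erg2 M P Om _ pr q m Fl _ _ _ _ _ _ _ hUT hm hFl hC
  · exact gm_null hν (fun z hz => strip_om (hline z hz)) fun z w hz hw =>
      hper z (hline z hz) w (hline w hw)
  · obtain ⟨u, lam, hu⟩ := tEx M μ0 D hB.surf hneM κ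
    obtain ⟨v, hv⟩ := eb_ex hUT b1 hCmp hν hu
    exact ⟨v, lam, hv⟩
  · obtain ⟨h1, h2, h3⟩ := hall u lam hu
    exact ⟨h1, h2, hloc u lam hu⟩
  · intro τ hτ hτ2 z hz
    have h1 := hneg τ hτ hτ2 z hz
    have h2 : (fun z => phi G (c1 + c) z + τ * H (pr z)) =ᶠ[𝓝 z]
        fun z => phi G (c1 + c) z + τ * Hf (et sqF X 1) 1 z := by
      filter_upwards [om_open.mem_nhds hz] with w hw
      rw [hH w hw]
    rw [curv_congr h2]
    exact h1
  · intro f hf
    have hUTf := ut_add hpr hq hGW hf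
    set fC : C(M, ℝ) := ⟨f, Pool.Agent.H240.NL.cont_of hUT hf.continuousOn⟩ with hfC
    obtain ⟨d1, d2, d3⟩ := hfam fC hf
    obtain ⟨u, lam, hu⟩ := tEx M μ0 D hB.surf hneM (κ + (2 : ℝ) • fC)
    obtain ⟨v, hv⟩ := eb_ex hUTf d1 d2 d3 hu
    exact ⟨hUTf, _, d3, fun V hV B hfB => wm_le μ0 κ fC hV hfB, v, lam, hv⟩
  · intro U hU hZU C ε Λ0 hε
    have hK : IsCompact Uᶜ := hU.isClosed_compl.isCompact
    obtain ⟨c', hc', hcK⟩ : ∃ c : ℝ, 0 < c ∧ ∀ x ∈ Uᶜ, c ≤ H x := by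
      rcases (Uᶜ).eq_empty_or_nonempty with hem | hne
      · exact ⟨1, one_pos, fun x hx => by rw [hem] at hx; exact absurd hx (notMem_empty x)⟩
      · obtain ⟨x1, hx1, hmin⟩ := hK.exists_isMinOn hne H.continuous.continuousOn
        refine ⟨H x1, lt_of_le_of_ne (hHn x1) fun hcon => ?_, fun x hx => hmin hx⟩
        exact hx1 (hZU ((hHz x1).1 hcon.symm))
    obtain ⟨Λ1, η, hη, hstb⟩ := Pool.Agent.H240.NL.stabL μ0 D hB.surf hneM κ H hgood C
      (c' * ε) Λ0 (by positivity)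
    refine ⟨Λ1, η / 2, by positivity, fun f hf hfη ν' hν' u lam hu => ?_⟩
    have hUTf := ut_add hpr hq hGW hf
    set fC : C(M, ℝ) := ⟨f, Pool.Agent.H240.NL.cont_of hUT hf.continuousOn⟩ with hfC
    obtain ⟨d1, d2, d3⟩ := hfam fC hf
    have hνeq : ν' = wm μ0 fun x => Real.exp ((κ + (2 : ℝ) • fC) x) := Pool.Agent.H240.NL.area_unique hUTf hν' d3
    subst hνeq
    have hw := eb_weak hUTf d1 d2 d3 hu
    have hfn : ‖(2 : ℝ) • fC‖ < η := by
      rw [ContinuousMap.norm_lt_iff _ hη]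
      intro x
      have h1 : ((2 : ℝ) • fC) x = 2 * f x := rfl
      rw [h1, Real.norm_eq_abs, abs_mul, abs_two]
      linarith [hfη x]
    refine ⟨fun j => (hw.eig j).mem.integrable_sq, ?_⟩
    obtain ⟨Λ, hΛ0, hΛ1, hΛ⟩ := hstb ((2 : ℝ) • fC) hfn u lam hw
    refine ⟨Λ, hΛ0, hΛ1, hΛ.trans_le (Nat.cast_le.2 (ncard_le_ncard ?_ ?_))⟩
    · rintro j ⟨h1, h2⟩
      refine ⟨?_, h2⟩
      set ν := wm μ0 fun x => Real.exp ((κ + (2 : ℝ) • fC) x) with hνd
      have hu2 : Integrable (fun x => (u j x) ^ 2) ν := (hw.eig j).mem.integrable_sq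
      have hIn : Integrable (fun x => H x * (u j x) ^ 2) ν := by
        obtain ⟨B, hB⟩ := isCompact_univ.exists_bound_of_continuousOn H.continuous.continuousOn
        exact hu2.bdd_mul H.continuous.aestronglyMeasurable
          (Filter.Eventually.of_forall fun x => hB x (mem_univ x))
      have h3 : ∫ x in Uᶜ, c' * (u j x) ^ 2 ∂ν ≤ ∫ x in Uᶜ, H x * (u j x) ^ 2 ∂ν := by
        refine setIntegral_mono_on (hu2.const_mul _).integrableOn hIn.integrableOn
          hK.measurableSet fun x hx => ?_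
        exact mul_le_mul_of_nonneg_right (hcK x hx) (sq_nonneg _)
      rw [integral_const_mul] at h3
      have h4 : ∫ x in Uᶜ, H x * (u j x) ^ 2 ∂ν ≤ ∫ x, H x * (u j x) ^ 2 ∂ν :=
        setIntegral_le_integral hIn
          (Filter.Eventually.of_forall fun x => mul_nonneg (hHn x) (sq_nonneg _))
      have h5 : c' * ∫ x in Uᶜ, (u j x) ^ 2 ∂ν ≤ c' * ε := (h3.trans h4).trans h1
      have h6 := le_of_mul_le_mul_left h5 hc'
      have h7 := integral_add_compl hU.measurableSet hu2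
      have h8 := hw.orth j j
      rw [if_pos rfl] at h8
      have h9 : ∫ x, (u j x) ^ 2 ∂ν = 1 := by
        rw [← h8]
        refine integral_congr_ae (Filter.Eventually.of_forall fun x => ?_)
        simp only
        ring
      rw [h9] at h7
      linarith
    · obtain ⟨j0, hj0⟩ := ((Pool.Agent.H240.NL.eb_tt hB.surf hneM hw).eventually
        (eventually_gt_atTop Λ)).exists_forall_of_atTop
      refine (Set.finite_Iio j0).subset fun j hj => ?_
      by_contra hcon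
      have h1 := hj0 j (not_lt.1 hcon)
      have h2 : lam j ≤ Λ := hj.2
      linarith

end Pool.Agent.H240.CG
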