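import Pool.Agent.H240.CG.Seq

/-!
# Complete scars on a closed geodesic
-/

set_option autoImplicit false
set_option linter.unusedSectionVars false

open Set Filter Topology MeasureTheory
open scoped ContDiff ComplexConjugate Real

noncomputable section

namespace Pool.Agent.H240.CG

open Pool.Agent.Y262.EG Pool.Agent.Y262.EX Pool.Agent.Y262.EL Pool.Agent.Y262.QE
open Pool.Agent.Y264.QR Pool.Agent.H240.SC Pool.Agent.H240.SG
open Pool.Agent.Y868.EX (stp_open om_open)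

/-- the closed curve `Re z = x0` -/
def Gm {M : Type} (pr : ℂ → M) (x0 : ℝ) : Set M := pr '' {z | z.re = x0}

/-- the curvature is invariant under the group -/
theorem curv_ac {φ : ℂ → ℝ} (hI : Inva Om φ ac) (γ : Gq) {z : ℂ} (hz : z ∈ Om) :
    curv φ (ac γ z) = curv φ z := by
  obtain ⟨r, hr, hball⟩ := Metric.isOpen_iff.mp om_open z hz
  have hAc := tAc
  exact (tGerm Om φ z r (ac γ) om_open hI.1 hr hball
      (fun ζ hζ => ((hAc.1 γ ζ (hball hζ)).2.2.2.1).differentiableWithinAt)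
      (fun ζ hζ => ⟨(hAc.1 γ ζ (hball hζ)).1, (hI.2 γ ζ (hball hζ)).1,
        (hI.2 γ ζ (hball hζ)).2⟩)).1 z (Metric.mem_ball_self hr)

/-- the line is a geodesic -/
theorem geo_line {Ω : Set ℂ} {φ : ℂ → ℝ} {Fl : ℝ → Y → Y} (hO : IsOpen Ω) (hφ : ContDiffOn ℝ ∞ φ Ω)
    (hFl : IsGeo Ω φ Fl) {x0 : ℝ} (hΩ : ∀ z : ℂ, z.re = x0 → z ∈ Ω)
    (h0 : ∀ z : ℂ, z.re = x0 → φ z = 0 ∧ px φ z = 0) (z : ℂ) (hz : z.re = x0) (t : ℝ) :
    Fl t (z, π / 2) = (z + t * Complex.I, π / 2) := by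
  have hre : ∀ t : ℝ, (z + t * Complex.I).re = x0 := by
    intro t
    simp [hz]
  have hzY : ((z, π / 2) : Y) ∈ YO Ω := hΩ z hz
  refine (tUniq Ω φ hO hφ).1 (fun t => Fl t (z, π / 2)) (fun t => (z + t * Complex.I, π / 2)) univ
    isOpen_univ isPreconnected_univ (fun t _ => ⟨hFl.maps t _ hzY, hΩ _ (hre t)⟩)
    (fun t _ => ⟨hFl.ode t _ hzY, ?_⟩) 0 trivial ?_ t trivial
  · have e1 : XX φ (z + t * Complex.I, π / 2) = (Complex.I, 0) := by
      obtain ⟨h1, h2⟩ := h0 _ (hre t)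
      unfold XX
      simp only [h1, h2, neg_zero, Real.exp_zero, Real.cos_pi_div_two, Real.sin_pi_div_two]
      ext
      · simp
        rfl
      · simp
    rw [e1]
    have h1 : HasDerivAt (fun t : ℝ => z + t * Complex.I) (1 * Complex.I) t :=
      ((Complex.ofRealCLM.hasDerivAt (x := t)).mul_const Complex.I).const_add z
    rw [one_mul] at h1
    exact h1.prodMk (hasDerivAt_const t (π / 2))
  · show Fl 0 (z, π / 2) = (z + (0 : ℝ) * Complex.I, π / 2)
    rw [hFl.zero _ hzY]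
    simp

theorem line_null (x0 : ℝ) : volume {z : ℂ | z.re = x0} = 0 := by
  have h1 : {z : ℂ | z.re = x0} = Complex.measurableEquivRealProd ⁻¹' ({x0} ×ˢ univ) := by
    ext z
    simp [Complex.measurableEquivRealProd]
  rw [h1, Complex.volume_preserving_equiv_real_prod.measure_preimage
    ((measurableSet_singleton x0).prod MeasurableSet.univ).nullMeasurableSet,
    Measure.volume_eq_prod, Measure.prod_prod]
  simp

section

variable {g X G : ℝ → ℝ} {c1 C0 c C x0 : ℝ} {M P : Type} [MetricSpace M] [CompactSpace M]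
  [MetricSpace P] [CompactSpace P] [MeasurableSpace M] [BorelSpace M] {pr : ℂ → M} {q : Y → P}
  {μ : Measure M} {D : Data M} {Φ : ℂ → M} {σ : M → M}

/-- the closed curve is a null set -/
theorem gm_null {Ω : Set ℂ} {φ : ℂ → ℝ} {ν : Measure M} (hν : IsArea Ω φ pr ν)
    (hΩ : ∀ z : ℂ, z.re = x0 → z ∈ Ω)
    (hper : ∀ z w : ℂ, z.re = x0 → w.re = x0 →
      (pr z = pr w ↔ ∃ n : ℤ, w = z + n * (2 * π * Complex.I))) : ν (Gm pr x0) = 0 := by
  set B : Set ℂ := {z | z.re = x0 ∧ z.im ∈ Ico (0 : ℝ) (2 * π)} with hB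
  have hBm : MeasurableSet B := by
    refine MeasurableSet.inter ?_ ?_
    · exact Complex.measurable_re (measurableSet_singleton x0)
    · exact Complex.measurable_im measurableSet_Ico
  have h1 : Gm pr x0 = pr '' B := by
    apply Subset.antisymm
    · rintro x ⟨z, hz, rfl⟩
      obtain ⟨n, hn, -⟩ := existsUnique_add_zsmul_mem_Ico (by positivity : (0 : ℝ) < 2 * π) z.im 0
      rw [zero_add] at hn
      have hz' : z.re = x0 := hz
      refine ⟨z + n * (2 * π * Complex.I), ⟨by simp [hz'], ?_⟩, ?_⟩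
      · have e1 : (z + n * (2 * π * Complex.I)).im = z.im + n • (2 * π) := by simp
        rw [e1]
        exact hn
      · exact ((hper z _ hz' (by simp [hz'])).2 ⟨n, rfl⟩).symm
    · exact image_mono fun z hz => hz.1
  have h2 : InjOn pr B := by
    intro z hz w hw he
    obtain ⟨n, hn⟩ := (hper z w hz.1 hw.1).1 he
    have h3 := congrArg Complex.im hn
    have e1 : (z + n * (2 * π * Complex.I)).im = z.im + n • (2 * π) := by simp
    rw [e1] at h3
    obtain ⟨k, -, hk2⟩ := existsUnique_add_zsmul_mem_Ico (by positivity : (0 : ℝ) < 2 * π) z.im 0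
    have h4 : (0 : ℤ) = k := hk2 0 (by simpa using hz.2)
    have h5 : n = k := hk2 n (by
      beta_reduce
      rw [← h3]
      simpa using hw.2)
    rw [hn, h5, ← h4]
    simp
  have hBΩ : B ⊆ Ω := fun z hz => hΩ z hz.1
  rw [h1, hν B hBm hBΩ h2]
  refine setLIntegral_measure_zero _ _ (measure_mono_null (fun z hz => hz.1) (line_null x0))

/-- area and bases of eigenfunctions for the metric of a profile -/
theorem prof_data (hP : Prof g c1 C0) (hX : Cut X) (hpr : PrM Om ac pr) (hq : PrP Om ac q)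
    (hB : Bs0 g X c1 pr μ D Φ σ) (hG : ProfW G (c1 + c)) (hA : AdW (fun x => G x - g x) c) :
    ∃ ν : Measure M, IsArea Om (phi G (c1 + c)) pr ν ∧ IsFiniteMeasure ν ∧
      (∃ u lam, EB Om (phi G (c1 + c)) pr ν u lam) ∧
      ∀ u lam, EB Om (phi G (c1 + c)) pr ν u lam → Tendsto lam atTop atTop ∧
        (∀ j, Integrable (fun x => (u j x) ^ 2) ν) ∧ ∀ j, ∫ x, (u j x) ^ 2 ∂ν = 1 := by
  have hneM : Nonempty M := ⟨Φ 0⟩
  have a1 := hfW (adW_et (G := g) hP.smooth hX 0)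
  have a2 := hfW hA
  obtain ⟨κ, hκ⟩ := desc hpr (F := fun z => 2 * (Hf (et g X 0) 0 z + Hf (fun x => G x - g x) c z))
    (continuousOn_const.mul (a1.sm.continuousOn.add a2.sm.continuousOn))
    (fun γ z hz => by rw [a1.inv γ z hz, a2.inv γ z hz])
  have hκs : ContDiffOn ℝ ∞ (fun z => κ (pr z)) Om :=
    (contDiffOn_const.mul (a1.sm.add a2.sm)).congr fun z hz => hκ z hz
  obtain ⟨b1, b2, b3⟩ := data_gen hP hX hpr hq hB κ hκs (phi G (c1 + c)) (fun z hz => by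
    rw [phi_eq g X G c1 c z, hκ z hz]
    ring)
  have hUT := ut_prof hpr hq hG
  have hfin : IsFiniteMeasure (wm μ fun x => Real.exp (κ x)) := (tFin M _ _ b1).1
  obtain ⟨u, lam, hu⟩ := tEx M μ D hB.surf hneM κ
  obtain ⟨v, hv⟩ := eb_ex hUT b1 b2 b3 hu
  refine ⟨_, b3, hfin, ⟨v, lam, hv⟩, fun u lam hu => ?_⟩
  have hw := eb_weak hUT b1 b2 b3 hu
  refine ⟨Pool.Agent.H240.NL.eb_tt hB.surf hneM hw, fun j => (hw.eig j).mem.integrable_sq,
    fun j => ?_⟩
  have h8 := hw.orth j j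
  rw [if_pos rfl] at h8
  rw [← h8]
  refine integral_congr_ae (Filter.Eventually.of_forall fun x => ?_)
  simp only
  ring

/-- a compact set which does not meet the closed curve is far from it -/
theorem gm_far (hX : Cut X) (hpr : PrM Om ac pr) : IsClosed (Gm pr (L0 / 2)) ∧
    ∀ K : Set M, IsCompact K → Disjoint K (Gm pr (L0 / 2)) →
      ∃ ρ : ℝ, 0 < ρ ∧ ∀ r : ℝ, r ≤ ρ → r ≤ L0 / 2 → Disjoint K (Uc pr r) := by
  have h0 := L0p
  have hF : ContDiffOn ℝ ∞ (fun x : ℝ => (x - L0 / 2) ^ 2) I0 := by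
    have h1 : ContDiff ℝ ∞ fun x : ℝ => (x - L0 / 2) ^ 2 := by fun_prop
    exact h1.contDiffOn
  have a3 := hfW (adW_et hF hX 1)
  obtain ⟨H, hH⟩ := desc hpr (F := Hf (et (fun x : ℝ => (x - L0 / 2) ^ 2) X 1) 1)
    a3.sm.continuousOn a3.inv
  have hz := h_zero_gen hX hpr (F := fun x : ℝ => (x - L0 / 2) ^ 2) (r := 0) (by positivity) hF
    (fun x hx => by
      have h1 := abs_nonpos_iff.1 hx
      simp only [h1]
      norm_num)
    (fun x _ hx => by
      have h1 := abs_pos.1 hx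
      positivity) hH
  have hT : ∀ x, x ∈ Tc pr 0 ↔ x ∈ Gm pr (L0 / 2) := by
    intro x
    have h1 : {z : ℂ | |z.re - L0 / 2| ≤ 0} = {z : ℂ | z.re = L0 / 2} := by
      ext z
      simp only [mem_setOf_eq, abs_nonpos_iff]
      exact sub_eq_zero
    unfold Tc Gm
    rw [h1]
  have hcl : IsClosed (Gm pr (L0 / 2)) := by
    have h1 : Gm pr (L0 / 2) = H ⁻¹' {0} := by
      ext x
      rw [← hT]
      exact (hz x).2.symm
    rw [h1]
    exact isClosed_singleton.preimage H.continuous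
  refine ⟨hcl, fun K hK hd => ?_⟩
  obtain ⟨c, hc, hcK⟩ : ∃ c : ℝ, 0 < c ∧ ∀ x ∈ K, c ≤ H x := by
    rcases K.eq_empty_or_nonempty with hem | hne
    · exact ⟨1, one_pos, fun x hx => by rw [hem] at hx; exact absurd hx (notMem_empty x)⟩
    · obtain ⟨x1, hx1, hmin⟩ := hK.exists_isMinOn hne H.continuous.continuousOn
      refine ⟨H x1, lt_of_le_of_ne (hz x1).1 fun hcon => ?_, fun x hx => hmin hx⟩
      exact disjoint_left.1 hd hx1 ((hT _).1 ((hz x1).2.1 hcon.symm))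
  refine ⟨min 1 c, lt_min one_pos hc, fun r hr hr2 => ?_⟩
  rw [disjoint_left]
  rintro x hxK ⟨z, hzr, rfl⟩
  have hz' : |z.re - L0 / 2| < r := hzr
  have h1 := hcK _ hxK
  have hzn : |z.re - L0 / 2| ≤ 4 / 5 * L0 := by linarith
  have hzS := stp_near hzn
  rw [hH z (strip_om hzS), a3.strip _ hzS, et_near hX hzn] at h1
  have h2 : (z.re - L0 / 2) ^ 2 < c := by
    have h3 : |z.re - L0 / 2| < min 1 c := lt_of_lt_of_le hz' hr
    have h4 : |z.re - L0 / 2| < 1 := lt_of_lt_of_le h3 (min_le_left _ _)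
    have h5 : |z.re - L0 / 2| < c := lt_of_lt_of_le h3 (min_le_right _ _)
    have h6 := abs_nonneg (z.re - L0 / 2)
    rw [← sq_abs]
    nlinarith
  linarith

/-- localization on the closed curve -/
theorem loc_ex (hX : Cut X) (hpr : PrM Om ac pr) {ν : Measure M} [IsFiniteMeasure ν]
    {u : ℕ → M → ℝ} {lam : ℕ → ℝ} (htt : Tendsto lam atTop atTop)
    (hint : ∀ j, Integrable (fun x => (u j x) ^ 2) ν) (hone : ∀ j, ∫ x, (u j x) ^ 2 ∂ν = 1)
    {r : ℕ → ℝ} (hr0 : Tendsto r atTop (𝓝 0)) (hrL : ∀ n, 0 < r n ∧ r n ≤ L0 / 2)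
    (hst : ∀ n : ℕ, ∃ Λ : ℝ, (n : ℝ) ≤ Λ ∧ n * √Λ <
      ({j | 1 - 1 / ((n : ℝ) + 1) ≤ (∫ x in Uc pr (r n), (u j x) ^ 2 ∂ν) ∧
        lam j ≤ Λ}.ncard : ℝ)) : Loc ν (Gm pr (L0 / 2)) u lam := by
  have h0 := L0p
  choose Λ hΛ1 hΛ2 using hst
  set A : ℕ → Set ℕ := fun n => {j | 1 - 1 / ((n : ℝ) + 1) ≤ (∫ x in Uc pr (r n), (u j x) ^ 2 ∂ν) ∧
    lam j ≤ Λ n} with hA
  have hfinL : ∀ a : ℝ, {j | lam j ≤ a}.Finite := by
    intro a
    obtain ⟨j0, hj0⟩ := (htt.eventually (eventually_gt_atTop a)).exists_forall_of_atTop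
    refine (Set.finite_Iio j0).subset fun j hj => ?_
    by_contra hcon
    have h1 := hj0 j (not_lt.1 hcon)
    have h2 : lam j ≤ a := hj
    linarith
  refine ⟨⋃ n, A n, fun C => ?_, fun K hK hKZ => ?_⟩
  · rw [frequently_atTop]
    intro Λ0
    obtain ⟨n, hn⟩ := exists_nat_ge (max C Λ0)
    refine ⟨Λ n, ((le_max_right _ _).trans hn).trans (hΛ1 n), ?_⟩
    have h1 : C * √(Λ n) ≤ n * √(Λ n) :=
      mul_le_mul_of_nonneg_right ((le_max_left _ _).trans hn) (Real.sqrt_nonneg _)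
    have h2 : (A n) ⊆ {j | j ∈ (⋃ n, A n) ∧ lam j ≤ Λ n} := fun j hj => ⟨mem_iUnion.2 ⟨n, hj⟩, hj.2⟩
    have h3 : ((A n).ncard : ℝ) ≤ ({j | j ∈ (⋃ n, A n) ∧ lam j ≤ Λ n}.ncard : ℝ) :=
      Nat.cast_le.2 (ncard_le_ncard h2 ((hfinL (Λ n)).subset fun j hj => hj.2))
    exact (h1.trans_lt (hΛ2 n)).trans_le h3
  · obtain ⟨ρ, hρ, hdis⟩ := (gm_far hX hpr).2 K hK hKZ
    obtain ⟨N1, hN1⟩ := (hr0.eventually (gt_mem_nhds hρ)).exists_forall_of_atTop
    rw [Metric.tendsto_nhds]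
    intro ε hε
    obtain ⟨N2, hN2⟩ := exists_nat_gt (1 / ε)
    set N := max N1 N2 with hN
    -- only finitely many `j` belong to the first sets
    have hfin : (⋃ n ∈ Finset.range N, {j | lam j ≤ Λ n}).Finite :=
      (Finset.range N).finite_toSet.biUnion fun n _ => hfinL (Λ n)
    have hev : ∀ᶠ j in atTop, j ∉ ⋃ n ∈ Finset.range N, {j | lam j ≤ Λ n} := by
      have h1 := hfin.eventually_cofinite_notMem
      rwa [Nat.cofinite_eq_atTop] at h1
    rw [eventually_inf_principal]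
    filter_upwards [hev] with j hj hjA
    obtain ⟨n, hn⟩ := mem_iUnion.1 hjA
    have hnN : N ≤ n := by
      by_contra hcon
      push Not at hcon
      exact hj (mem_biUnion (Finset.mem_coe.2 (Finset.mem_range.2 hcon)) hn.2)
    have hrn : r n < ρ := hN1 n ((le_max_left _ _).trans hnN)
    have hd := hdis (r n) hrn.le (hrL n).2
    have hUo : IsOpen (Uc pr (r n)) := uc_open hpr (by linarith [(hrL n).2])
    have h1 : ∫ x in K, (u j x) ^ 2 ∂ν ≤ ∫ x in (Uc pr (r n))ᶜ, (u j x) ^ 2 ∂ν :=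
      setIntegral_mono_set (hint j).integrableOn
        (Filter.Eventually.of_forall fun x => sq_nonneg _)
        (Filter.Eventually.of_forall fun x hx => disjoint_left.1 hd hx)
    have h2 := integral_add_compl hUo.measurableSet (hint j)
    rw [hone j] at h2
    have h3 := hn.1
    have h4 : (0 : ℝ) ≤ ∫ x in K, (u j x) ^ 2 ∂ν := integral_nonneg fun x => sq_nonneg _
    rw [Real.dist_eq, sub_zero, abs_of_nonneg h4]
    have h5 : 1 / ((n : ℝ) + 1) < ε := by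
      have h6 : (N2 : ℝ) ≤ n := Nat.cast_le.2 ((le_max_right _ _).trans hnN)
      rw [div_lt_iff₀ (by positivity)]
      rw [div_lt_iff₀ hε] at hN2
      nlinarith
    linarith

end

/-- Complete scars on a closed geodesic of a surface with ergodic geodesic flow. -/
def Concl5 : Prop :=
  ∃ (M P : Type) (_ : MetricSpace M) (_ : CompactSpace M) (_ : ConnectedSpace M)
    (_ : MeasurableSpace M) (_ : BorelSpace M) (_ : MetricSpace P) (_ : CompactSpace P)
    (_ : MeasurableSpace P) (_ : BorelSpace P) (Ω : Set ℂ) (φ : ℂ → ℝ) (pr : ℂ → M) (q : Y → P)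
    (μ : Measure M) (m : Measure P) (Fl : ℝ → Y → Y) (G : ℝ → ℝ) (x0 δ : ℝ),
    0 < δ ∧ (∀ z : ℂ, |z.re - x0| < δ → z ∈ Ω ∧ φ z = G z.re) ∧
    (∀ z w : ℂ, |z.re - x0| < δ → |w.re - x0| < δ →
      (pr z = pr w ↔ ∃ n : ℤ, w = z + n * (2 * π * Complex.I))) ∧
    G x0 = 0 ∧ HasDerivAt G 0 x0 ∧
    IsUT Ω φ pr q ∧ IsArea Ω φ pr μ ∧ IsFiniteMeasure μ ∧ IsLiou Ω φ q m ∧ IsGeo Ω φ Fl ∧
    (∀ z : ℂ, z.re = x0 → ∀ t : ℝ, Fl t (z, π / 2) = (z + t * Complex.I, π / 2)) ∧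
    (∀ z ∈ Ω, curv φ z ≤ 0) ∧ (∀ z ∈ Ω, curv φ z = 0 ↔ pr z ∈ Gm pr x0) ∧
    Erg Ω q m Fl ∧ IsClosed (Gm pr x0) ∧ μ (Gm pr x0) = 0 ∧
    (∃ u lam, EB Ω φ pr μ u lam) ∧
    ∀ u lam, EB Ω φ pr μ u lam → Tendsto lam atTop atTop ∧
      (∀ j, Integrable (fun x => (u j x) ^ 2) μ) ∧ Loc μ (Gm pr x0) u lam

theorem fin5 : Concl5 := by
  obtain ⟨g, c1, C0, hP⟩ := tProf
  obtain ⟨X, hX⟩ := cut_ex
  have h0 := L0p
  have hA : Act Gq Om ac := tAct
  obtain ⟨hI, hconj⟩ := tPhi2 g c1 C0 hP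
  obtain ⟨M, iM, cM, pr, hpr⟩ := Pool.Agent.Y338.EX.qM Pool.Agent.Y749.EX.top Gq Om ac hA
  obtain ⟨P, iP, cP, q, hq⟩ := Pool.Agent.Y848.EX.qP Pool.Agent.Y749.EX.top Gq Om ac hA
    (fun γ z hz => (hI.2 γ z hz).1)
  let _ : MeasurableSpace M := borel M
  have _ : BorelSpace M := ⟨rfl⟩
  let _ : MeasurableSpace P := borel P
  have _ : BorelSpace P := ⟨rfl⟩
  obtain ⟨μ0, D, Φ, σ, hB⟩ := base0_ex hP hX hpr hq
  have hneM : Nonempty M := ⟨Φ 0⟩
  have hconn : ConnectedSpace M := { toPreconnectedSpace := ⟨hpr.conn⟩, toNonempty := hneM }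
  obtain ⟨G, c, C, r, hG2, hG0, hAd, hr0, hrL, hst⟩ := lim_ex hP hX hpr hq hB
  have hGW : ProfW G (c1 + c) := hG2.profW
  have hUT : IsUT Om (phi G (c1 + c)) pr q := ut_prof hpr hq hGW
  obtain ⟨C', hC⟩ := clsE2 hG2 hpr hUT
  obtain ⟨ν, hν, hνf, hbas, hall⟩ := prof_data hP hX hpr hq hB hGW hAd
  have hIn : Inva Om (phi G (c1 + c)) ac := (phi2W hGW).1
  obtain ⟨Fl, hFl⟩ := tGeo Gq Om ac _ hA hIn
  obtain ⟨m, hm⟩ := tLiouEx M P Om _ pr q hUT
  have hS : ∀ z : ℂ, |z.re - L0 / 2| < L0 → z ∈ Stp L0 (3 / 2 * L0) := by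
    intro z hz
    have h1 := abs_lt.1 hz
    exact ⟨by linarith [h1.1], by linarith [h1.2]⟩
  have hline : ∀ z : ℂ, z.re = L0 / 2 → z ∈ Stp L0 (3 / 2 * L0) := by
    intro z hz
    exact hS z (by rw [hz, sub_self, abs_zero]; exact h0)
  have hper : ∀ z ∈ Stp L0 (3 / 2 * L0), ∀ w ∈ Stp L0 (3 / 2 * L0),
      (pr z = pr w ↔ ∃ n : ℤ, w = z + n * (2 * π * Complex.I)) := by
    intro z hz w hw
    refine ⟨hC.inj z hz w hw, ?_⟩
    rintro ⟨n, hn⟩
    have hper : ∀ k : ℤ, pr (z + k * (2 * π * Complex.I)) = pr z := by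
      have hre : ∀ k : ℤ, (z + k * (2 * π * Complex.I)) ∈ Stp L0 (3 / 2 * L0) := by
        intro k
        have : (z + k * (2 * π * Complex.I)).re = z.re := by simp
        constructor
        · rw [this]; exact hz.1
        · rw [this]; exact hz.2
      intro k
      induction k using Int.induction_on with
      | zero => simp
      | succ k ih =>
        have h1 := hC.per _ (hre k)
        rw [ih] at h1
        rw [← h1]
        congr 1
        push_cast
        ring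
      | pred k ih =>
        have h1 := hC.per _ (hre (-k - 1))
        rw [← h1, ← ih]
        congr 1
        push_cast
        ring
    rw [hn, hper n]
  have hrot : ∀ z ∈ Stp L0 (3 / 2 * L0), phi G (c1 + c) z = G z.re := fun z hz => hC.rot z hz
  have hpx : ∀ z : ℂ, z.re = L0 / 2 → phi G (c1 + c) z = 0 ∧ px (phi G (c1 + c)) z = 0 := by
    intro z hz
    refine ⟨by rw [hrot z (hline z hz), hz, hG2.g0], ?_⟩
    have h1 : phi G (c1 + c) =ᶠ[𝓝 z] fun w => G w.re := by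
      filter_upwards [(stp_open _ _).mem_nhds (hline z hz)] with w hw using hrot w hw
    have h2 : HasFDerivAt (fun w : ℂ => G w.re)
        ((ContinuousLinearMap.toSpanSingleton ℝ (0 : ℝ)).comp Complex.reCLM) z := by
      have h3 : HasDerivAt G 0 (Complex.reCLM z) := by
        show HasDerivAt G 0 z.re
        rw [hz]
        exact hG2.g1
      exact h3.hasFDerivAt.comp z Complex.reCLM.hasFDerivAt
    unfold px
    rw [h1.fderiv_eq, h2.fderiv]
    simp
  refine ⟨M, P, iM, cM, hconn, inferInstance, inferInstance, iP, cP, inferInstance, inferInstance,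
    Om, phi G (c1 + c), pr, q, ν, m, Fl, G, L0 / 2, L0, h0, ?_, ?_, hG2.g0, hG2.g1, hUT, hν, hνf,
    hm, hFl, ?_, hC.neg, ?_, ?_, (gm_far hX hpr).1, ?_, hbas, fun u lam hu => ?_⟩
  · intro z hz
    exact ⟨strip_om (hS z hz), hrot z (hS z hz)⟩
  · intro z w hz hw
    exact hper z (hS z hz) w (hS w hw)
  · exact geo_line om_open hIn.1 hFl (fun z hz => strip_om (hline z hz)) hpx
  · intro z hz
    constructor
    · intro hz0
      obtain ⟨w, hw1, hw2⟩ := hC.zero z hz hz0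
      exact ⟨w, hw1, hw2⟩
    · rintro ⟨w, hw1, hw2⟩
      have hw1' : w.re = L0 / 2 := hw1
      obtain ⟨γ, hγ⟩ := (hpr.rel z hz w (strip_om (hline w hw1'))).1 hw2.symm
      rw [← curv_ac hIn γ hz, hγ, (phi3W hGW).1 w (hline w hw1'), hw1', hG0]
      simp
  · exact erg2 M P Om _ pr q m Fl _ _ _ _ _ _ _ hUT hm hFl hC
  · exact gm_null hν (fun z hz => strip_om (hline z hz)) fun z w hz hw =>
      hper z (hline z hz) w (hline w hw)
  · obtain ⟨h1, h2, h3⟩ := hall u lam hu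
    exact ⟨h1, h2, loc_ex hX hpr h1 h2 h3 hr0 hrL fun n => hst n ν hν u lam hu⟩

end Pool.Agent.H240.CG
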