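import Pool.Agent.H240.CG.Neg

/-!
# Collapse of the value distribution
-/

set_option autoImplicit false
set_option linter.unusedSectionVars false

open Set Filter Topology MeasureTheory
open scoped ContDiff ComplexConjugate Real

noncomputable section

namespace Pool.Agent.H240.CG

open Pool.Agent.Y262.EG Pool.Agent.Y262.EX Pool.Agent.Y262.EL Pool.Agent.Y262.QE
open Pool.Agent.Y264.QR Pool.Agent.H240.SC Pool.Agent.H240.SG

section

variable {M : Type} [MetricSpace M] [CompactSpace M] [MeasurableSpace M] [BorelSpace M]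

/-- Markov's inequality for the square -/
theorem markov {ν : Measure M} [IsFiniteMeasure ν] {u : M → ℝ}
    (hu : Integrable (fun x => (u x) ^ 2) ν) {U : Set M} (hU : IsOpen U) {ε : ℝ} (hε : 0 < ε) :
    ν.real {x | ε ≤ |u x|} ≤ ν.real U + (ε ^ 2)⁻¹ * ∫ x in Uᶜ, (u x) ^ 2 ∂ν := by
  have h1 := mul_meas_ge_le_integral_of_nonneg (μ := ν.restrict Uᶜ)
    (f := fun x => (u x) ^ 2) (Filter.Eventually.of_forall fun x => sq_nonneg _)
    hu.integrableOn (ε ^ 2)
  have h2 : {x | ε ≤ |u x|} = {x | ε ^ 2 ≤ (u x) ^ 2} := by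
    ext x
    simp only [mem_setOf_eq]
    rw [← sq_abs (u x)]
    exact (pow_le_pow_iff_left₀ hε.le (abs_nonneg _) two_ne_zero).symm
  have h3 : (ν.restrict Uᶜ).real {x | ε ^ 2 ≤ (u x) ^ 2} ≤
      (ε ^ 2)⁻¹ * ∫ x in Uᶜ, (u x) ^ 2 ∂ν := by
    rw [inv_mul_eq_div, le_div_iff₀ (by positivity), mul_comm]
    exact h1
  have h4 : ν.real {x | ε ^ 2 ≤ (u x) ^ 2} ≤ ν.real U + (ν.restrict Uᶜ).real
      {x | ε ^ 2 ≤ (u x) ^ 2} := by
    have h5 : (ν.restrict Uᶜ).real {x | ε ^ 2 ≤ (u x) ^ 2} =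
        ν.real ({x | ε ^ 2 ≤ (u x) ^ 2} ∩ Uᶜ) :=
      measureReal_restrict_apply' hU.measurableSet.compl
    rw [h5]
    have h6 : {x | ε ^ 2 ≤ (u x) ^ 2} ⊆ U ∪ ({x | ε ^ 2 ≤ (u x) ^ 2} ∩ Uᶜ) := by
      intro x hx
      by_cases hxU : x ∈ U
      · exact Or.inl hxU
      · exact Or.inr ⟨hx, hxU⟩
    exact (measureReal_mono h6).trans (measureReal_union_le _ _)
  rw [h2]
  linarith

/-- localization on a closed null set implies the collapse of the value distribution -/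
theorem collapse {ν : Measure M} [IsFiniteMeasure ν] {Z : Set M} (h0 : ν Z = 0)
    {u : ℕ → M → ℝ} (hint : ∀ j, Integrable (fun x => (u j x) ^ 2) ν) {l : Filter ℕ}
    (hloc : ∀ K : Set M, IsCompact K → Disjoint K Z →
      Tendsto (fun j => ∫ x in K, (u j x) ^ 2 ∂ν) l (𝓝 0)) {ε : ℝ} (hε : 0 < ε) :
    Tendsto (fun j => ν.real {x | ε ≤ |u j x|}) l (𝓝 0) := by
  rw [Metric.tendsto_nhds]
  intro δ hδ
  obtain ⟨U, hZU, hUo, hUm⟩ := Z.exists_isOpen_lt_of_lt (μ := ν) (ENNReal.ofReal (δ / 2)) (by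
    rw [h0]
    exact ENNReal.ofReal_pos.2 (by linarith))
  have hUr : ν.real U < δ / 2 := by
    rw [Measure.real]
    exact (ENNReal.lt_ofReal_iff_toReal_lt (measure_ne_top ν U)).1 hUm
  have h1 := hloc Uᶜ hUo.isClosed_compl.isCompact (disjoint_left.2 fun x hx hxZ => hx (hZU hxZ))
  have h2 : ∀ᶠ j in l, ∫ x in Uᶜ, (u j x) ^ 2 ∂ν < ε ^ 2 * (δ / 2) :=
    h1.eventually (gt_mem_nhds (by positivity))
  filter_upwards [h2] with j hj
  rw [Real.dist_eq, sub_zero, abs_of_nonneg measureReal_nonneg]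
  have h3 := markov (hint j) hUo hε
  have h4 : (ε ^ 2)⁻¹ * ∫ x in Uᶜ, (u j x) ^ 2 ∂ν < δ / 2 := by
    rw [inv_mul_eq_div, div_lt_iff₀ (by positivity)]
    linarith
  linarith

/-- convergence of the laws to the point mass -/
theorem law_collapse {ν : Measure M} [IsFiniteMeasure ν] {u : ℕ → M → ℝ}
    (hm : ∀ j, AEStronglyMeasurable (u j) ν) {l : Filter ℕ}
    (hc : ∀ ε : ℝ, 0 < ε → Tendsto (fun j => ν.real {x | ε ≤ |u j x|}) l (𝓝 0))
    {g : ℝ → ℝ} (hg : Continuous g) {B : ℝ} (hB : ∀ t, |g t| ≤ B) :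
    Tendsto (fun j => ∫ x, g (u j x) ∂ν) l (𝓝 (ν.real univ * g 0)) := by
  have hB0 : 0 ≤ B := (abs_nonneg _).trans (hB 0)
  have hI : ∀ j, Integrable (fun x => g (u j x)) ν := fun j =>
    Integrable.of_bound (hg.comp_aestronglyMeasurable (hm j)) B
      (Filter.Eventually.of_forall fun x => hB _)
  rw [Metric.tendsto_nhds]
  intro δ hδ
  set V : ℝ := ν.real univ with hV
  have hV0 : 0 ≤ V := measureReal_nonneg
  obtain ⟨ε, hε, hgε⟩ := Metric.continuous_iff.1 hg 0 (δ / (2 * (V + 1))) (by positivity)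
  have h1 : ∀ᶠ j in l, ν.real {x | ε ≤ |u j x|} < δ / (4 * (B + 1)) :=
    (hc ε hε).eventually (gt_mem_nhds (by positivity))
  filter_upwards [h1] with j hj
  have h2 : ∫ x, g (u j x) ∂ν - V * g 0 = ∫ x, (g (u j x) - g 0) ∂ν := by
    rw [integral_sub (hI j) (integrable_const _), integral_const, smul_eq_mul]
  have hN : NullMeasurableSet {x | ε ≤ |u j x|} ν :=
    nullMeasurableSet_le aemeasurable_const (hm j).aemeasurable.abs
  have hD : Integrable (fun x => g (u j x) - g 0) ν := (hI j).sub (integrable_const _)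
  rw [Real.dist_eq, h2, ← integral_add_compl₀ hN hD]
  have h3 : |∫ x in {x | ε ≤ |u j x|}, (g (u j x) - g 0) ∂ν| ≤
      2 * B * ν.real {x | ε ≤ |u j x|} := by
    rw [← Real.norm_eq_abs]
    refine norm_setIntegral_le_of_norm_le_const (measure_lt_top _ _) fun x _ => ?_
    rw [Real.norm_eq_abs]
    calc |g (u j x) - g 0| ≤ |g (u j x)| + |g 0| := abs_sub _ _
      _ ≤ 2 * B := by linarith [hB (u j x), hB 0]
  have h4 : |∫ x in {x | ε ≤ |u j x|}ᶜ, (g (u j x) - g 0) ∂ν| ≤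
      δ / (2 * (V + 1)) * ν.real {x | ε ≤ |u j x|}ᶜ := by
    rw [← Real.norm_eq_abs]
    refine norm_setIntegral_le_of_norm_le_const (measure_lt_top _ _) fun x hx => ?_
    have h5 : |u j x| < ε := not_le.1 hx
    have h6 := hgε (u j x) (by rw [Real.dist_eq, sub_zero]; exact h5)
    rw [Real.dist_eq] at h6
    rw [Real.norm_eq_abs]
    exact h6.le
  have h5 : ν.real {x | ε ≤ |u j x|}ᶜ ≤ V := measureReal_mono (subset_univ _)
  have h6 : 2 * B * ν.real {x | ε ≤ |u j x|} < δ / 2 := by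
    rw [lt_div_iff₀ (by positivity)] at hj
    nlinarith [measureReal_nonneg (μ := ν) (s := {x | ε ≤ |u j x|})]
  have h7 : δ / (2 * (V + 1)) * ν.real {x | ε ≤ |u j x|}ᶜ ≤ δ / 2 := by
    rw [div_mul_eq_mul_div, div_le_div_iff₀ (by positivity) (by positivity)]
    nlinarith [measureReal_nonneg (μ := ν) (s := {x | ε ≤ |u j x|}ᶜ)]
  calc |_ + _| ≤ _ + _ := abs_add_le _ _
    _ < δ := by linarith

end

end Pool.Agent.H240.CG
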