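import Pool.Graph.R_seed8.Y61.EX.Prof

/-!
# A convex function which vanishes exactly on an interval
-/

set_option autoImplicit false
set_option linter.unusedSectionVars false

open Set Filter Topology MeasureTheory
open scoped ContDiff Real

noncomputable section

namespace Pool.Agent.H240.CG

open Pool.Agent.Y61.EX

/-- primitives of smooth functions -/
theorem prim {f : ℝ → ℝ} (hf : ContDiff ℝ ∞ f) (x0 : ℝ) :
    (∀ x, HasDerivAt (fun x => ∫ t in x0..x, f t) (f x) x) ∧
      ContDiff ℝ ∞ fun x => ∫ t in x0..x, f t := by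
  have h1 : ∀ x, HasDerivAt (fun x => ∫ t in x0..x, f t) (f x) x := fun x =>
    intervalIntegral.integral_hasDerivAt_right (hf.continuous.intervalIntegrable _ _)
      (hf.continuous.stronglyMeasurableAtFilter _ _) hf.continuous.continuousAt
  refine ⟨h1, ?_⟩
  rw [contDiff_infty_iff_deriv]
  refine ⟨fun x => (h1 x).differentiableAt, ?_⟩
  have h2 : (deriv fun x => ∫ t in x0..x, f t) = f := funext fun x => (h1 x).deriv
  rw [h2]
  exact hf

theorem bfun_ex (x0 r R : ℝ) (hr : 0 < r) : ∃ (B : ℝ → ℝ) (D : ℝ), ContDiff ℝ ∞ B ∧ 0 ≤ D ∧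
    (∀ x, |x - x0| ≤ r → B x = 0) ∧ (∀ x, 0 ≤ deriv (deriv B) x) ∧
    (∀ x, deriv (deriv B) x = 0 → |x - x0| ≤ r) ∧
    ∀ x, |x - x0| ≤ R → |deriv (deriv (deriv B)) x| ≤ D * (deriv (deriv B) x) ^ (39 / 40 : ℝ) := by
  set s : ℝ → ℝ := fun x => ss (2 * r) (x - x0) with hs
  have hss : ContDiff ℝ ∞ s := ss_contDiff.comp (contDiff_id.sub contDiff_const)
  have hs0 : ∀ x, 0 ≤ s x := fun x => ss_nonneg _
  have hsz : ∀ x, s x = 0 ↔ |x - x0| ≤ r := by
    intro x
    have h1 := ss_zero_iff (a := 2 * r) (by positivity) (x - x0)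
    rw [mul_div_cancel_left₀ r (two_ne_zero)] at h1
    exact h1
  have hf : ContDiff ℝ ∞ fun x => s x ^ 80 := hss.pow 80
  obtain ⟨d1, c1⟩ := prim hf x0
  set B1 : ℝ → ℝ := fun x => ∫ t in x0..x, s t ^ 80 with hB1
  obtain ⟨d2, c2⟩ := prim c1 x0
  set B : ℝ → ℝ := fun x => ∫ t in x0..x, B1 t with hB
  have e1 : deriv B = B1 := funext fun x => (d2 x).deriv
  have e2 : deriv (deriv B) = fun x => s x ^ 80 := by
    rw [e1]
    exact funext fun x => (d1 x).deriv
  have hsd : ContDiff ℝ ∞ (deriv s) := (contDiff_infty_iff_deriv.1 hss).2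
  have e3 : deriv (deriv (deriv B)) = fun x => 80 * s x ^ 79 * deriv s x := by
    rw [e2]
    funext x
    have h1 : HasDerivAt s (deriv s x) x := ((hss.differentiable (by simp)) x).hasDerivAt
    have h2 := (h1.pow 80).deriv
    have h3 : (fun x => s x ^ 80) = s ^ 80 := rfl
    rw [h3, h2]
    push_cast
    ring
  have hin : ∀ x, |x - x0| ≤ r → ∀ t ∈ uIcc x0 x, |t - x0| ≤ r := by
    intro x hx t ht
    rw [mem_uIcc] at ht
    rw [abs_le] at hx ⊢
    rcases ht with ht | ht
    · constructor <;> linarith [ht.1, ht.2, hx.1, hx.2]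
    · constructor <;> linarith [ht.1, ht.2, hx.1, hx.2]
  have hB10 : ∀ x, |x - x0| ≤ r → B1 x = 0 := by
    intro x hx
    have h1 : ∀ t ∈ uIcc x0 x, s t ^ 80 = (fun _ => (0 : ℝ)) t := by
      intro t ht
      rw [(hsz t).2 (hin x hx t ht)]
      simp
    rw [hB1]
    beta_reduce
    rw [intervalIntegral.integral_congr h1]
    simp
  have hcs : Continuous fun x => 80 * (s x * deriv s x) :=
    continuous_const.mul (hss.continuous.mul hsd.continuous)
  obtain ⟨K, hK⟩ := (isCompact_Icc (a := x0 - R) (b := x0 + R)).exists_bound_of_continuousOn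
    hcs.continuousOn
  refine ⟨B, max K 0, c2, le_max_right _ _, ?_, ?_, ?_, ?_⟩
  · intro x hx
    have h1 : ∀ t ∈ uIcc x0 x, B1 t = (fun _ => (0 : ℝ)) t := fun t ht => hB10 t (hin x hx t ht)
    rw [hB]
    beta_reduce
    rw [intervalIntegral.integral_congr h1]
    simp
  · intro x
    rw [e2]
    exact pow_nonneg (hs0 x) _
  · intro x hx
    rw [e2] at hx
    exact (hsz x).1 (pow_eq_zero_iff (by norm_num) |>.1 hx)
  · intro x hx
    rw [e3, e2]
    beta_reduce
    have h1 : (s x ^ 80) ^ (39 / 40 : ℝ) = s x ^ 78 := by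
      rw [← Real.rpow_natCast, ← Real.rpow_natCast, ← Real.rpow_mul (hs0 x)]
      norm_num
    rw [h1]
    have h2 := hK x (by
      rw [abs_le] at hx
      exact ⟨by linarith [hx.1], by linarith [hx.2]⟩)
    rw [Real.norm_eq_abs] at h2
    have h3 : 80 * s x ^ 79 * deriv s x = (80 * (s x * deriv s x)) * s x ^ 78 := by ring
    rw [h3, abs_mul, abs_of_nonneg (pow_nonneg (hs0 x) 78)]
    exact mul_le_mul_of_nonneg_right (h2.trans (le_max_left _ _)) (pow_nonneg (hs0 x) _)

end Pool.Agent.H240.CG
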