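import Pool.Agent.H240.CG.Pk
import Pool.Agent.H240.SG.Fin

/-!
# The surface and the functions for a general profile
-/

set_option autoImplicit false
set_option linter.unusedSectionVars false

open Set Filter Topology MeasureTheory
open scoped ContDiff ComplexConjugate Real

noncomputable section

namespace Pool.Agent.H240.CG

open Pool.Agent.Y262.EG Pool.Agent.Y262.EX Pool.Agent.Y262.EL Pool.Agent.Y262.QE
open Pool.Agent.Y264.QR Pool.Agent.H240.SC Pool.Agent.H240.SG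

/-- smooth functions of the coordinate of the collar which are constant far from the centre -/
structure AdW (η : ℝ → ℝ) (c : ℝ) : Prop where
  sm : ContDiffOn ℝ ∞ η I0
  far : ∀ x, 9 / 10 * L0 ≤ |x - L0 / 2| → η x = c

section

variable {g X G : ℝ → ℝ} {c1 C0 c r m C : ℝ}

theorem ProfW.add {η : ℝ → ℝ} (hg : ProfW g c1) (hη : AdW η c) (s : ℝ) :
    ProfW (fun x => g x + s * η x) (c1 + s * c) := by
  have h0 := L0p
  refine ⟨hg.smooth.add (contDiffOn_const.mul hη.sm), fun x hx hx2 => ?_⟩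
  rw [hg.hyp x hx hx2, hη.far x (by linarith)]
  ring

theorem profW_lib : ∃ (g : ℝ → ℝ) (c1 : ℝ), ProfW g c1 := by
  obtain ⟨g, c1, C, hP⟩ := tProf
  exact ⟨g, c1, hP.smooth, hP.hyp⟩

theorem hfW {η : ℝ → ℝ} {c : ℝ} (hη : AdW η c) : HfP η c := by
  obtain ⟨g, c1, hg⟩ := profW_lib
  have hg' := hg.add hη 1
  have hlin := fun z => phi_lin g η c1 c 1 z
  obtain ⟨a1, a2⟩ := phi2W hg
  obtain ⟨b1, b2⟩ := phi2W hg'
  obtain ⟨p1, p2, p3, -⟩ := phi1W hg
  obtain ⟨q1, q2, q3, -⟩ := phi1W hg'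
  have hH : ∀ z, Hf η c z = phi (fun x => g x + 1 * η x) (c1 + 1 * c) z - phi g c1 z := by
    intro z
    rw [hlin]
    ring
  refine ⟨?_, ?_, ?_, ?_, ?_⟩
  · exact (b1.1.sub a1.1).congr fun z _ => hH z
  · intro γ z hz
    rw [hH, hH]
    have h1 := (a1.2 γ z hz).2
    have h2 := (b1.2 γ z hz).2
    linarith
  · intro z hz
    rw [hH, hH, a2 z hz, b2 z hz]
  · intro z hz
    rw [hH, p2 z hz, q2 z hz]
    ring
  · intro z hz hout
    rw [hH, p3 z hz hout, q3 z hz hout]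
    ring

theorem adW_et (hG : ContDiffOn ℝ ∞ G I0) (hX : Cut X) (c : ℝ) : AdW (et G X c) c :=
  ⟨(et_cd hG hX c).contDiffOn, fun _ hx => et_far hX hx⟩

theorem PK.adW (hP : Prof g c1 C0) (h : PK g G c r m C) : AdW (fun x => G x - g x) c :=
  ⟨h.sm.sub hP.smooth, fun x hx => by rw [h.far x hx]; ring⟩

/-- bound of the function on the domain -/
theorem Hf_bd {η : ℝ → ℝ} {c K : ℝ} (h1 : ∀ x, |η x| ≤ K) (h2 : |c| ≤ K) (z : ℂ) :
    |Hf η c z| ≤ K := by
  unfold Hf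
  split_ifs with h
  · exact h1 _
  · exact h2

theorem phi_eq (g X G : ℝ → ℝ) (c1 c : ℝ) (z : ℂ) :
    phi G (c1 + c) z = ph0 g X c1 z + (Hf (et g X 0) 0 z + Hf (fun x => G x - g x) c z) := by
  have h1 := phi_lin g (fun x => G x - g x) c1 c 1 z
  have h2 : (fun x => g x + 1 * (G x - g x)) = G := by
    funext x
    ring
  rw [h2, one_mul] at h1
  rw [h1]
  unfold ph0
  ring

end

/-- the data of the surface -/
structure Bs0 {M : Type} [MetricSpace M] [MeasurableSpace M] (g X : ℝ → ℝ) (c1 : ℝ) (pr : ℂ → M)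
    (μ : Measure M) (D : Data M) (Φ : ℂ → M) (σ : M → M) : Prop where
  surf : D.IsSurf μ
  area : IsArea Om (ph0 g X c1) pr μ
  cyl : D.IsCyl μ (3 / 2 * L0) Φ σ
  cmp : Compat D Om (ph0 g X c1) pr
  Φpr : ∀ z ∈ Strip (3 / 2 * L0), Φ z = pr (z - ((1 / 4 * L0 : ℝ) : ℂ))

section

variable {g X G : ℝ → ℝ} {c1 C0 c r m C : ℝ} {M P : Type} [MetricSpace M] [CompactSpace M]
  [MetricSpace P] [CompactSpace P] [MeasurableSpace M] [BorelSpace M] {pr : ℂ → M} {q : Y → P}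
  {μ : Measure M} {D : Data M} {Φ : ℂ → M} {σ : M → M}

theorem base0_ex (hP : Prof g c1 C0) (hX : Cut X) (hpr : PrM Om ac pr) (hq : PrP Om ac q) :
    ∃ (μ : Measure M) (D : Data M) (Φ : ℂ → M) (σ : M → M), Bs0 g X c1 pr μ D Φ σ := by
  have h0 := L0p
  have hA : Act Gq Om ac := tAct
  have hUT : IsUT Om (ph0 g X c1) pr q :=
    Pool.Agent.Y145.EX.qU Gq Om ac (ph0 g X c1) M P pr q hA (ph0_inva hP hX) hpr hq
  have hUT1 : IsUT Om (phi g c1) pr q :=
    Pool.Agent.Y145.EX.qU Gq Om ac (phi g c1) M P pr q hA (tPhi2 g c1 C0 hP).1 hpr hq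
  obtain ⟨C', hC⟩ := tClsE g c1 C0 hP M P pr q hpr hUT1
  obtain ⟨σ, hσ⟩ := Pool.Agent.Y658.EX.sigEx Gq M Om ac (ph0 g X c1) pr hpr tConj.1
    (ph0_conj hP hX) (fun γ => tConj.2 γ)
  obtain ⟨μ, hμ⟩ :=
    Pool.Agent.Y80.EX.areaEx Pool.Agent.Y749.EX.etale M P Om (ph0 g X c1) pr q hUT
  set c : ℝ := 1 / 4 * L0 with hc
  have hU' := ut_sh hUT c
  have hμ' := area_sh hμ c
  have hσ' := rfl_sh hσ c
  have hst : ∀ z ∈ Strip (3 / 2 * L0), z - c ∈ Stp L0 (1 / 4 * L0) := by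
    intro z hz
    have h1 := hz.1
    have h2 := hz.2
    constructor
    · rw [Complex.sub_re, Complex.ofReal_re]
      linarith
    · rw [Complex.sub_re, Complex.ofReal_re]
      linarith
  have hst' : ∀ z ∈ Strip (3 / 2 * L0), z - c ∈ Stp L0 (3 / 2 * L0) := fun z hz =>
    stp_sub (hst z hz)
  have hstO : ∀ z ∈ Strip (3 / 2 * L0), z - c ∈ Om := fun z hz => hC.strip (hst' z hz)
  have hCy : Cy0 (sO c Om) (sF c (ph0 g X c1)) (sF c pr) (3 / 2 * L0) := by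
    refine ⟨by positivity, fun z hz => hstO z hz, fun z hz => ph0_zero hP hX _ (hst z hz),
      fun z hz => ?_, fun z hz w hw he => ?_⟩
    · show pr (z + 2 * π * Complex.I - c) = pr (z - c)
      rw [← hC.per (z - c) (hst' z hz)]
      congr 1
      ring
    · obtain ⟨n, hn⟩ := hC.inj (z - c) (hst' z hz) (w - c) (hst' w hw) he
      refine ⟨n, ?_⟩
      have : w = (w - c) + c := by ring
      rw [this, hn]
      ring
  obtain ⟨N, T, hAt⟩ := atl0 hU' hCy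
  obtain ⟨hS, hCmp, hT⟩ := Pool.Agent.Y838.EX.surf M P (sO c Om) _ _ (sQ c q) μ (3 / 2 * L0) N T
    hU' hμ' hAt
  obtain ⟨Φ, hΦ1, hΦ2⟩ := cyl0 hU' hCy hμ' hσ' hAt hT
  refine ⟨μ, _, Φ, σ, ⟨hS, hμ, hΦ1, ?_, ?_⟩⟩
  · intro i
    obtain ⟨b, hb, hb'⟩ := hCmp i
    refine ⟨fun z => b z - c, hb.sub_const _, fun z hz => ?_⟩
    obtain ⟨b1, b2, b3, b4⟩ := hb' z hz
    have hd : deriv (fun z => b z - (c : ℂ)) z = deriv b z := deriv_sub_const (c : ℂ)
    refine ⟨b1, b2, ?_, ?_⟩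
    · rw [hd]
      exact b3
    · rw [hd]
      exact b4
  · intro z hz
    rw [hΦ2 z hz]
    rfl

theorem data_gen (hP : Prof g c1 C0) (hX : Cut X) (hpr : PrM Om ac pr) (hq : PrP Om ac q)
    (hB : Bs0 g X c1 pr μ D Φ σ) (f : C(M, ℝ)) (hfs : ContDiffOn ℝ ∞ (fun z => f (pr z)) Om)
    (φ' : ℂ → ℝ) (he : ∀ z ∈ Om, φ' z = ph0 g X c1 z + 1 / 2 * f (pr z)) :
    (D.conf fun x => Real.exp (f x)).IsSurf (wm μ fun x => Real.exp (f x)) ∧
      Compat (D.conf fun x => Real.exp (f x)) Om φ' pr ∧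
      IsArea Om φ' pr (wm μ fun x => Real.exp (f x)) := by
  have hA : Act Gq Om ac := tAct
  have hUT : IsUT Om (ph0 g X c1) pr q :=
    Pool.Agent.Y145.EX.qU Gq Om ac (ph0 g X c1) M P pr q hA (ph0_inva hP hX) hpr hq
  have hw : (fun x => Real.exp (1 * f x)) = fun x => Real.exp (f x) := by
    funext x
    rw [one_mul]
  refine ⟨?_, ?_, ?_⟩
  · exact (tConf M μ D hB.surf (fun x => Real.exp (f x))
      (Real.continuous_exp.comp f.continuous) (fun x => Real.exp_pos _)).1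
  · have h1 := (tUTs M P Om (ph0 g X c1) pr q hUT f hfs 1).2 D hB.cmp
    rw [hw] at h1
    exact cmp_congr h1 he
  · have h1 := (tCVM M P Om (ph0 g X c1) pr q μ hUT hB.area).2.2.2 f f.continuous hfs 1
    rw [hw] at h1
    exact area_congr h1 he

/-- the closed cylinder of radius `r` -/
def Tc (pr : ℂ → M) (r : ℝ) : Set M := pr '' {z | |z.re - L0 / 2| ≤ r}

/-- the open tube of radius `r` -/
def Uc (pr : ℂ → M) (r : ℝ) : Set M := pr '' {z | |z.re - L0 / 2| < r}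

theorem stp_near {z : ℂ} (hz : |z.re - L0 / 2| ≤ 4 / 5 * L0) : z ∈ Stp L0 (3 / 2 * L0) := by
  have h0 := L0p
  have h1 := abs_le.1 hz
  exact ⟨by linarith [h1.1], by linarith [h1.2]⟩

theorem strip_om : Stp L0 (3 / 2 * L0) ⊆ Om := Pool.Agent.Y868.EX.stp_sub L0p _ le_rfl

/-- a function on the surface which is positive outside of a closed cylinder -/
theorem h_zero_gen (hX : Cut X) (hpr : PrM Om ac pr) {F : ℝ → ℝ} {r : ℝ}
    (hr : r ≤ 4 / 5 * L0) (hF : ContDiffOn ℝ ∞ F I0) (hF0 : ∀ x, |x - L0 / 2| ≤ r → F x = 0)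
    (hFp : ∀ x ∈ I0, r < |x - L0 / 2| → 0 < F x) {h : M → ℝ}
    (hh : ∀ z ∈ Om, h (pr z) = Hf (et F X 1) 1 z) (x : M) :
    0 ≤ h x ∧ (h x = 0 ↔ x ∈ Tc pr r) := by
  have h0 := L0p
  have hfP := hfW (adW_et hF hX 1)
  obtain ⟨z, hz, rfl⟩ : x ∈ pr '' Om := by rw [hpr.surj]; trivial
  have hpos : ∀ x ∈ I0, r < |x - L0 / 2| → 0 < et F X 1 x := by
    intro x hx hxr
    have h1 := hFp x hx hxr
    have h2 := hX.n0 x
    have h3 := hX.n1 x
    unfold et
    rcases eq_or_lt_of_le h2 with h4 | h4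
    · rw [← h4]
      norm_num
    · have : 0 < F x * X x := mul_pos h1 h4
      linarith
  have hin : ∀ x, |x - L0 / 2| ≤ r → et F X 1 x = 0 := by
    intro x hx
    rw [et_near hX (hx.trans hr), hF0 x hx]
  by_cases h : ∃ γ : Gq, ac γ z ∈ Stp L0 (3 / 2 * L0)
  · obtain ⟨γ, hγ⟩ := h
    have hγO : ac γ z ∈ Om := tAct.maps γ z hz
    have hprγ : pr (ac γ z) = pr z := ((hpr.rel z hz _ hγO).2 ⟨γ, rfl⟩).symm
    have hxI : (ac γ z).re ∈ I0 := mem_I0 (by
      have h1 := hγ.1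
      have h2 := hγ.2
      rw [abs_lt]
      constructor <;> linarith)
    rw [← hprγ, hh _ hγO, hfP.strip _ hγ]
    rcases le_or_gt (|(ac γ z).re - L0 / 2|) r with h1 | h1
    · rw [hin _ h1]
      exact ⟨le_rfl, fun _ => ⟨_, h1, rfl⟩, fun _ => rfl⟩
    · have h2 := hpos _ hxI h1
      refine ⟨h2.le, fun h3 => absurd h3 h2.ne', ?_⟩
      rintro ⟨w, hw, hwz⟩
      have hwS : w ∈ Stp L0 (3 / 2 * L0) := stp_near (le_trans hw hr)
      rw [← hfP.strip _ hγ, ← hh _ hγO, ← hwz, hh w (strip_om hwS), hfP.strip _ hwS]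
      exact hin _ hw
  · push Not at h
    have h1 : Hf (et F X 1) 1 z = 1 := hfP.out z hz fun γ hγ => h γ ⟨by linarith [hγ.1], by
      linarith [hγ.2]⟩
    rw [hh z hz, h1]
    refine ⟨zero_le_one, fun h2 => absurd h2 one_ne_zero, ?_⟩
    rintro ⟨w, hw, hwz⟩
    exfalso
    have hwS : w ∈ Stp L0 (3 / 2 * L0) := stp_near (le_trans hw hr)
    obtain ⟨γ, hγ⟩ := (hpr.rel z hz w (strip_om hwS)).1 hwz.symm
    exact h γ (hγ ▸ hwS)

theorem geo_gen (hP : Prof g c1 C0) (hX : Cut X) (hpr : PrM Om ac pr)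
    (hB : Bs0 g X c1 pr μ D Φ σ) (h : PK g G c r m C) {κ h' : C(M, ℝ)}
    (hκ : ∀ z ∈ Om, κ (pr z) = 2 * (Hf (et g X 0) 0 z + Hf (fun x => G x - g x) c z))
    (hh : ∀ z ∈ Om, h' (pr z) = Hf (et G X 1) 1 z) :
    Geo (3 / 2 * L0) (3 / 4 * L0 - r) (3 / 4 * L0 + r) 2 Φ κ h' (fun x => 2 * G (x - 1 / 4 * L0))
      (fun x => G (x - 1 / 4 * L0)) := by
  have h0 := L0p
  have hrp := h.rp
  have hrL := h.rL
  have hI : ∀ x ∈ Icc 0 (3 / 2 * L0), x - 1 / 4 * L0 ∈ I0 := by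
    intro x hx
    refine mem_I0 ?_
    rw [abs_lt]
    constructor <;> linarith [hx.1, hx.2]
  have hgc : ContinuousOn (fun x => G (x - 1 / 4 * L0)) (Icc 0 (3 / 2 * L0)) :=
    (h.sm.continuousOn).comp (by fun_prop) fun x hx => hI x hx
  have hst : ∀ z ∈ Strip (3 / 2 * L0), z - ((1 / 4 * L0 : ℝ) : ℂ) ∈ Stp L0 (1 / 4 * L0) := by
    intro z hz
    have h1 := hz.1
    have h2 := hz.2
    constructor
    · rw [Complex.sub_re, Complex.ofReal_re]
      linarith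
    · rw [Complex.sub_re, Complex.ofReal_re]
      linarith
  have a1 := hfW (adW_et (G := g) hP.smooth hX 0)
  have a2 := hfW (h.adW hP)
  have a3 := hfW (adW_et h.sm hX 1)
  refine ⟨⟨by linarith, by linarith, by linarith, continuousOn_const.mul hgc, hgc, ?_, ?_, ?_,
    by norm_num, ?_⟩, ?_, ?_, fun x => ?_⟩
  · intro x hx
    have h1 : G (x - 1 / 4 * L0) = 0 := h.flat _ (by
      rw [abs_le]
      constructor <;> linarith [hx.1, hx.2])
    refine ⟨?_, h1⟩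
    show 2 * G (x - 1 / 4 * L0) = 0
    rw [h1, mul_zero]
  · intro x hx
    exact h.nn hP (hI x hx)
  · intro x hx hn
    refine h.pos hP (hI x ⟨hx.1.le, hx.2.le⟩) ?_
    by_contra hcon
    push Not at hcon
    have h1 := abs_le.1 hcon
    exact hn ⟨by linarith [h1.1], by linarith [h1.2]⟩
  · intro x _
    exact le_rfl
  · intro z hz
    have hz1 := stp_sub (hst z hz)
    rw [hB.Φpr z hz, hκ _ (strip_om hz1), a1.strip _ hz1, a2.strip _ hz1,
      et_near hX (near_of_stp (hst z hz)), Complex.sub_re, Complex.ofReal_re]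
    ring
  · intro z hz
    have hz1 := stp_sub (hst z hz)
    rw [hB.Φpr z hz, hh _ (strip_om hz1), a3.strip _ hz1,
      et_near hX (near_of_stp (hst z hz)), Complex.sub_re, Complex.ofReal_re]
  · exact (h_zero_gen hX hpr (by linarith) h.sm h.flat (fun x hx hn => h.pos hP hx hn) hh x).1

end

end Pool.Agent.H240.CG
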