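import Pool.Agent.H240.CG.EDef

/-!
# Surfaces of negative curvature outside of one closed geodesic: crossing the geodesic, global
constancy, ergodicity (adapted from the library files `Y115/EG/Cross`, `Y378/EG/Glob`,
`Y447/EG/AlgErg`)
-/

set_option autoImplicit false
set_option linter.all false

open Set Filter Topology MeasureTheory
open scoped ContDiff

noncomputable section

namespace Pool.Agent.H240.CG.EB

open Pool.Agent.Y262.EG Pool.Agent.H240.CG

theorem cross2 : StUniq → StFrame → StCross2 := by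
  intro hu _ M P _ _ _ _ Ω φ pr q Fl L δ δ' κ C x0 g hUT hG hC f hf a ha z hz w hw hz' hw'
  have hδ' : 0 < δ' := hC.posδ.trans hC.ltδ
  have hx0p := hC.x0p
  have hx0L := hC.x0L
  -- the curvature is negative outside of the closed geodesic
  have hneg : ∀ z ∈ Stp L δ', z.re ≠ x0 → curv φ z < 0 := by
    intro z hz hz'
    refine lt_of_le_of_ne (hC.neg z (hC.strip hz)) ?_
    intro h0
    obtain ⟨w, hw0, hpw⟩ := hC.zero z (hC.strip hz) h0
    have hwS : w ∈ Stp L δ' := ⟨by rw [hw0]; linarith, by rw [hw0]; linarith⟩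
    obtain ⟨n, hn⟩ := hC.inj z hz w hwS hpw.symm
    have hre : w.re = z.re := by rw [hn]; simp
    exact hz' (by rw [← hre, hw0])
  refine ⟨hneg z hz hz', ?_⟩
  -- the function is locally constant
  have hloc : ∀ z ∈ Stp L δ', z.re ≠ x0 → ∀ᶠ y in 𝓝 z, a (pr y) = a (pr z) := by
    intro z hz hz'
    obtain ⟨r, hr, -, h2, -⟩ := ha (z, 0) (hC.strip hz) (hneg z hz hz')
    filter_upwards [Metric.ball_mem_nhds z hr] with y hy
    refine (h2 (y, 0) ?_).2
    rw [Metric.mem_ball, Prod.dist_eq]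
    show max (dist y z) (dist (0 : ℝ) 0) < r
    rw [dist_self]
    exact max_lt hy hr
  have hcon : ∀ R : Set ℂ, IsOpen R → Convex ℝ R → (∀ z ∈ R, z ∈ Stp L δ' ∧ z.re ≠ x0) →
      ∀ z ∈ R, ∀ w ∈ R, a (pr z) = a (pr w) := by
    intro R hRo hRc hR z hz w hw
    have hd : ∀ y ∈ R, HasFDerivAt (fun y => a (pr y)) (0 : ℂ →L[ℝ] ℝ) y := by
      intro y hy
      have h1 := hloc y (hR y hy).1 (hR y hy).2
      exact (hasFDerivAt_const (a (pr y)) y).congr_of_eventuallyEq h1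
    exact hRo.is_const_of_fderiv_eq_zero hRc.isPreconnected
      (fun y hy => (hd y hy).differentiableAt.differentiableWithinAt)
      (fun y hy => (hd y hy).fderiv) hz hw
  set RL : Set ℂ := {z | -δ' < z.re} ∩ {z | z.re < x0} with hRL
  set RR : Set ℂ := {z | x0 < z.re} ∩ {z | z.re < L + δ'} with hRR
  have hRLo : IsOpen RL := (isOpen_lt continuous_const Complex.continuous_re).inter
    (isOpen_lt Complex.continuous_re continuous_const)
  have hRRo : IsOpen RR := (isOpen_lt continuous_const Complex.continuous_re).inter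
    (isOpen_lt Complex.continuous_re continuous_const)
  have hRLc : Convex ℝ RL := (convex_halfSpace_re_gt _).inter (convex_halfSpace_re_lt _)
  have hRRc : Convex ℝ RR := (convex_halfSpace_re_gt _).inter (convex_halfSpace_re_lt _)
  have hRLs : ∀ z ∈ RL, z ∈ Stp L δ' ∧ z.re ≠ x0 := by
    rintro z ⟨h1, h2⟩
    have h2' : z.re < x0 := h2
    exact ⟨⟨h1, by linarith [hC.posL]⟩, h2'.ne⟩
  have hRRs : ∀ z ∈ RR, z ∈ Stp L δ' ∧ z.re ≠ x0 := by
    rintro z ⟨h1, h2⟩
    have h1' : x0 < z.re := h1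
    exact ⟨⟨by linarith [hC.posL], h2⟩, h1'.ne'⟩
  have hLc := hcon RL hRLo hRLc hRLs
  have hRc := hcon RR hRRo hRRc hRRs
  -- the crossing orbit
  obtain ⟨b, I, t1, hIo, hIp, h0I, h1I, hb, hb0, hb1⟩ :=
    Pool.Agent.Y115.EG.solution hUT.opn hUT.smooth hC.strip hC.rot hC.posL hδ'
  obtain ⟨hu1, hu2⟩ := hu Ω φ hUT.opn hUT.smooth
  set zL : ℂ := ((-(δ' / 3) : ℝ) : ℂ) with hzL
  set zR : ℂ := ((L + δ' / 3 : ℝ) : ℂ) with hzR
  have hzLm : zL ∈ RL := by
    refine ⟨?_, ?_⟩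
    · show -δ' < zL.re
      rw [hzL, Complex.ofReal_re]; linarith
    · show zL.re < x0
      rw [hzL, Complex.ofReal_re]; linarith
  have hzRm : zR ∈ RR := by
    refine ⟨?_, ?_⟩
    · show x0 < zR.re
      rw [hzR, Complex.ofReal_re]; linarith
    · show zR.re < L + δ'
      rw [hzR, Complex.ofReal_re]; linarith
  have hp0 : ((zL, (0 : ℝ)) : Y) ∈ YO Ω := hC.strip (hRLs _ hzLm).1
  have hp1 : ((zR, (0 : ℝ)) : Y) ∈ YO Ω := hC.strip (hRRs _ hzRm).1
  have hcrossing : Fl t1 (zL, 0) = (zR, 0) := by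
    have h := hu1 (fun t => Fl t (zL, 0)) b I hIo hIp
      (fun t ht => ⟨hG.maps t _ hp0, (hb t ht).1⟩)
      (fun t ht => ⟨hG.ode t _ hp0, (hb t ht).2⟩) 0 h0I
      (by rw [hb0]; exact hG.zero _ hp0) t1 h1I
    rw [hb1] at h
    exact h
  have hback : ∀ p ∈ YO Ω, Fl (-t1) (Fl t1 p) = p := by
    intro p hp
    rw [← hu2 Fl hG (-t1) t1 p hp, neg_add_cancel]
    exact hG.zero p hp
  -- smoothness of the time maps
  have hYO : IsOpen (YO Ω) := hUT.opn.preimage continuous_fst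
  have hsm : ∀ t, ContDiffOn ℝ ∞ (Fl t) (YO Ω) := by
    intro t
    have h1 : ContDiffOn ℝ ∞ (fun p : Y => ((t, p) : ℝ × Y)) (YO Ω) :=
      (contDiff_const.prodMk contDiff_id).contDiffOn
    exact hG.smooth.comp h1 (fun p hp => hp)
  have hcr : a (pr zL) = a (pr zR) := by
    obtain ⟨r0, hr0, hb0', -, h0⟩ := ha (zL, 0) hp0 (hneg zL (hRLs _ hzLm).1 (hRLs _ hzLm).2)
    obtain ⟨r1, hr1, hb1', -, h1⟩ := ha (zR, 0) hp1 (hneg zR (hRRs _ hzRm).1 (hRRs _ hzRm).2)
    rw [ae_restrict_iff' Metric.isOpen_ball.measurableSet, ae_iff] at h0 h1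
    set N0 : Set Y := {p | ¬(p ∈ Metric.ball ((zL, 0) : Y) r0 → f (q p) = a (pr zL))} with hN0
    set N1 : Set Y := {p | ¬(p ∈ Metric.ball ((zR, 0) : Y) r1 → f (q p) = a (pr zR))} with hN1
    have hN1s : N1 ⊆ YO Ω := by
      intro p hp
      rw [hN1, Set.mem_ofPred_eq, Classical.not_imp] at hp
      exact hb1' hp.1
    have hH : (volume : Measure Y).IsAddHaarMeasure := by
      show (volume : Measure (ℂ × ℝ)).IsAddHaarMeasure
      rw [Measure.volume_eq_prod]
      infer_instance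
    have himg : volume (Fl (-t1) '' N1) = 0 :=
      addHaar_image_eq_zero_of_differentiableOn_of_addHaar_eq_zero volume
        (((hsm (-t1)).differentiableOn (by simp)).mono hN1s) h1
    have hU : Metric.ball ((zL, 0) : Y) r0 ∩ Fl t1 ⁻¹' (Metric.ball ((zR, 0) : Y) r1) ∈
        𝓝 ((zL, 0) : Y) := by
      refine inter_mem (Metric.ball_mem_nhds _ hr0) ?_
      have hc : ContinuousAt (Fl t1) ((zL, 0) : Y) :=
        ((hsm t1).continuousOn).continuousAt (hYO.mem_nhds hp0)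
      refine hc.preimage_mem_nhds ?_
      rw [hcrossing]
      exact Metric.ball_mem_nhds _ hr1
    have hpos : 0 < volume (Metric.ball ((zL, 0) : Y) r0 ∩
        Fl t1 ⁻¹' (Metric.ball ((zR, 0) : Y) r1)) :=
      Measure.measure_pos_of_mem_nhds volume hU
    have hnn : ∃ p ∈ Metric.ball ((zL, 0) : Y) r0 ∩ Fl t1 ⁻¹' (Metric.ball ((zR, 0) : Y) r1),
        p ∉ N0 ∪ Fl (-t1) '' N1 := by
      by_contra hcon
      push Not at hcon
      have hle : volume (Metric.ball ((zL, 0) : Y) r0 ∩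
          Fl t1 ⁻¹' (Metric.ball ((zR, 0) : Y) r1)) ≤ volume (N0 ∪ Fl (-t1) '' N1) :=
        measure_mono hcon
      have : volume (N0 ∪ Fl (-t1) '' N1) = 0 := measure_union_null h0 himg
      rw [this] at hle
      exact absurd hpos (not_lt.2 hle)
    obtain ⟨p, ⟨hpa, hpb⟩, hpn⟩ := hnn
    have hpY : p ∈ YO Ω := hb0' hpa
    have e0 : f (q p) = a (pr zL) := by
      by_contra hne
      refine hpn (Or.inl ?_)
      rw [hN0, Set.mem_ofPred_eq, Classical.not_imp]
      exact ⟨hpa, hne⟩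
    have e1 : f (q (Fl t1 p)) = a (pr zR) := by
      by_contra hne
      refine hpn (Or.inr ⟨Fl t1 p, ?_, hback p hpY⟩)
      rw [hN1, Set.mem_ofPred_eq, Classical.not_imp]
      exact ⟨hpb, hne⟩
    rw [← e0, ← e1]
    exact (hf t1 p hpY).symm
  -- conclusion
  have hside : ∀ z ∈ Stp L δ', z.re ≠ x0 → a (pr z) = a (pr zL) := by
    intro z hz hz'
    rcases lt_or_gt_of_ne hz' with h | h
    · exact hLc z ⟨hz.1, h⟩ zL hzLm
    · rw [hcr]
      exact hRc z ⟨h, hz.2⟩ zR hzRm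
  rw [hside z hz hz', hside w hw hw']

theorem glob2 : StFrame → StEt → StFinP → StFlP → StMpP → StKP2 → StInv → StClP2 → StGlob1 →
    StCross2 → StGlob2 := by
  intro hFr _ hFin hFlP hMp hKP hInv hCl hG1 hCross
  intro M P _ _ _ _ _ _ Ω φ pr q m Fl L δ δ' κ C x0 g hUT hLi hGeo hCls f hf hinv hloc
  obtain ⟨a, ha⟩ := hG1 M P Ω φ pr q hUT f hloc
  obtain ⟨hFl1, -, -, -⟩ := hFlP M P Ω φ pr q Fl hUT hGeo
  obtain ⟨hk1, -, hk3, -, -⟩ := hKP M P Ω φ pr q L δ δ' κ C x0 g hUT hCls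
  have hδ' : 0 < δ' := hCls.posδ.trans hCls.ltδ
  have hx0p := hCls.x0p
  have hx0L := hCls.x0L
  have hcr := hCross M P Ω φ pr q Fl L δ δ' κ C x0 g hUT hGeo hCls f (by
    intro t p hp
    rw [← hFl1 t p hp, hinv]) a ha
  -- the base point
  set z0 : ℂ := ((-(δ' / 2) : ℝ) : ℂ) with hz0
  have hz0re : z0.re = -(δ' / 2) := Complex.ofReal_re _
  have hz0s : z0 ∈ Stp L δ' := by
    constructor
    · rw [hz0re]; linarith
    · rw [hz0re]; linarith [hCls.posL]
  have hz0n : z0.re ≠ x0 := by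
    rw [hz0re]
    linarith
  set a0 : ℝ := a (pr z0) with ha0
  -- the strip
  have hstrip : ∀ z ∈ Ω, curv φ z < 0 → ∀ w ∈ Stp L δ', pr w = pr z → a (pr z) = a0 := by
    intro z hz hcz w hw hwz
    have h1 := (hInv M P Ω φ pr q hUT w (hCls.strip hw) z hz hwz).1
    rw [← hwz]
    by_cases h2 : w.re = x0
    · obtain ⟨r, hr, -, hb2, -⟩ := ha (w, 0) (hCls.strip hw) (by rw [h1]; exact hcz)
      set η : ℝ := min (r / 2) (δ' / 2) with hη
      have hη0 : 0 < η := lt_min (by linarith) (by linarith)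
      have hη1 : η < r := lt_of_le_of_lt (min_le_left _ _) (by linarith)
      have hη2 : η < δ' := lt_of_le_of_lt (min_le_right _ _) (by linarith)
      set y : ℂ := w + (η : ℂ) with hy
      have hyre : y.re = x0 + η := by rw [hy, Complex.add_re, Complex.ofReal_re, h2]
      have hys : y ∈ Stp L δ' := ⟨by rw [hyre]; linarith, by rw [hyre]; linarith⟩
      have hyb : ((y, (0 : ℝ)) : Y) ∈ Metric.ball ((w, 0) : Y) r := by
        rw [Metric.mem_ball, Prod.dist_eq]
        change max (dist y w) (dist (0 : ℝ) 0) < r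
        rw [dist_self]
        refine max_lt ?_ hr
        rw [dist_eq_norm, hy, add_sub_cancel_left, Complex.norm_real, Real.norm_of_nonneg hη0.le]
        exact hη1
      rw [← (hb2 (y, 0) hyb).2]
      exact (hcr y hys z0 hz0s (by rw [hyre]; linarith) hz0n).2
    · exact (hcr w hw z0 hz0s h2 hz0n).2
  -- the surface is connected
  have hopen : ∀ R : ℝ → Prop, IsOpen {x : M | ∃ z ∈ Ω, pr z = x ∧ curv φ z < 0 ∧ R (a x)} := by
    intro R
    rw [isOpen_iff_forall_mem_open]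
    rintro x ⟨z, hz, rfl, hcz, hR⟩
    obtain ⟨r, hr, hball, hb2, -⟩ := ha (z, 0) hz hcz
    have hmem : ∀ z' ∈ Metric.ball z r, ((z', 0) : Y) ∈ Metric.ball ((z, 0) : Y) r := by
      intro z' hz'
      rw [Metric.mem_ball, Prod.dist_eq, dist_self]
      exact max_lt hz' hr
    have hsub : Metric.ball z r ⊆ Ω := fun z' hz' => hball (hmem z' hz')
    refine ⟨pr '' Metric.ball z r, ?_, hUT.opnp _ Metric.isOpen_ball hsub,
      ⟨z, Metric.mem_ball_self hr, rfl⟩⟩
    rintro _ ⟨z', hz', rfl⟩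
    have h3 := hb2 _ (hmem z' hz')
    refine ⟨z', hsub hz', rfl, h3.1, ?_⟩
    rw [h3.2]
    exact hR
  have hall : ∀ z ∈ Ω, curv φ z < 0 → a (pr z) = a0 := by
    by_contra hne
    push Not at hne
    obtain ⟨z1, hz1, hc1, ha1⟩ := hne
    have hstO : IsOpen (Stp L δ') :=
      (isOpen_lt continuous_const Complex.continuous_re).inter
        (isOpen_lt Complex.continuous_re continuous_const)
    have hpre := hCls.conn
      ({x : M | ∃ z ∈ Ω, pr z = x ∧ curv φ z < 0 ∧ a x = a0} ∪ pr '' Stp L δ')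
      {x : M | ∃ z ∈ Ω, pr z = x ∧ curv φ z < 0 ∧ a x ≠ a0}
      ((hopen fun y => y = a0).union (hUT.opnp _ hstO hCls.strip)) (hopen fun y => y ≠ a0)
      (by
        intro x _
        have hx : x ∈ pr '' Ω := hUT.surjp ▸ mem_univ x
        obtain ⟨z, hz, rfl⟩ := hx
        rcases (hCls.neg z hz).lt_or_eq with h | h
        · by_cases h2 : a (pr z) = a0
          · exact Or.inl (Or.inl ⟨z, hz, rfl, h, h2⟩)
          · exact Or.inr ⟨z, hz, rfl, h, h2⟩
        · obtain ⟨w, hw0, hw2⟩ := hCls.zero z hz h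
          exact Or.inl (Or.inr ⟨w, ⟨by rw [hw0]; linarith, by rw [hw0]; linarith⟩, hw2⟩))
      ⟨pr z0, mem_univ _, Or.inr ⟨z0, hz0s, rfl⟩⟩
      ⟨pr z1, mem_univ _, z1, hz1, rfl, hc1, ha1⟩
    obtain ⟨x, -, hxU, z, hz, hzx, hcz, hax⟩ := hpre
    rcases hxU with ⟨z', -, -, -, hax'⟩ | ⟨w, hw, hwx⟩
    · exact hax hax'
    · apply hax
      rw [← hzx]
      exact hstrip z hz hcz w hw (hwx.trans hzx.symm)
  -- the exceptional set where the curvature is negative
  set E : Set P := {x | 0 < kP Ω φ q x ∧ f x ≠ a0} with hE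
  have hEnull : m E = 0 := by
    set B0 : Set Y := {p | p ∈ YO Ω ∧ curv φ p.1 < 0 ∧ f (q p) ≠ a0} with hB0
    have hB0null : volume B0 = 0 := by
      refine measure_null_of_locally_null _ ?_
      rintro p0 ⟨hp0, hc0, -⟩
      obtain ⟨r, hr, -, -, hae⟩ := ha p0 hp0 hc0
      refine ⟨B0 ∩ Metric.ball p0 r, inter_mem self_mem_nhdsWithin
        (nhdsWithin_le_nhds (Metric.ball_mem_nhds _ hr)), ?_⟩
      rw [hall p0.1 hp0 hc0, ae_iff, Measure.restrict_apply' Metric.isOpen_ball.measurableSet]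
        at hae
      refine measure_mono_null ?_ hae
      rintro p ⟨hp, hpb⟩
      exact ⟨hp.2.2, hpb⟩
    have hYO : IsOpen (YO Ω) := hUT.opn.preimage continuous_fst
    have hB1 := ((hFin M P Ω φ pr q m hUT hLi).2.2 (toMeasurable volume B0 ∩ YO Ω)
      ((measurableSet_toMeasurable _ _).inter hYO.measurableSet) inter_subset_right).2.1
      (measure_mono_null inter_subset_left (by rw [measure_toMeasurable]; exact hB0null))
    refine measure_mono_null ?_ hB1
    rintro x ⟨hkx, hfx⟩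
    have hx : x ∈ q '' YO Ω := hUT.surjq ▸ mem_univ x
    obtain ⟨p, hp, rfl⟩ := hx
    rw [(hk1 p hp).1] at hkx
    exact ⟨p, ⟨subset_toMeasurable _ _ ⟨hp, by linarith, hfx⟩, hp⟩, rfl⟩
  -- the vectors which never leave the flat region
  set Zs : Set P := {x | ∀ t : ℝ, kP Ω φ q (FlP Ω q Fl t x) = 0} with hZs
  have hZnull : m Zs = 0 := by
    obtain ⟨C', hC'⟩ := hCl M P Ω φ pr q m Fl L δ δ' κ C x0 g hUT hLi hGeo hCls
    have h1 : ∀ n : ℕ, 1 ≤ n → m Zs ≤ ENNReal.ofReal (C' / Real.sqrt n) := by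
      intro n hn
      refine (measure_mono ?_).trans (hC' n (by exact_mod_cast hn))
      intro x hx t _
      rw [hx t]
      exact hCls.posκ
    have h2 : Tendsto (fun n : ℕ => ENNReal.ofReal (C' / Real.sqrt n)) atTop (𝓝 0) := by
      have h3 : Tendsto (fun n : ℕ => C' / Real.sqrt n) atTop (𝓝 0) := by
        apply Tendsto.const_div_atTop
        exact Real.tendsto_sqrt_atTop.comp tendsto_natCast_atTop_atTop
      have h4 := ENNReal.tendsto_ofReal h3
      rwa [ENNReal.ofReal_zero] at h4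
    exact le_antisymm (ge_of_tendsto h2 (eventually_atTop.mpr ⟨1, h1⟩)) zero_le
  refine ⟨a0, ?_⟩
  rw [ae_iff]
  have hun : m (Zs ∪ ⋃ t : ℚ, FlP Ω q Fl (t : ℝ) ⁻¹' E) = 0 := by
    rw [measure_union_null_iff]
    refine ⟨hZnull, ?_⟩
    rw [measure_iUnion_null_iff]
    intro t
    exact ((hMp M P Ω φ pr q m Fl hUT hLi hGeo (t : ℝ)).quasiMeasurePreserving).preimage_null hEnull
  refine measure_mono_null ?_ hun
  intro x hx
  have hfx : ¬ f x = a0 := hx
  by_cases hxZ : x ∈ Zs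
  · exact Or.inl hxZ
  · right
    have hxq : x ∈ q '' YO Ω := hUT.surjq ▸ mem_univ x
    obtain ⟨p, hp, rfl⟩ := hxq
    have hkt : ∀ t, kP Ω φ q (FlP Ω q Fl t (q p)) = -curv φ (Fl t p).1 := by
      intro t
      rw [hFl1 t p hp, (hk1 _ (hGeo.maps t p hp)).1]
    have hcont : Continuous fun t : ℝ => -curv φ (Fl t p).1 := by
      refine Continuous.neg ?_
      rw [continuous_iff_continuousAt]
      intro t
      have h1 : ContinuousAt (curv φ) (Fl t p).1 :=
        ((hFr Ω φ hUT.opn hUT.smooth).2.2.1.continuousOn).continuousAt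
          (hUT.opn.mem_nhds (hGeo.maps t p hp))
      have h2 : ContinuousAt (fun τ => (Fl τ p).1) t :=
        continuous_fst.continuousAt.comp (hGeo.ode t p hp).continuousAt
      exact ContinuousAt.comp (f := fun τ => (Fl τ p).1) (g := curv φ) h1 h2
    have hex : ∃ t : ℝ, 0 < -curv φ (Fl t p).1 := by
      have h3 : ¬ ∀ t : ℝ, kP Ω φ q (FlP Ω q Fl t (q p)) = 0 := hxZ
      push Not at h3
      obtain ⟨t, ht⟩ := h3
      refine ⟨t, ?_⟩
      rw [← hkt]
      exact lt_of_le_of_ne (hk3 _) (Ne.symm ht)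
    have hop : IsOpen {t : ℝ | 0 < -curv φ (Fl t p).1} := isOpen_lt continuous_const hcont
    obtain ⟨t, ht⟩ := (Rat.denseRange_cast (𝕜 := ℝ)).exists_mem_open hop hex
    refine mem_iUnion.mpr ⟨t, ?_, ?_⟩
    · change 0 < kP Ω φ q (FlP Ω q Fl (t : ℝ) (q p))
      rw [hkt]
      exact ht
    · change f (FlP Ω q Fl (t : ℝ) (q p)) ≠ a0
      rw [hinv]
      exact hfx

theorem erg_of (h1 : StFlP) (h3 : StPk2) (h4 : StKill) (h5 : StLoc) (h6 : StGlob2) :
    StErg2 := by
  classical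
  intro M P _ _ _ _ _ _ Ω φ pr q m Fl L δ δ' κ C x0 g hUT hLi hGeo hCls A hA hinv
  obtain ⟨c, c1, s, s1, hPk⟩ := h3 M P Ω φ pr q m Fl L δ δ' κ C x0 g hUT hLi hGeo hCls
  obtain ⟨hfl1, -, -, -⟩ := h1 M P Ω φ pr q Fl hUT hGeo
  set f : P → ℝ := A.indicator fun _ => 1 with hf
  have hfm : Measurable f := measurable_const.indicator hA
  have hfb : ∃ C, ∀ x, |f x| ≤ C := by
    refine ⟨1, fun x => ?_⟩
    rw [hf]
    by_cases hx : x ∈ A
    · rw [indicator_of_mem hx, abs_one]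
    · rw [indicator_of_notMem hx, abs_zero]
      exact zero_le_one
  have hff : ∀ t x, f (FlP Ω q Fl t x) = f x := by
    intro t x
    have hx : x ∈ q '' YO Ω := by
      rw [hUT.surjq]
      exact mem_univ x
    obtain ⟨p, hp, rfl⟩ := hx
    rw [hfl1 t p hp]
    have h := hinv t p hp
    by_cases hq : q p ∈ A
    · rw [hf, indicator_of_mem hq, indicator_of_mem (h.2 hq)]
    · rw [hf, indicator_of_notMem hq, indicator_of_notMem (fun hc => hq (h.1 hc))]
  have hloc : ∀ p0 ∈ YO Ω, curv φ p0.1 < 0 → ∃ (r a : ℝ), 0 < r ∧ Metric.ball p0 r ⊆ YO Ω ∧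
      ∀ᵐ p ∂volume.restrict (Metric.ball p0 r), f (q p) = a := by
    refine h5 M P Ω φ pr q m hUT hLi f hfm hfb ?_
    intro χ ε hχ hε hχε W hW
    obtain ⟨k1, k2, k3⟩ := h4 P m (FlP Ω q Fl) (AcP Ω q) (dW Ω q (XX φ)) (dW Ω q (HH φ))
      (dW Ω q fun _ => VV) (kP Ω φ q) c c1 s s1 hPk f hfm hfb hff χ ε hχ hε hχε
    rcases hW with rfl | rfl | rfl
    · exact k1
    · exact k2
    · exact k3
  obtain ⟨a, ha⟩ := h6 M P Ω φ pr q m Fl L δ δ' κ C x0 g hUT hLi hGeo hCls f hfm hff hloc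
  by_cases h0 : a = 0
  · left
    refine measure_mono_null ?_ ha
    intro x hx
    show ¬ f x = a
    rw [h0, hf, indicator_of_mem hx]
    exact one_ne_zero
  · by_cases h10 : a = 1
    · right
      refine measure_mono_null ?_ ha
      intro x hx
      show ¬ f x = a
      rw [h10, hf, indicator_of_notMem hx]
      exact zero_ne_one
    · left
      refine measure_mono_null ?_ ha
      intro x hx
      show ¬ f x = a
      rw [hf, indicator_of_mem hx]
      exact fun hc => h10 hc.symm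

/-- ergodicity -/
theorem erg2 (hk : StKP2) (hc : StClP2) (hp : StPk2) : StErg2 :=
  erg_of (tFlP Pool.Agent.Y262.EX.tEt) hp tKill (tLoc Pool.Agent.Y262.EX.tEt)
    (glob2 tFrame Pool.Agent.Y262.EX.tEt (tFinP Pool.Agent.Y262.EX.tEt)
      (tFlP Pool.Agent.Y262.EX.tEt) (tMpP Pool.Agent.Y262.EX.tEt Pool.Agent.Y262.EX.tLiouUp) hk
      tInv hc (Pool.Agent.Y61.EG.glob1 tFrame Pool.Agent.Y262.EX.tEt) (cross2 tUniq tFrame))

end Pool.Agent.H240.CG.EB
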