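import Pool.Agent.H240.CG.ErgA
import Pool.Agent.H240.CG.ErgB

/-!
# Ergodicity of the geodesic flow: one closed geodesic of curvature zero
-/

set_option autoImplicit false

noncomputable section

namespace Pool.Agent.H240.CG

open Pool.Agent.Y262.EG Pool.Agent.Y262.EX

theorem kp2 : StKP2 := EA.kp2 tFrame tEt (tDWP tEt)

theorem clp2 : StClP2 := EA.clp2 tUniq EA.clair2 Pool.Agent.Y447.EG.sinm tEt (tFinP tEt) (tFlP tEt) kp2

theorem pk2 : StPk2 := EA.pk2 tUniq tFrame tCoc tVarUp tEt (tFinP tEt) (tDWP tEt) tAlgP (tDens tEt)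
  (tDvP tEt) (tFlP tEt) (tMpP tEt tLiouUp) (tAlP tEt) (tCocP tEt) kp2 clp2

/-- the geodesic flow of a surface of the class is ergodic -/
theorem erg2 : StErg2 := EB.erg2 kp2 clp2 pk2

end Pool.Agent.H240.CG
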