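import Pool.Agent.H240.CG.Pert
import Pool.Agent.H240.CG.Bs0
import Pool.Agent.H240.NL.Fin

/-!
# Localized eigenfunctions for all metrics near a metric with a flat cylinder
-/

set_option autoImplicit false
set_option linter.unusedSectionVars false

open Set Filter Topology MeasureTheory
open scoped ContDiff ComplexConjugate Real

noncomputable section

namespace Pool.Agent.H240.CG

open Pool.Agent.Y262.EG Pool.Agent.Y262.EX Pool.Agent.Y262.EL Pool.Agent.Y262.QE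
open Pool.Agent.Y264.QR Pool.Agent.H240.SC Pool.Agent.H240.SG

/-- All metrics near the metric of the profile `G` have many eigenfunctions with most of their mass
in the tube of radius `r`. -/
def Stage {M : Type} [MeasurableSpace M] (pr : ℂ → M) (G : ℝ → ℝ) (c : ℝ) (N : ℕ) (r θ : ℝ) : Prop :=
  ∀ f : M → ℝ, ContDiffOn ℝ ∞ (fun z => f (pr z)) Om → (∀ x, |f x| < θ) →
    ∀ μ : Measure M, IsArea Om (fun z => phi G c z + f (pr z)) pr μ →
    ∀ (u : ℕ → M → ℝ) (lam : ℕ → ℝ), EB Om (fun z => phi G c z + f (pr z)) pr μ u lam →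
    ∃ Λ : ℝ, (N : ℝ) ≤ Λ ∧ N * √Λ <
      ({j | 1 - 1 / ((N : ℝ) + 1) ≤ (∫ x in Uc pr r, (u j x) ^ 2 ∂μ) ∧ lam j ≤ Λ}.ncard : ℝ)

theorem eb_congr {M : Type} [MeasurableSpace M] {Ω : Set ℂ} {φ φ' : ℂ → ℝ} {pr : ℂ → M}
    {μ : Measure M} {u : ℕ → M → ℝ} {lam : ℕ → ℝ} (h : EB Ω φ pr μ u lam)
    (he : ∀ z ∈ Ω, φ' z = φ z) : EB Ω φ' pr μ u lam := by
  refine ⟨fun j => ⟨(h.eig j).1, fun z hz => ?_⟩, h.mono, h.orth, h.total⟩
  rw [he z hz]
  exact (h.eig j).2 z hz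

section

variable {g X G : ℝ → ℝ} {c1 C0 c r m C : ℝ} {M P : Type} [MetricSpace M] [CompactSpace M]
  [MetricSpace P] [CompactSpace P] [MeasurableSpace M] [BorelSpace M] {pr : ℂ → M} {q : Y → P}
  {μ : Measure M} {D : Data M} {Φ : ℂ → M} {σ : M → M}

/-- the unit tangent bundle for the metric of a profile -/
theorem ut_prof (hpr : PrM Om ac pr) (hq : PrP Om ac q) (hG : ProfW G c) :
    IsUT Om (phi G c) pr q :=
  Pool.Agent.Y145.EX.qU Gq Om ac (phi G c) M P pr q tAct (phi2W hG).1 hpr hq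

theorem ut_add (hpr : PrM Om ac pr) (hq : PrP Om ac q) (hG : ProfW G c) {f : M → ℝ}
    (hf : ContDiffOn ℝ ∞ (fun z => f (pr z)) Om) : IsUT Om (fun z => phi G c z + f (pr z)) pr q := by
  have h1 := (tUTs M P Om (phi G c) pr q (ut_prof hpr hq hG) f hf 2).1
  have e1 : (fun z => phi G c z + 2 / 2 * f (pr z)) = fun z => phi G c z + f (pr z) := by
    funext z
    ring
  rwa [e1] at h1

theorem uc_open (hpr : PrM Om ac pr) {r : ℝ} (hr : r ≤ 4 / 5 * L0) : IsOpen (Uc pr r) := by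
  refine hpr.opn _ (isOpen_lt (by fun_prop) continuous_const) ?_
  intro z hz
  have hz' : |z.re - L0 / 2| < r := hz
  exact strip_om (stp_near (hz'.le.trans hr))

theorem stage_ex (hP : Prof g c1 C0) (hX : Cut X) (hpr : PrM Om ac pr) (hq : PrP Om ac q)
    (hB : Bs0 g X c1 pr μ D Φ σ) {G1 : ℝ → ℝ} {s0 r' : ℝ} (hs0 : 0 < s0)
    (hpk : ∀ s : ℝ, |s| < s0 → PK g (fun x => G1 x + s * et G1 X 1 x) (c + s) r' m C)
    (hr : r' < r) (hr2 : r ≤ 4 / 5 * L0) (N : ℕ) :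
    ∃ s : ℝ, |s| < s0 ∧ ∃ θ : ℝ, 0 < θ ∧
      Stage pr (fun x => G1 x + s * et G1 X 1 x) (c1 + (c + s)) N r θ := by
  have h0 := L0p
  have hneM : Nonempty M := ⟨Φ 0⟩
  have h1 : PK g G1 c r' m C := by
    have h2 := hpk 0 (by rw [abs_zero]; exact hs0)
    have e1 : (fun x => G1 x + 0 * et G1 X 1 x) = G1 := by
      funext x
      ring
    rwa [e1, add_zero] at h2
  have a1 := hfW (adW_et (G := g) hP.smooth hX 0)
  have a2 := hfW (h1.adW hP)
  have a3 := hfW (adW_et h1.sm hX 1)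
  obtain ⟨κ, hκ⟩ := desc hpr (F := fun z => 2 * (Hf (et g X 0) 0 z + Hf (fun x => G1 x - g x) c z))
    (continuousOn_const.mul (a1.sm.continuousOn.add a2.sm.continuousOn))
    (fun γ z hz => by rw [a1.inv γ z hz, a2.inv γ z hz])
  obtain ⟨h, hh⟩ := desc hpr (F := Hf (et G1 X 1) 1) a3.sm.continuousOn a3.inv
  have hgeo := geo_gen hP hX hpr hB h1 hκ hh
  have hκs : ContDiffOn ℝ ∞ (fun z => κ (pr z)) Om :=
    (contDiffOn_const.mul (a1.sm.add a2.sm)).congr fun z hz => hκ z hz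
  have hhs : ContDiffOn ℝ ∞ (fun z => h (pr z)) Om := a3.sm.congr fun z hz => hh z hz
  have hzero := h_zero_gen hX hpr (by linarith) h1.sm h1.flat (fun x hx hn => h1.pos hP hx hn) hh
  -- a good parameter
  obtain ⟨s', hs', hgood⟩ : ∃ s : ℝ, |s| < 2 * s0 ∧ ∀ (u : ℕ → M → ℝ) (lam : ℕ → ℝ),
      EigBasis (D.conf fun x => Real.exp ((κ + s • h) x))
        (wm μ fun x => Real.exp ((κ + s • h) x)) u lam →
      ∃ J : Set ℕ, (∀ C : ℝ, ∃ᶠ Λ : ℝ in atTop,
        C * Real.sqrt Λ < ({j | j ∈ J ∧ lam j ≤ Λ}.ncard : ℝ)) ∧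
        Tendsto (fun j => ∫ x, h x * (u j x) ^ 2 ∂(wm μ fun x => Real.exp ((κ + s • h) x)))
          (atTop ⊓ 𝓟 J) (𝓝 0) := by
    by_contra hcon
    have hnull : volume {s : ℝ | |s| < 2 * s0} = 0 := by
      refine measure_mono_null ?_ (surf_main hB.surf hB.cyl hgeo)
      intro s hs hgood
      exact hcon ⟨s, hs, hgood⟩
    have hpos : 0 < volume {s : ℝ | |s| < 2 * s0} := by
      refine IsOpen.measure_pos volume ?_ ⟨0, by simpa using hs0⟩
      exact isOpen_lt continuous_abs continuous_const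
    exact absurd hnull hpos.ne'
  set s : ℝ := s' / 2 with hs
  have hs2 : |s| < s0 := by
    rw [hs, abs_div, abs_two]
    linarith
  have hPs := hpk s hs2
  set G : ℝ → ℝ := fun x => G1 x + s * et G1 X 1 x with hG
  have hPW : ProfW G (c1 + (c + s)) := hPs.prof hP
  set φ0 : C(M, ℝ) := κ + s' • h with hφ0
  have hfs : ∀ f : C(M, ℝ), ContDiffOn ℝ ∞ (fun z => f (pr z)) Om →
      ContDiffOn ℝ ∞ (fun z => (φ0 + (2 : ℝ) • f) (pr z)) Om := fun f hf =>
    (hκs.add (contDiffOn_const.mul hhs)).add (contDiffOn_const.mul hf)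
  have he : ∀ f : C(M, ℝ), ∀ z ∈ Om, phi G (c1 + (c + s)) z + f (pr z) =
      ph0 g X c1 z + 1 / 2 * (φ0 + (2 : ℝ) • f) (pr z) := by
    intro f z hz
    have e1 : (φ0 + (2 : ℝ) • f) (pr z) = κ (pr z) + s' * h (pr z) + 2 * f (pr z) := rfl
    have e2 := phi_lin G1 (et G1 X 1) (c1 + c) 1 s z
    have e3 : c1 + c + s * 1 = c1 + (c + s) := by ring
    rw [e3] at e2
    rw [e1, hκ z hz, hh z hz, hG, e2, phi_eq g X G1 c1 c z, hs]
    ring
  have hdat := fun (f : C(M, ℝ)) (hf : ContDiffOn ℝ ∞ (fun z => f (pr z)) Om) =>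
    data_gen hP hX hpr hq hB (φ0 + (2 : ℝ) • f) (hfs f hf)
    (fun z => phi G (c1 + (c + s)) z + f (pr z)) (he f)
  have hUTs : IsUT Om (phi G (c1 + (c + s))) pr q := ut_prof hpr hq hPW
  have hU : IsOpen (Uc pr r) := uc_open hpr hr2
  have hZU : ∀ x, h x = 0 → x ∈ Uc pr r := by
    intro x hx
    obtain ⟨z, hz, hzx⟩ := (hzero x).2.1 hx
    exact ⟨z, lt_of_le_of_lt hz hr, hzx⟩
  have hK : IsCompact (Uc pr r)ᶜ := hU.isClosed_compl.isCompact
  obtain ⟨b, hb, hbK⟩ : ∃ b : ℝ, 0 < b ∧ ∀ x ∈ (Uc pr r)ᶜ, b ≤ h x := by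
    rcases ((Uc pr r)ᶜ).eq_empty_or_nonempty with hem | hne
    · exact ⟨1, one_pos, fun x hx => by rw [hem] at hx; exact absurd hx (notMem_empty x)⟩
    · obtain ⟨x0, hx0, hmin⟩ := hK.exists_isMinOn hne h.continuous.continuousOn
      refine ⟨h x0, lt_of_le_of_ne (hzero x0).1 fun hcon => ?_, fun x hx => hmin hx⟩
      exact hx0 (hZU x0 hcon.symm)
  set ε : ℝ := 1 / ((N : ℝ) + 1) with hε
  have hεp : 0 < ε := by positivity
  obtain ⟨Λ1, η, hη, hst⟩ := Pool.Agent.H240.NL.stabL μ D hB.surf hneM φ0 h hgood N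
    (b * ε) N (by positivity)
  refine ⟨s, hs2, η / 2, by positivity, fun f hf hfη ν' hν' u lam hu => ?_⟩
  set fC : C(M, ℝ) := ⟨f, Pool.Agent.H240.NL.cont_of hUTs hf.continuousOn⟩ with hfC
  have hUTf : IsUT Om (fun z => phi G (c1 + (c + s)) z + f (pr z)) pr q := ut_add hpr hq hPW hf
  obtain ⟨b1, b2, b3⟩ := hdat fC hf
  have hνeq : ν' = wm μ fun x => Real.exp ((φ0 + (2 : ℝ) • fC) x) :=
    Pool.Agent.H240.NL.area_unique hUTf hν' b3
  subst hνeq
  have hw := eb_weak hUTf b1 b2 b3 hu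
  have hfn : ‖(2 : ℝ) • fC‖ < η := by
    rw [ContinuousMap.norm_lt_iff _ hη]
    intro x
    have h1 : ((2 : ℝ) • fC) x = 2 * f x := rfl
    rw [h1, Real.norm_eq_abs, abs_mul, abs_two]
    linarith [hfη x]
  obtain ⟨Λ, hΛ0, hΛ1, hΛ⟩ := hst ((2 : ℝ) • fC) hfn u lam hw
  refine ⟨Λ, hΛ0, hΛ.trans_le (Nat.cast_le.2 (ncard_le_ncard ?_ ?_))⟩
  · rintro j ⟨h1, h2⟩
    refine ⟨?_, h2⟩
    have hfin : IsFiniteMeasure (wm μ fun x => Real.exp ((φ0 + (2 : ℝ) • fC) x)) :=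
      (tFin M _ _ b1).1
    set ν := wm μ fun x => Real.exp ((φ0 + (2 : ℝ) • fC) x) with hν
    have hu2 : Integrable (fun x => (u j x) ^ 2) ν := (hw.eig j).mem.integrable_sq
    have hI : Integrable (fun x => h x * (u j x) ^ 2) ν := by
      obtain ⟨C, hC⟩ := isCompact_univ.exists_bound_of_continuousOn h.continuous.continuousOn
      exact hu2.bdd_mul h.continuous.aestronglyMeasurable
        (Filter.Eventually.of_forall fun x => hC x (mem_univ x))
    have h3 : ∫ x in (Uc pr r)ᶜ, b * (u j x) ^ 2 ∂ν ≤ ∫ x in (Uc pr r)ᶜ, h x * (u j x) ^ 2 ∂ν := by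
      refine setIntegral_mono_on (hu2.const_mul _).integrableOn hI.integrableOn
        hK.measurableSet fun x hx => ?_
      exact mul_le_mul_of_nonneg_right (hbK x hx) (sq_nonneg _)
    rw [integral_const_mul] at h3
    have h4 : ∫ x in (Uc pr r)ᶜ, h x * (u j x) ^ 2 ∂ν ≤ ∫ x, h x * (u j x) ^ 2 ∂ν :=
      setIntegral_le_integral hI
        (Filter.Eventually.of_forall fun x => mul_nonneg (hzero x).1 (sq_nonneg _))
    have h5 : b * ∫ x in (Uc pr r)ᶜ, (u j x) ^ 2 ∂ν ≤ b * ε := (h3.trans h4).trans h1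
    have h6 := le_of_mul_le_mul_left h5 hb
    have h7 := integral_add_compl hU.measurableSet hu2
    have h8 := hw.orth j j
    rw [if_pos rfl] at h8
    have h9 : ∫ x, (u j x) ^ 2 ∂ν = 1 := by
      rw [← h8]
      refine integral_congr_ae (Filter.Eventually.of_forall fun x => ?_)
      simp only
      ring
    rw [h9] at h7
    linarith
  · obtain ⟨j0, hj0⟩ := ((Pool.Agent.H240.NL.eb_tt hB.surf hneM hw).eventually
      (eventually_gt_atTop Λ)).exists_forall_of_atTop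
    refine (Set.finite_Iio j0).subset fun j hj => ?_
    by_contra hcon
    have h1 := hj0 j (not_lt.1 hcon)
    have h2 : lam j ≤ Λ := hj.2
    linarith

end

end Pool.Agent.H240.CG
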