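import Pool.Agent.H240.CG.Bs0
import Pool.Agent.H240.CG.Stage
import Pool.Agent.H240.CG.Erg

/-!
# Surfaces with one closed geodesic of curvature zero: the metric of a strictly convex profile

(Adapted from the library module Y868.EX.ClsE.)
-/

set_option autoImplicit false
set_option linter.unusedSectionVars false

open Set Filter Topology MeasureTheory
open scoped ContDiff ComplexConjugate Real

noncomputable section

namespace Pool.Agent.H240.CG

open Pool.Agent.Y262.EG Pool.Agent.Y262.EX Pool.Agent.H240.SG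
open Pool.Agent.Y868.EX (stp_open fderiv_re est near om_open)

/-- profiles with a strict minimum -/
structure Prof2 (G : ℝ → ℝ) (c C : ℝ) : Prop where
  smooth : ContDiffOn ℝ ∞ G (Ioo (-(7 / 2 * L0)) (9 / 2 * L0))
  hyp : ∀ x ∈ Ioo (-(7 / 2 * L0)) (9 / 2 * L0), L0 ≤ |x - L0 / 2| → G x = F0 x + c
  g0 : G (L0 / 2) = 0
  g1 : HasDerivAt G 0 (L0 / 2)
  cvx : ∀ x ∈ Ioo (-(7 / 2 * L0)) (9 / 2 * L0), 0 ≤ deriv (deriv G) x
  zero : ∀ x ∈ Ioo (-(7 / 2 * L0)) (9 / 2 * L0), deriv (deriv G) x = 0 → x = L0 / 2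
  der : ∀ x, |x - L0 / 2| ≤ 2 * L0 →
    |deriv (deriv (deriv G)) x| ≤ C * (deriv (deriv G) x) ^ (39 / 40 : ℝ)

theorem Prof2.profW {G : ℝ → ℝ} {c C : ℝ} (h : Prof2 G c C) : ProfW G c := ⟨h.smooth, h.hyp⟩

/-- bound of the derivative of the curvature in the collar -/
theorem collar_der2 (hL : 0 < L0) (g : ℝ → ℝ) (c1 C : ℝ) (hg : Prof2 g c1 C)
    (h31 : ∀ z ∈ Stp L0 (3 / 2 * L0), curv (phi g c1) z =
      -(Real.exp (-2 * g z.re) * deriv (deriv g) z.re))
    (hrot : ∀ z ∈ Stp L0 (3 / 2 * L0), phi g c1 z = g z.re) :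
    ∃ C' : ℝ, 0 ≤ C' ∧ ∀ z ∈ Stp L0 (3 / 2 * L0),
      Real.exp (-phi g c1 z) * ‖fderiv ℝ (curv (phi g c1)) z‖ ≤
        C' * |curv (phi g c1) z| ^ (39 / 40 : ℝ) := by
  have hJ : IsOpen (Ioo (-(7 / 2 * L0)) (9 / 2 * L0)) := isOpen_Ioo
  have d1 := (contDiffOn_infty_iff_deriv_of_isOpen hJ).1 hg.smooth
  have d2 := (contDiffOn_infty_iff_deriv_of_isOpen hJ).1 d1.2
  have d3 := (contDiffOn_infty_iff_deriv_of_isOpen hJ).1 d2.2
  have hI : Icc (-(3 / 2 * L0)) (5 / 2 * L0) ⊆ Ioo (-(7 / 2 * L0)) (9 / 2 * L0) := by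
    rintro x ⟨hx1, hx2⟩
    refine ⟨?_, ?_⟩
    · linarith
    · linarith
  have hcpt : IsCompact (Icc (-(3 / 2 * L0)) (5 / 2 * L0)) := isCompact_Icc
  obtain ⟨B0, hB0⟩ := hcpt.exists_bound_of_continuousOn (hg.smooth.continuousOn.mono hI)
  obtain ⟨B1, hB1⟩ := hcpt.exists_bound_of_continuousOn (d1.2.continuousOn.mono hI)
  obtain ⟨B2, hB2⟩ := hcpt.exists_bound_of_continuousOn (d2.2.continuousOn.mono hI)
  set B : ℝ := max 1 (max B0 (max B1 B2)) with hB
  have hb1 : 1 ≤ B := le_max_left _ _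
  have hb0 : B0 ≤ B := (le_max_left _ _).trans (le_max_right _ _)
  have hb1' : B1 ≤ B := (le_max_left _ _).trans ((le_max_right _ _).trans (le_max_right _ _))
  have hb2 : B2 ≤ B := (le_max_right _ _).trans ((le_max_right _ _).trans (le_max_right _ _))
  refine ⟨Real.exp (3 * B) * (2 * B * B ^ (1 / 40 : ℝ) + |C|) *
    (Real.exp (-2 * B) ^ (39 / 40 : ℝ))⁻¹, by positivity, ?_⟩
  intro z hz
  have hzI : z.re ∈ Icc (-(3 / 2 * L0)) (5 / 2 * L0) := by
    refine ⟨hz.1.le, ?_⟩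
    have := hz.2
    linarith
  have hzJ := hI hzI
  have e1 : HasDerivAt g (deriv g z.re) z.re :=
    (d1.1.differentiableAt (hJ.mem_nhds hzJ)).hasDerivAt
  have e3 : HasDerivAt (deriv (deriv g)) (deriv (deriv (deriv g)) z.re) z.re :=
    (d3.1.differentiableAt (hJ.mem_nhds hzJ)).hasDerivAt
  have hK : HasDerivAt (fun x => -(Real.exp (-2 * g x) * deriv (deriv g) x))
      (Real.exp (-2 * g z.re) * (2 * deriv g z.re * deriv (deriv g) z.re -
        deriv (deriv (deriv g)) z.re)) z.re := by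
    have h1 := (((e1.const_mul (-2)).exp).mul e3).neg
    refine h1.congr_deriv ?_
    ring
  have hev : curv (phi g c1) =ᶠ[𝓝 z] fun w => -(Real.exp (-2 * g w.re) * deriv (deriv g) w.re) := by
    filter_upwards [(stp_open L0 (3 / 2 * L0)).mem_nhds hz] with w hw
    exact h31 w hw
  rw [fderiv_re _ _ z _ hK hev, h31 z hz, hrot z hz]
  have hder : |deriv (deriv (deriv g)) z.re| ≤ C * (deriv (deriv g) z.re) ^ (39 / 40 : ℝ) := by
    apply hg.der
    rw [abs_le]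
    refine ⟨?_, ?_⟩
    · linarith [hzI.1]
    · linarith [hzI.2]
  have k0 := (hB0 _ hzI).trans hb0
  have k1 := (hB1 _ hzI).trans hb1'
  have k2 := (hB2 _ hzI).trans hb2
  rw [Real.norm_eq_abs] at k0 k1 k2
  exact est _ _ _ _ B C hb1 k0 k1 (hg.cvx _ hzJ) ((le_abs_self _).trans k2) hder

/-- the surface belongs to the class -/
theorem clsE2 {G : ℝ → ℝ} {c C : ℝ} (hg : Prof2 G c C) {M P : Type} [MetricSpace M] [CompactSpace M]
    [MetricSpace P] [CompactSpace P] {pr : ℂ → M} {q : Y → P} (hpr : PrM Om ac pr)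
    (hut : IsUT Om (phi G c) pr q) : ∃ C' : ℝ, Cls2 Om (phi G c) pr L0 (1 / 2 * L0) (3 / 2 * L0)
      (lam ^ 2 * Real.exp (-2 * c)) C' (L0 / 2) G := by
  have hW := tW
  have hA := tAc
  have hD := tDisc
  have hC := tCol
  have hInv := tInv
  have hL : 0 < L0 := hW.1
  have hlam : 0 < lam := hW.2.1
  obtain ⟨p1, p2, p3, p4⟩ := phi1W hg.profW
  obtain ⟨h31, h32⟩ := phi3W hg.profW
  have hκ : 0 < lam ^ 2 * Real.exp (-2 * c) := by positivity
  have hsub : Stp L0 (3 / 2 * L0) ⊆ Om := Pool.Agent.Y868.EX.stp_sub hL _ le_rfl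
  have hmono : Stp L0 (1 / 2 * L0) ⊆ Stp L0 (3 / 2 * L0) := Pool.Agent.Y868.EX.stp_mono (by linarith)
  have hprac : ∀ z ∈ Om, ∀ γ : Gq, pr (ac γ z) = pr z := by
    intro z hz γ
    exact ((hpr.rel z hz _ (hA.1 γ z hz).1).2 ⟨γ, rfl⟩).symm
  have hcurv : ∀ z ∈ Om, ∀ γ : Gq, curv (phi G c) z = curv (phi G c) (ac γ z) ∧
      Real.exp (-phi G c z) * ‖fderiv ℝ (curv (phi G c)) z‖ =
        Real.exp (-phi G c (ac γ z)) * ‖fderiv ℝ (curv (phi G c)) (ac γ z)‖ := by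
    intro z hz γ
    exact hInv M P Om (phi G c) pr q hut z hz _ (hA.1 γ z hz).1 (hprac z hz γ).symm
  have hex : ∀ z ∈ Om, -(lam ^ 2 * Real.exp (-2 * c)) < curv (phi G c) z →
      ∃ γ : Gq, ac γ z ∈ Stp L0 (1 / 2 * L0) := by
    intro z hz hlt
    by_contra hno
    push Not at hno
    rw [h32 z hz hno] at hlt
    exact lt_irrefl _ hlt
  obtain ⟨C', hC'0, hC'⟩ := collar_der2 hL G c C hg h31 p2
  refine ⟨C', ?_⟩
  constructor
  · exact hL
  · linarith
  · linarith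
  · exact hκ
  · linarith
  · linarith
  · exact hsub
  · exact p2
  · exact hg.g0
  · exact hg.g1
  · -- per
    intro z hz
    obtain ⟨t, ht⟩ := hC.2
    have h5 := hprac z (hsub hz) t
    rw [ht z (hsub hz)] at h5
    exact h5
  · -- inj
    intro z hz w hw hzw
    obtain ⟨γ, hγ⟩ := (hpr.rel z (hsub hz) w (hsub hw)).1 hzw
    obtain ⟨n, hn⟩ := hC.1 z hz γ (by rw [hγ]; exact hw)
    refine ⟨n, ?_⟩
    rw [← hγ]
    exact hn z (hsub hz)
  · -- neg
    intro z hz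
    by_cases hlt : -(lam ^ 2 * Real.exp (-2 * c)) < curv (phi G c) z
    · obtain ⟨γ, hγ⟩ := hex z hz hlt
      rw [(hcurv z hz γ).1, h31 _ (hmono hγ)]
      have h6 := hg.cvx (ac γ z).re (hA.1 γ z hz).1
      have h7 : 0 ≤ Real.exp (-2 * G (ac γ z).re) * deriv (deriv G) (ac γ z).re :=
        mul_nonneg (Real.exp_pos _).le h6
      linarith
    · push Not at hlt
      linarith
  · -- low
    intro z hz hlt
    obtain ⟨γ, hγ⟩ := hex z hz hlt
    exact ⟨ac γ z, hγ, hprac z hz γ⟩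
  · -- zero
    intro z hz h0
    obtain ⟨γ, hγ⟩ := hex z hz (by rw [h0]; linarith)
    have h6 : deriv (deriv G) (ac γ z).re = 0 := by
      have h7 := (hcurv z hz γ).1
      rw [h0, h31 _ (hmono hγ)] at h7
      have h8 : Real.exp (-2 * G (ac γ z).re) * deriv (deriv G) (ac γ z).re = 0 := by linarith
      rcases mul_eq_zero.1 h8 with h9 | h9
      · exact absurd h9 (Real.exp_pos _).ne'
      · exact h9
    have h9 := hg.zero (ac γ z).re (hA.1 γ z hz).1 h6
    exact ⟨ac γ z, h9, hprac z hz γ⟩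
  · -- der
    intro z hz
    by_cases hex' : ∃ γ : Gq, ac γ z ∈ Stp L0 (3 / 2 * L0)
    · obtain ⟨γ, hγ⟩ := hex'
      rw [(hcurv z hz γ).2, (hcurv z hz γ).1]
      exact hC' _ hγ
    · push Not at hex'
      have hev : curv (phi G c) =ᶠ[𝓝 z] fun _ => -(lam ^ 2 * Real.exp (-2 * c)) := by
        filter_upwards [near hW hA hD hC z hz hex', om_open.mem_nhds hz] with w hw hwO
        exact h32 w hwO hw
      have h6 : fderiv ℝ (curv (phi G c)) z = 0 := by
        rw [hev.fderiv_eq]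
        simp
      rw [h6, norm_zero, mul_zero]
      positivity
  · exact hpr.conn

end Pool.Agent.H240.CG
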