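import Pool.Graph.R_seed8.Y262.EX.All2

/-!
# Surfaces of negative curvature outside of one closed geodesic: ergodicity, statements
-/

set_option autoImplicit false

open Set Filter Topology MeasureTheory
open scoped ContDiff

noncomputable section

namespace Pool.Agent.H240.CG

open Pool.Agent.Y262.EG

/-- The class of surfaces (compare `Pool.Agent.Y262.EG.Cls`): the curvature is nonpositive, it vanishes
exactly on the closed geodesic `Re z = x0`; the metric is `exp (2 g (Re z)) |dz|²` on the cylinder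
`- δ' < Re z < L + δ'` (`z` modulo `2πi`), the curvature is at most `- κ` outside the cylinder
`- δ < Re z < L + δ`, and it vanishes of high order on the closed geodesic. -/
structure Cls2 {M : Type} [TopologicalSpace M] (Ω : Set ℂ) (φ : ℂ → ℝ) (pr : ℂ → M)
    (L δ δ' κ C x0 : ℝ) (g : ℝ → ℝ) : Prop where
  posL : 0 < L
  posδ : 0 < δ
  ltδ : δ < δ'
  posκ : 0 < κ
  x0p : 0 < x0
  x0L : x0 < L
  strip : Stp L δ' ⊆ Ω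
  rot : ∀ z ∈ Stp L δ', φ z = g z.re
  g0 : g x0 = 0
  g1 : HasDerivAt g 0 x0
  per : ∀ z ∈ Stp L δ', pr (z + 2 * Real.pi * Complex.I) = pr z
  inj : ∀ z ∈ Stp L δ', ∀ w ∈ Stp L δ', pr z = pr w →
    ∃ n : ℤ, w = z + n * (2 * Real.pi * Complex.I)
  neg : ∀ z ∈ Ω, curv φ z ≤ 0
  low : ∀ z ∈ Ω, -κ < curv φ z → ∃ w ∈ Stp L δ, pr w = pr z
  zero : ∀ z ∈ Ω, curv φ z = 0 → ∃ w : ℂ, w.re = x0 ∧ pr w = pr z
  der : ∀ z ∈ Ω, Real.exp (-φ z) * ‖fderiv ℝ (curv φ) z‖ ≤ C * |curv φ z| ^ (39 / 40 : ℝ)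
  conn : IsPreconnected (univ : Set M)

/-- Clairaut: an orbit which stays long in the cylinder is almost parallel to the closed geodesic -/
def StClair2 : Prop :=
  ∀ (Ω : Set ℂ) (φ : ℂ → ℝ) (L δ δ' x0 : ℝ) (g : ℝ → ℝ), IsOpen Ω → ContDiffOn ℝ ∞ φ Ω →
    0 < L → 0 < δ → δ < δ' → 0 < x0 → x0 < L → Stp L δ' ⊆ Ω → (∀ z ∈ Stp L δ', φ z = g z.re) →
    g x0 = 0 → HasDerivAt g 0 x0 → (∀ z ∈ Stp L δ', curv φ z ≤ 0) →
    ∃ C : ℝ, ∀ Fl : ℝ → Y → Y, IsGeo Ω φ Fl → ∀ l : ℝ, 1 ≤ l → ∀ p ∈ YO Ω,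
      (∀ t ∈ Icc 0 l, (Fl t p).1 ∈ Stp L δ) →
      |Real.exp (g p.1.re) * (|Real.sin p.2|) - 1| ≤ C / l

/-- the curvature on the unit tangent bundle -/
def StKP2 : Prop :=
  ∀ (M P : Type) [MetricSpace M] [CompactSpace M] [MetricSpace P] [CompactSpace P]
    (Ω : Set ℂ) (φ : ℂ → ℝ) (pr : ℂ → M) (q : Y → P) (L δ δ' κ C x0 : ℝ) (g : ℝ → ℝ),
    IsUT Ω φ pr q → Cls2 Ω φ pr L δ δ' κ C x0 g →
    (∀ p ∈ YO Ω, kP Ω φ q (q p) = -curv φ p.1 ∧ dW Ω q (HH φ) (kP Ω φ q) (q p) =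
      -fderiv ℝ (curv φ) p.1 (HH φ p).1) ∧
    AcP Ω q (kP Ω φ q) ∧ (∀ x, 0 ≤ kP Ω φ q x) ∧ (∀ x, dW Ω q (fun _ => VV) (kP Ω φ q) x = 0) ∧
    ∀ x, |dW Ω q (HH φ) (kP Ω φ q) x| ≤ C * (kP Ω φ q x) ^ (39 / 40 : ℝ)

/-- few vectors stay long in the region of small curvature -/
def StClP2 : Prop :=
  ∀ (M P : Type) [MetricSpace M] [CompactSpace M] [MetricSpace P] [CompactSpace P]
    [MeasurableSpace P] [BorelSpace P] (Ω : Set ℂ) (φ : ℂ → ℝ) (pr : ℂ → M) (q : Y → P)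
    (m : Measure P) (Fl : ℝ → Y → Y) (L δ δ' κ C x0 : ℝ) (g : ℝ → ℝ), IsUT Ω φ pr q →
    IsLiou Ω φ q m → IsGeo Ω φ Fl → Cls2 Ω φ pr L δ δ' κ C x0 g →
    ∃ C' : ℝ, ∀ l : ℝ, 1 ≤ l →
      m {x | ∀ t ∈ Icc 0 l, kP Ω φ q (FlP Ω q Fl t x) < κ} ≤ ENNReal.ofReal (C' / Real.sqrt l)

/-- the unit tangent bundle satisfies the hypotheses of the abstract theorem -/
def StPk2 : Prop :=
  ∀ (M P : Type) [MetricSpace M] [CompactSpace M] [MetricSpace P] [CompactSpace P]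
    [MeasurableSpace P] [BorelSpace P] (Ω : Set ℂ) (φ : ℂ → ℝ) (pr : ℂ → M) (q : Y → P)
    (m : Measure P) (Fl : ℝ → Y → Y) (L δ δ' κ C x0 : ℝ) (g : ℝ → ℝ), IsUT Ω φ pr q →
    IsLiou Ω φ q m → IsGeo Ω φ Fl → Cls2 Ω φ pr L δ δ' κ C x0 g →
    ∃ c c1 s s1 : ℝ → P → ℝ, Pk m (FlP Ω q Fl) (AcP Ω q) (dW Ω q (XX φ)) (dW Ω q (HH φ))
      (dW Ω q fun _ => VV) (kP Ω φ q) c c1 s s1

/-- the constants on the two sides of the closed geodesic agree -/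
def StCross2 : Prop :=
  ∀ (M P : Type) [MetricSpace M] [CompactSpace M] [MetricSpace P] [CompactSpace P]
    (Ω : Set ℂ) (φ : ℂ → ℝ) (pr : ℂ → M) (q : Y → P)
    (Fl : ℝ → Y → Y) (L δ δ' κ C x0 : ℝ) (g : ℝ → ℝ), IsUT Ω φ pr q →
    IsGeo Ω φ Fl → Cls2 Ω φ pr L δ δ' κ C x0 g →
    ∀ f : P → ℝ, (∀ t, ∀ p ∈ YO Ω, f (q (Fl t p)) = f (q p)) →
    ∀ a : M → ℝ, LocC Ω φ pr q f a → ∀ z ∈ Stp L δ', ∀ w ∈ Stp L δ', z.re ≠ x0 → w.re ≠ x0 →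
      curv φ z < 0 ∧ a (pr z) = a (pr w)

/-- a locally constant invariant function is constant -/
def StGlob2 : Prop :=
  ∀ (M P : Type) [MetricSpace M] [CompactSpace M] [MetricSpace P] [CompactSpace P]
    [MeasurableSpace P] [BorelSpace P] (Ω : Set ℂ) (φ : ℂ → ℝ) (pr : ℂ → M) (q : Y → P)
    (m : Measure P) (Fl : ℝ → Y → Y) (L δ δ' κ C x0 : ℝ) (g : ℝ → ℝ), IsUT Ω φ pr q →
    IsLiou Ω φ q m → IsGeo Ω φ Fl → Cls2 Ω φ pr L δ δ' κ C x0 g →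
    ∀ f : P → ℝ, Measurable f → (∀ t x, f (FlP Ω q Fl t x) = f x) →
    (∀ p0 ∈ YO Ω, curv φ p0.1 < 0 → ∃ (r a : ℝ), 0 < r ∧ Metric.ball p0 r ⊆ YO Ω ∧
      ∀ᵐ p ∂volume.restrict (Metric.ball p0 r), f (q p) = a) →
    ∃ a : ℝ, ∀ᵐ x ∂m, f x = a

/-- the geodesic flow of a surface of the class is ergodic -/
def StErg2 : Prop :=
  ∀ (M P : Type) [MetricSpace M] [CompactSpace M] [MetricSpace P] [CompactSpace P]
    [MeasurableSpace P] [BorelSpace P] (Ω : Set ℂ) (φ : ℂ → ℝ) (pr : ℂ → M) (q : Y → P)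
    (m : Measure P) (Fl : ℝ → Y → Y) (L δ δ' κ C x0 : ℝ) (g : ℝ → ℝ), IsUT Ω φ pr q →
    IsLiou Ω φ q m → IsGeo Ω φ Fl → Cls2 Ω φ pr L δ δ' κ C x0 g → Erg Ω q m Fl

end Pool.Agent.H240.CG
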