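import Pool.Agent.H240.CG.Pk

/-!
# Perturbation of the profile
-/

set_option autoImplicit false
set_option linter.unusedSectionVars false

open Set Filter Topology MeasureTheory
open scoped ContDiff Real

noncomputable section

namespace Pool.Agent.H240.CG

open Pool.Agent.Y262.EG Pool.Agent.Y262.EX Pool.Agent.H240.SG

/-- `G'` is a perturbation of the profile `G` of size `ρ` in the `C ^ N` norm -/
structure Cls' (G G' : ℝ → ℝ) (ρ : ℝ) (N : ℕ) (p : ℝ → ℝ) (e : ℝ) : Prop where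
  eq : ∀ x, G' x = G x + p x
  sm : ContDiff ℝ ∞ p
  bd : ∀ n ≤ N, ∀ x, |iteratedDeriv n p x| ≤ ρ
  far : ∀ x, 9 / 10 * L0 ≤ |x - L0 / 2| → p x = e
  low : ∀ x, |x - L0 / 2| < 4 / 5 * L0 → (1 - ρ) * deriv (deriv G) x ≤ deriv (deriv G') x

section

variable {g X G : ℝ → ℝ} {c1 C0 c r m C : ℝ}

theorem rp1 {s : ℝ} (hs : |s| ≤ 1 / 2) {y : ℝ} (hy : 0 ≤ y) :
    (1 + s) * y ^ (39 / 40 : ℝ) ≤ (1 + |s|) * ((1 + s) * y) ^ (39 / 40 : ℝ) := by
  have hs' := abs_le.1 hs
  have h1s : 0 < 1 + s := by linarith [hs'.1]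
  have hy0 : 0 ≤ y ^ (39 / 40 : ℝ) := Real.rpow_nonneg hy _
  have a0 : 0 ≤ (1 + s) ^ (39 / 40 : ℝ) := Real.rpow_nonneg h1s.le _
  rw [Real.mul_rpow h1s.le hy, ← mul_assoc]
  refine mul_le_mul_of_nonneg_right ?_ hy0
  have a4 : (1 + s) = (1 + s) ^ (1 / 40 : ℝ) * (1 + s) ^ (39 / 40 : ℝ) := by
    rw [← Real.rpow_add h1s]
    norm_num
  have a5 : (1 + s) ^ (1 / 40 : ℝ) ≤ 1 + |s| := by
    have hb : 1 + s ≤ 1 + |s| := by linarith [le_abs_self s]
    have hc : 1 ≤ 1 + |s| := by linarith [abs_nonneg s]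
    calc (1 + s) ^ (1 / 40 : ℝ) ≤ (1 + |s|) ^ (1 / 40 : ℝ) :=
          Real.rpow_le_rpow h1s.le hb (by norm_num)
      _ ≤ (1 + |s|) ^ (1 : ℝ) := Real.rpow_le_rpow_of_exponent_le hc (by norm_num)
      _ = 1 + |s| := Real.rpow_one _
  calc 1 + s = (1 + s) ^ (1 / 40 : ℝ) * (1 + s) ^ (39 / 40 : ℝ) := a4
    _ ≤ (1 + |s|) * (1 + s) ^ (39 / 40 : ℝ) := mul_le_mul_of_nonneg_right a5 a0

theorem rp2 {δ : ℝ} (hδ : 0 < δ) {y : ℝ} (hy : 0 ≤ y) :
    δ * y ^ (39 / 40 : ℝ) = δ ^ (1 / 40 : ℝ) * (δ * y) ^ (39 / 40 : ℝ) := by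
  rw [Real.mul_rpow hδ.le hy, ← mul_assoc, ← Real.rpow_add hδ]
  norm_num

theorem pert (hX : Cut X) (h : PK g G c r m C) {r' : ℝ} (hr0 : 0 < r')
    (hr' : r' < r) {ρ : ℝ} (hρ : 0 < ρ) (hρ1 : ρ ≤ 1 / 2) (hρm : ρ < m) (N : ℕ) :
    ∃ (G1 : ℝ → ℝ) (c' s0 : ℝ), 0 < s0 ∧ ∀ s : ℝ, |s| < s0 →
      PK g (fun x => G1 x + s * et G1 X 1 x) (c' + s) r' (m - ρ) (C + ρ) ∧
      ∃ (p : ℝ → ℝ) (e : ℝ), Cls' G (fun x => G1 x + s * et G1 X 1 x) ρ N p e ∧ c' + s = c + e := by
  have h0 := L0p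
  have hrL := h.rL
  obtain ⟨B, D, hB, hD, hBf, hBc, hBz, hBd⟩ := bfun_ex (L0 / 2) r' L0 hr0
  have hBs : ContDiffOn ℝ ∞ B I0 := hB.contDiffOn
  -- the three directions
  have w1 : ContDiff ℝ ∞ (et B X 1) := et_cd hBs hX 1
  have w2 : ContDiff ℝ ∞ (et G X 1) := et_cd h.sm hX 1
  have w3 : ContDiff ℝ ∞ fun x => et B X 1 x * X x := w1.mul hX.sm
  obtain ⟨K1, hK1, k1⟩ := bdd_der w1 (c := 1) (fun x hx => et_far hX hx) (max N 2)
  obtain ⟨K2, hK2, k2⟩ := bdd_der w2 (c := 1) (fun x hx => et_far hX hx) (max N 2)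
  obtain ⟨K3, hK3, k3⟩ := bdd_der w3 (c := 0) (fun x hx => by rw [hX.zer x hx, mul_zero]) (max N 2)
  set K : ℝ := K1 + K2 + K3 + 1 with hK
  have hKp : 0 < K := by positivity
  have hC := h.Cp
  set δ : ℝ := min 1 (min (ρ / (3 * K)) ((ρ / (8 * (D + 1))) ^ 40)) with hδ
  have hδ0 : 0 < δ := by positivity
  have hδ1 : δ ≤ 1 := min_le_left _ _
  have hδ2 : δ ≤ ρ / (3 * K) := (min_le_right _ _).trans (min_le_left _ _)
  have hδ3 : δ ≤ (ρ / (8 * (D + 1))) ^ 40 := (min_le_right _ _).trans (min_le_right _ _)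
  have hδ4 : D * δ ^ (1 / 40 : ℝ) ≤ ρ / 8 := by
    have e1 : δ ^ (1 / 40 : ℝ) ≤ ρ / (8 * (D + 1)) := by
      have e2 : 0 ≤ ρ / (8 * (D + 1)) := by positivity
      calc δ ^ (1 / 40 : ℝ) ≤ ((ρ / (8 * (D + 1))) ^ 40) ^ (1 / 40 : ℝ) :=
            Real.rpow_le_rpow hδ0.le hδ3 (by norm_num)
        _ = ρ / (8 * (D + 1)) := by
            rw [← Real.rpow_natCast, ← Real.rpow_mul e2]
            norm_num
    have e3 : D * δ ^ (1 / 40 : ℝ) ≤ D * (ρ / (8 * (D + 1))) := mul_le_mul_of_nonneg_left e1 hD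
    refine e3.trans ?_
    rw [mul_div_assoc', div_le_div_iff₀ (by positivity) (by positivity)]
    nlinarith
  set s0 : ℝ := min (1 / 2) (min (ρ / (3 * K)) (ρ / (2 * (C + 1)))) with hs0
  have hs00 : 0 < s0 := by positivity
  set G1 : ℝ → ℝ := fun x => G x + δ * et B X 1 x with hG1
  refine ⟨G1, c + δ, s0, hs00, fun s hs => ?_⟩
  have hsa : |s| ≤ 1 / 2 := hs.le.trans (min_le_left _ _)
  have hsb : |s| ≤ ρ / (3 * K) := hs.le.trans ((min_le_right _ _).trans (min_le_left _ _))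
  have hsc : |s| ≤ ρ / (2 * (C + 1)) := hs.le.trans ((min_le_right _ _).trans (min_le_right _ _))
  have hs' := abs_le.1 hsa
  have h1s : 0 < 1 + s := by linarith [hs'.1]
  have hsρ : |s| ≤ ρ := by
    refine hsb.trans ?_
    rw [div_le_iff₀ (by positivity)]
    nlinarith
  set F : ℝ → ℝ := fun x => G1 x + s * et G1 X 1 x with hF
  set p : ℝ → ℝ := fun x => δ * et B X 1 x + s * et G X 1 x + (s * δ) * (et B X 1 x * X x) with hp
  have hFp : ∀ x, F x = G x + p x := by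
    intro x
    simp only [hF, hp, hG1, et]
    ring
  have hpsm : ContDiff ℝ ∞ p :=
    ((contDiff_const.mul w1).add (contDiff_const.mul w2)).add (contDiff_const.mul w3)
  have hpb : ∀ n ≤ max N 2, ∀ x, |iteratedDeriv n p x| ≤ ρ := by
    intro n hn x
    have e1 : iteratedDeriv n p x = δ * iteratedDeriv n (et B X 1) x +
        s * iteratedDeriv n (et G X 1) x +
        (s * δ) * iteratedDeriv n (fun x => et B X 1 x * X x) x := by
      have n1 : ContDiffAt ℝ n (fun x => δ * et B X 1 x) x :=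
        ((contDiff_const.mul w1).of_le (by exact_mod_cast le_top)).contDiffAt
      have n2 : ContDiffAt ℝ n (fun x => s * et G X 1 x) x :=
        ((contDiff_const.mul w2).of_le (by exact_mod_cast le_top)).contDiffAt
      have n3 : ContDiffAt ℝ n (fun x => (s * δ) * (et B X 1 x * X x)) x :=
        ((contDiff_const.mul w3).of_le (by exact_mod_cast le_top)).contDiffAt
      have n12 : ContDiffAt ℝ n (fun x => δ * et B X 1 x + s * et G X 1 x) x := n1.add n2
      rw [hp, iteratedDeriv_fun_add n12 n3, iteratedDeriv_fun_add n1 n2,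
        iteratedDeriv_const_mul_field, iteratedDeriv_const_mul_field,
        iteratedDeriv_const_mul_field]
    rw [e1]
    have b1 := k1 n hn x
    have b2 := k2 n hn x
    have b3 := k3 n hn x
    have t1 : |δ * iteratedDeriv n (et B X 1) x| ≤ ρ / (3 * K) * K := by
      rw [abs_mul, abs_of_pos hδ0]
      exact mul_le_mul hδ2 (b1.trans (by linarith)) (abs_nonneg _) (by positivity)
    have t2 : |s * iteratedDeriv n (et G X 1) x| ≤ ρ / (3 * K) * K := by
      rw [abs_mul]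
      exact mul_le_mul hsb (b2.trans (by linarith)) (abs_nonneg _) (by positivity)
    have t3 : |(s * δ) * iteratedDeriv n (fun x => et B X 1 x * X x) x| ≤ ρ / (3 * K) * K := by
      rw [abs_mul, abs_mul, abs_of_pos hδ0]
      refine mul_le_mul ?_ (b3.trans (by linarith)) (abs_nonneg _) (by positivity)
      calc |s| * δ ≤ |s| * 1 := mul_le_mul_of_nonneg_left hδ1 (abs_nonneg _)
        _ = |s| := mul_one _
        _ ≤ _ := hsb
    have t4 : ρ / (3 * K) * K = ρ / 3 := by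
      field_simp
    rw [t4] at t1 t2 t3
    refine (abs_add_le _ _).trans ?_
    have t5 := abs_add_le (δ * iteratedDeriv n (et B X 1) x) (s * iteratedDeriv n (et G X 1) x)
    linarith
  have hpfar : ∀ x, 9 / 10 * L0 ≤ |x - L0 / 2| → p x = δ + s := by
    intro x hx
    simp only [hp]
    rw [et_far hX hx, et_far hX hx, hX.zer x hx]
    ring
  -- the near part
  set O : Set ℝ := {x : ℝ | |x - L0 / 2| < 4 / 5 * L0} with hO'
  have hO : IsOpen O := isOpen_lt (by fun_prop) continuous_const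
  have hOI : O ⊆ I0 := fun x hx => mem_I0 (by
    have : |x - L0 / 2| < 4 / 5 * L0 := hx
    linarith)
  have hFn : ∀ x ∈ O, F x = (1 + s) * (G x + δ * B x) := by
    intro x hx
    have hx' : |x - L0 / 2| ≤ 4 / 5 * L0 := le_of_lt hx
    simp only [hF, hG1, et]
    rw [hX.one x hx']
    ring
  obtain ⟨D1, D2, D3⟩ := d_three hO hOI h.sm hB (1 + s) δ hFn
  -- the middle part
  have hF1 : ∀ x ∈ I0, F x = 1 * (G x + 1 * p x) := fun x _ => by rw [hFp x]; ring
  obtain ⟨-, M2, -⟩ := d_three I0_open (fun x hx => hx) h.sm hpsm 1 1 hF1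
  have hmid : ∀ x ∈ I0, deriv (deriv G) x - ρ ≤ deriv (deriv F) x := by
    intro x hx
    rw [M2 x hx]
    have h1 := hpb 2 (le_max_right _ _) x
    rw [iteratedDeriv_succ, iteratedDeriv_one] at h1
    have h2 := (abs_le.1 h1).1
    linarith
  have hlow : ∀ x ∈ O, (1 - ρ) * deriv (deriv G) x ≤ deriv (deriv F) x := by
    intro x hx
    rw [D2 x hx]
    have h1 := h.cvx x hx
    have h2 := hBc x
    have h3 := (abs_le.1 hsρ).1
    have h4 : 0 ≤ (1 + s) * (δ * deriv (deriv B) x) := by positivity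
    nlinarith
  refine ⟨⟨hr0, by linarith, by linarith, by linarith, ?_, ?_, ?_, ?_, ?_, ?_, ?_⟩, p, δ + s,
    ⟨hFp, hpsm, fun n hn => hpb n (hn.trans (le_max_left _ _)), hpfar, hlow⟩, by ring⟩
  · exact (h.sm.add hpsm.contDiffOn).congr fun x _ => hFp x
  · intro x hx
    show F x = _
    rw [hFp x, h.far x hx, hpfar x hx]
    ring
  · intro x hx
    have hxO : x ∈ O := by
      show |x - L0 / 2| < 4 / 5 * L0
      linarith
    show F x = 0
    rw [hFn x hxO, h.flat x (by linarith), hBf x hx]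
    ring
  · intro x hx
    show 0 ≤ deriv (deriv F) x
    rw [D2 x hx]
    have h1 := h.cvx x hx
    have h2 := hBc x
    positivity
  · intro x hx h00
    have h00' : deriv (deriv F) x = 0 := h00
    rw [D2 x hx] at h00'
    have h1 := h.cvx x hx
    have h2 := hBc x
    have h3 : deriv (deriv G) x + δ * deriv (deriv B) x = 0 := by
      rcases mul_eq_zero.1 h00' with h4 | h4
      · linarith
      · exact h4
    have h4 : 0 ≤ δ * deriv (deriv B) x := by positivity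
    have h5 : δ * deriv (deriv B) x = 0 := by linarith
    rcases mul_eq_zero.1 h5 with h6 | h6
    · linarith
    · exact hBz x h6
  · intro x h1 h2
    have h3 := hmid x (mem_I0 (by linarith))
    have h4 := h.mid x h1 h2
    show m - ρ ≤ deriv (deriv F) x
    linarith
  · intro x hx
    show |deriv (deriv (deriv F)) x| ≤ (C + ρ) * (deriv (deriv F) x) ^ (39 / 40 : ℝ)
    rw [D3 x hx, D2 x hx]
    have h1 := h.cvx x hx
    have h2 := hBc x
    have h3 := h.der x hx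
    have h4 := hBd x (by
      have : |x - L0 / 2| < 4 / 5 * L0 := hx
      linarith)
    set y := deriv (deriv G) x with hy
    set b := deriv (deriv B) x with hb
    set y3 := deriv (deriv (deriv G)) x with hy3
    set b3 := deriv (deriv (deriv B)) x with hb3
    have hδb : 0 ≤ δ * b := by positivity
    set T := ((1 + s) * (y + δ * b)) ^ (39 / 40 : ℝ) with hT
    have hT0 : 0 ≤ T := Real.rpow_nonneg (by positivity) _
    have u1 : (1 + s) * y ^ (39 / 40 : ℝ) ≤ (1 + |s|) * T := by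
      refine (rp1 hsa h1).trans (mul_le_mul_of_nonneg_left ?_ (by positivity))
      exact Real.rpow_le_rpow (by positivity) (by nlinarith) (by norm_num)
    have u2 : (1 + s) * (δ * b) ^ (39 / 40 : ℝ) ≤ (1 + |s|) * T := by
      refine (rp1 hsa hδb).trans (mul_le_mul_of_nonneg_left ?_ (by positivity))
      exact Real.rpow_le_rpow (by positivity) (by nlinarith) (by norm_num)
    have u3 : |(1 + s) * (y3 + δ * b3)| ≤ (1 + s) * |y3| + (1 + s) * (δ * |b3|) := by
      rw [abs_mul, abs_of_pos h1s, ← mul_add]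
      refine mul_le_mul_of_nonneg_left ?_ h1s.le
      refine (abs_add_le _ _).trans ?_
      rw [abs_mul, abs_of_pos hδ0]
    have u4 : (1 + s) * |y3| ≤ C * ((1 + |s|) * T) := by
      calc (1 + s) * |y3| ≤ (1 + s) * (C * y ^ (39 / 40 : ℝ)) :=
            mul_le_mul_of_nonneg_left h3 h1s.le
        _ = C * ((1 + s) * y ^ (39 / 40 : ℝ)) := by ring
        _ ≤ _ := mul_le_mul_of_nonneg_left u1 hC
    have u5 : (1 + s) * (δ * |b3|) ≤ (D * δ ^ (1 / 40 : ℝ)) * ((1 + |s|) * T) := by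
      have hd0 : 0 ≤ D * δ ^ (1 / 40 : ℝ) := mul_nonneg hD (Real.rpow_nonneg hδ0.le _)
      calc (1 + s) * (δ * |b3|) ≤ (1 + s) * (δ * (D * b ^ (39 / 40 : ℝ))) :=
            mul_le_mul_of_nonneg_left (mul_le_mul_of_nonneg_left h4 hδ0.le) h1s.le
        _ = (1 + s) * (D * (δ * b ^ (39 / 40 : ℝ))) := by ring
        _ = (D * δ ^ (1 / 40 : ℝ)) * ((1 + s) * (δ * b) ^ (39 / 40 : ℝ)) := by
            rw [rp2 hδ0 h2]
            ring
        _ ≤ _ := mul_le_mul_of_nonneg_left u2 hd0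
    have u6 : C * |s| ≤ ρ / 2 := by
      calc C * |s| ≤ C * (ρ / (2 * (C + 1))) := mul_le_mul_of_nonneg_left hsc hC
        _ ≤ ρ / 2 := by
            rw [mul_div_assoc', div_le_div_iff₀ (by positivity) (by positivity)]
            nlinarith
    have u7 : C * (1 + |s|) + (D * δ ^ (1 / 40 : ℝ)) * (1 + |s|) ≤ C + ρ := by
      have hd0 : 0 ≤ D * δ ^ (1 / 40 : ℝ) := mul_nonneg hD (Real.rpow_nonneg hδ0.le _)
      nlinarith [abs_nonneg s]
    calc |(1 + s) * (y3 + δ * b3)| ≤ C * ((1 + |s|) * T) +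
          (D * δ ^ (1 / 40 : ℝ)) * ((1 + |s|) * T) := by linarith
      _ = (C * (1 + |s|) + (D * δ ^ (1 / 40 : ℝ)) * (1 + |s|)) * T := by ring
      _ ≤ (C + ρ) * T := mul_le_mul_of_nonneg_right u7 hT0

end

end Pool.Agent.H240.CG
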