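import Pool.Agent.H240.SG.Base2

/-!
# The metric which belongs to an arbitrary profile

(Adapted from the library modules Y868.EX.Phi1, Y794.EX.Phi2 and Y993.EX.Phi3, for profiles which need
not be flat.)
-/

set_option autoImplicit false

open Set Filter Topology MeasureTheory
open scoped ContDiff ComplexConjugate Real

noncomputable section

namespace Pool.Agent.H240.CG

open Pool.Agent.Y262.EG Pool.Agent.Y262.EX

/-- a smooth profile, equal to the profile of the hyperbolic metric far from the centre -/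
structure ProfW (g : ℝ → ℝ) (c1 : ℝ) : Prop where
  smooth : ContDiffOn ℝ ∞ g (Ioo (-(7 / 2 * L0)) (9 / 2 * L0))
  hyp : ∀ x ∈ Ioo (-(7 / 2 * L0)) (9 / 2 * L0), L0 ≤ |x - L0 / 2| → g x = F0 x + c1

/-- the local form of the metric -/
theorem phi1W {g : ℝ → ℝ} {c1 : ℝ} (hg : ProfW g c1) :
    (∀ (γ : Gq), ∀ z ∈ Om, ac γ z ∈ Stp L0 (3 / 2 * L0) →
      phi g c1 z = F0 z.re + g (ac γ z).re - F0 (ac γ z).re) ∧
    (∀ z ∈ Stp L0 (3 / 2 * L0), phi g c1 z = g z.re) ∧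
    (∀ z ∈ Om, (∀ γ : Gq, ac γ z ∉ Stp L0 (1 / 2 * L0)) → phi g c1 z = F0 z.re + c1) ∧
    ∀ z ∈ Om, (∀ γ : Gq, ac γ z ∉ Stp L0 (3 / 2 * L0)) → ∀ᶠ w in 𝓝 z, phi g c1 w = F0 w.re + c1 := by
  have hW := tW
  have hA := tAc
  have hD := tDisc
  have hC := tCol
  have hL : 0 < L0 := hW.1
  have P1 : ∀ (γ : Gq), ∀ z ∈ Om, ac γ z ∈ Stp L0 (3 / 2 * L0) →
      phi g c1 z = F0 z.re + g (ac γ z).re - F0 (ac γ z).re := by
    intro γ z hz hγ
    have hex : ∃ γ : Gq, ac γ z ∈ Stp L0 (3 / 2 * L0) := ⟨γ, hγ⟩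
    unfold phi
    rw [dif_pos hex]
    rw [Pool.Agent.Y868.EX.same_re hL hA hC z hz γ hex.choose hγ hex.choose_spec]
  have P3 : ∀ z ∈ Om, (∀ γ : Gq, ac γ z ∉ Stp L0 (1 / 2 * L0)) →
      phi g c1 z = F0 z.re + c1 := by
    intro z hz hno
    by_cases hex : ∃ γ : Gq, ac γ z ∈ Stp L0 (3 / 2 * L0)
    · obtain ⟨γ, hγ⟩ := hex
      rw [P1 γ z hz hγ]
      have hx : (ac γ z).re ∈ Ioo (-(7 / 2 * L0)) (9 / 2 * L0) := (hA.1 γ z hz).1
      have habs : L0 ≤ |(ac γ z).re - L0 / 2| := by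
        have h1 := hno γ
        by_contra hlt
        push Not at hlt
        rw [abs_lt] at hlt
        apply h1
        refine ⟨?_, ?_⟩
        · linarith [hlt.1]
        · linarith [hlt.2]
      rw [hg.hyp _ hx habs]
      ring
    · unfold phi
      rw [dif_neg hex]
  refine ⟨P1, ?_, P3, ?_⟩
  · intro z hz
    have hz' : z ∈ Om := Pool.Agent.Y868.EX.stp_sub hL _ le_rfl hz
    have h1 : ac 1 z = z := hA.2 z hz'
    have h2 := P1 1 z hz' (by rw [h1]; exact hz)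
    rw [h2, h1]
    ring
  · intro z hz hno
    filter_upwards [Pool.Agent.Y868.EX.near hW hA hD hC z hz hno, Pool.Agent.Y868.EX.om_open.mem_nhds hz] with w hw hwO
    exact P3 w hwO hw

theorem smoothW {g : ℝ → ℝ} {c1 : ℝ} (hg : ProfW g c1) :
    ContDiffOn ℝ ∞ (phi g c1) Om := by
  have hW := tW
  have hA := tAc
  obtain ⟨p1, p2, p3, p4⟩ := phi1W hg
  intro z hz
  apply ContDiffAt.contDiffWithinAt
  have hOmz : Om ∈ 𝓝 z := Pool.Agent.Y794.EX.isOpen_Om.mem_nhds hz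
  have hF := (Pool.Agent.Y794.EX.cont_F0re hW).contDiffAt hOmz
  by_cases h : ∃ γ : Gq, ac γ z ∈ Stp L0 (3 / 2 * L0)
  · obtain ⟨γ, hγ⟩ := h
    have hac := (Pool.Agent.Y794.EX.cont_ac hA γ).contDiffAt hOmz
    have hm : ac γ z ∈ Om := (hA.1 γ z hz).1
    have hOmz' : Om ∈ 𝓝 (ac γ z) := Pool.Agent.Y794.EX.isOpen_Om.mem_nhds hm
    have hF' := ((Pool.Agent.Y794.EX.cont_F0re hW).contDiffAt hOmz').comp z hac
    have hg' := ((Pool.Agent.Y794.EX.cont_gre hg.smooth).contDiffAt hOmz').comp z hac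
    have hall := (hF.add hg').sub hF'
    refine hall.congr_of_eventuallyEq ?_
    have h1 : ∀ᶠ w in 𝓝 z, ac γ w ∈ Stp L0 (3 / 2 * L0) :=
      hac.continuousAt.eventually_mem ((Pool.Agent.Y794.EX.isOpen_Stp _ _).mem_nhds hγ)
    filter_upwards [h1, hOmz] with w hw1 hw2
    exact p1 γ w hw2 hw1
  · push Not at h
    have h1 := p4 z hz h
    exact (hF.add (contDiffAt_const (c := c1))).congr_of_eventuallyEq h1

theorem phi_outW {g : ℝ → ℝ} {c1 : ℝ} (hg : ProfW g c1) {z : ℂ}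
    (hz : z ∈ Om) (h : ∀ γ : Gq, ac γ z ∉ Stp L0 (3 / 2 * L0)) : phi g c1 z = F0 z.re + c1 :=
  (phi1W hg).2.2.1 z hz (fun γ hγ => h γ (Pool.Agent.Y794.EX.sub_Stp tW.1 hγ))

theorem phi2W {g : ℝ → ℝ} {c1 : ℝ} (hg : ProfW g c1) : Inva Om (phi g c1) ac ∧
    ∀ z ∈ Om, phi g c1 (conj z) = phi g c1 z := by
  have hW := tW
  have hA := tAc
  have hC := tConj
  obtain ⟨p1, p2, p3, p4⟩ := phi1W hg
  refine ⟨⟨smoothW hg, ?_⟩, ?_⟩
  · intro γ z hz
    obtain ⟨hm, -, hmul, hdiff, hne, hF⟩ := hA.1 γ z hz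
    refine ⟨hne, ?_⟩
    by_cases h : ∃ γ0 : Gq, ac γ0 z ∈ Stp L0 (3 / 2 * L0)
    · obtain ⟨γ0, hγ0⟩ := h
      have e1 : ac (γ0 * γ⁻¹) (ac γ z) = ac γ0 z := by
        rw [← hmul (γ0 * γ⁻¹), inv_mul_cancel_right]
      have e2 := p1 γ0 z hz hγ0
      have e3 := p1 (γ0 * γ⁻¹) (ac γ z) hm (by rw [e1]; exact hγ0)
      rw [e1] at e3
      rw [e2, e3]
      linarith
    · push Not at h
      have h' : ∀ γ' : Gq, ac γ' (ac γ z) ∉ Stp L0 (3 / 2 * L0) := by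
        intro γ'
        rw [← hmul γ']
        exact h _
      rw [phi_outW hg hz h, phi_outW hg hm h']
      linarith
  · intro z hz
    have hz' := hC.1 z hz
    by_cases h : ∃ γ0 : Gq, ac γ0 z ∈ Stp L0 (3 / 2 * L0)
    · obtain ⟨γ0, hγ0⟩ := h
      obtain ⟨γ', hγ'⟩ := hC.2 γ0
      have e0 := hγ' z hz
      have hre : (ac γ' (conj z)).re = (ac γ0 z).re := by rw [← e0, Complex.conj_re]
      have hm' : ac γ' (conj z) ∈ Stp L0 (3 / 2 * L0) := by
        obtain ⟨h1, h2⟩ := hγ0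
        exact ⟨by rw [hre]; exact h1, by rw [hre]; exact h2⟩
      rw [p1 γ0 z hz hγ0, p1 γ' (conj z) hz' hm', hre, Complex.conj_re]
    · have h2 : ∀ γ : Gq, ac γ (conj z) ∉ Stp L0 (3 / 2 * L0) := by
        intro γ hγ
        obtain ⟨γ', hγ'⟩ := hC.2 γ
        have e0 := hγ' (conj z) hz'
        rw [Complex.conj_conj] at e0
        apply h
        refine ⟨γ', ?_⟩
        have hre : (ac γ' z).re = (ac γ (conj z)).re := by rw [← e0, Complex.conj_re]
        obtain ⟨h1, h2⟩ := hγ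
        exact ⟨by rw [hre]; exact h1, by rw [hre]; exact h2⟩
      push Not at h
      rw [phi_outW hg hz h, phi_outW hg hz' h2, Complex.conj_re]

theorem phi3W {g : ℝ → ℝ} {c1 : ℝ} (hg : ProfW g c1) :
    (∀ z ∈ Stp L0 (3 / 2 * L0), curv (phi g c1) z =
      -(Real.exp (-2 * g z.re) * deriv (deriv g) z.re)) ∧
    ∀ z ∈ Om, (∀ γ : Gq, ac γ z ∉ Stp L0 (1 / 2 * L0)) →
      curv (phi g c1) z = -(lam ^ 2 * Real.exp (-2 * c1)) := by
  have hW := tW
  have hAc := tAc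
  have hG := tGerm
  obtain ⟨hL, hlam, -, -, -, -, hOm, -⟩ := hW
  obtain ⟨-, p2, p3, p4⟩ := phi1W hg
  obtain ⟨hInv, -⟩ := phi2W hg
  have hIo : IsOpen (Ioo (-(7 / 2 * L0)) (9 / 2 * L0)) := isOpen_Ioo
  have hcos : ∀ x ∈ Ioo (-(7 / 2 * L0)) (9 / 2 * L0), 0 < Real.cos (lam * (x - L0 / 2)) := by
    intro x hx
    have hz : (x : ℂ) ∈ Om := by
      show -(7 / 2 * L0) < (x : ℂ).re ∧ (x : ℂ).re < 9 / 2 * L0
      simpa using hx
    rw [hOm] at hz
    have hz' : |lam * (x - L0 / 2)| < π / 2 := by simpa using hz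
    exact Real.cos_pos_of_mem_Ioo ⟨by linarith [(abs_lt.mp hz').1], (abs_lt.mp hz').2⟩
  have hd1 : ContDiffOn ℝ ∞ (deriv g) (Ioo (-(7 / 2 * L0)) (9 / 2 * L0)) :=
    hg.smooth.deriv_of_isOpen hIo (by simp)
  have hd2 : ContDiffOn ℝ ∞ (deriv (deriv g)) (Ioo (-(7 / 2 * L0)) (9 / 2 * L0)) :=
    hd1.deriv_of_isOpen hIo (by simp)
  have hgd : ∀ x ∈ Ioo (-(7 / 2 * L0)) (9 / 2 * L0), DifferentiableAt ℝ g x := fun x hx =>
    (hg.smooth.differentiableOn (by simp)).differentiableAt (hIo.mem_nhds hx)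
  have hgd1 : ∀ x ∈ Ioo (-(7 / 2 * L0)) (9 / 2 * L0), DifferentiableAt ℝ (deriv g) x := fun x hx =>
    (hd1.differentiableOn (by simp)).differentiableAt (hIo.mem_nhds hx)
  have hgc2 : ∀ x ∈ Ioo (-(7 / 2 * L0)) (9 / 2 * L0), ContinuousAt (deriv (deriv g)) x :=
    fun x hx => hd2.continuousOn.continuousAt (hIo.mem_nhds hx)
  have hSO : IsOpen (Stp L0 (3 / 2 * L0)) := by
    have e : Stp L0 (3 / 2 * L0) = Complex.re ⁻¹' Ioo (-(3 / 2 * L0)) (L0 + 3 / 2 * L0) := rfl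
    rw [e]; exact isOpen_Ioo.preimage Complex.continuous_re
  have hA : ∀ z ∈ Stp L0 (3 / 2 * L0), curv (phi g c1) z =
      -(Real.exp (-2 * g z.re) * deriv (deriv g) z.re) := by
    intro z hz
    have hzI : z.re ∈ Ioo (-(7 / 2 * L0)) (9 / 2 * L0) := ⟨by linarith [hz.1], by linarith [hz.2]⟩
    refine Pool.Agent.Y993.EX.curv_re ?_ ?_ (hgd1 _ hzI)
    · filter_upwards [hSO.mem_nhds hz] with w hw using p2 w hw
    · filter_upwards [hIo.mem_nhds hzI] with x hx using hgd x hx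
  refine ⟨hA, ?_⟩
  -- the second derivative of the profile outside
  have hE : ∀ x ∈ Ioo (-(7 / 2 * L0)) (9 / 2 * L0), L0 < |x - L0 / 2| →
      deriv (deriv g) x = lam ^ 2 / Real.cos (lam * (x - L0 / 2)) ^ 2 := by
    intro x hx hx2
    have hev : g =ᶠ[𝓝 x] fun x => F0 x + c1 := by
      have hc : ContinuousAt (fun y => |y - L0 / 2|) x := by fun_prop
      filter_upwards [hIo.mem_nhds hx, hc.eventually (lt_mem_nhds hx2)] with y hy hy2
      exact hg.hyp y hy hy2.le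
    rw [hev.deriv.deriv_eq, Pool.Agent.Y993.EX.derderF (hcos x hx)]
  have hE' : ∀ x ∈ Ioo (-(7 / 2 * L0)) (9 / 2 * L0), L0 ≤ |x - L0 / 2| →
      deriv (deriv g) x = lam ^ 2 / Real.cos (lam * (x - L0 / 2)) ^ 2 := by
    intro x hx hx2
    have hcR : ContinuousAt (fun y => lam ^ 2 / Real.cos (lam * (y - L0 / 2)) ^ 2) x := by
      have := (hcos x hx).ne'
      have : Real.cos (lam * (x - L0 / 2)) ^ 2 ≠ 0 := by positivity
      fun_prop (disch := assumption)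
    rcases le_abs.mp hx2 with h | h
    · have hev : deriv (deriv g) =ᶠ[𝓝[>] x]
          fun y => lam ^ 2 / Real.cos (lam * (y - L0 / 2)) ^ 2 := by
        filter_upwards [mem_nhdsWithin_of_mem_nhds (hIo.mem_nhds hx), self_mem_nhdsWithin]
          with y hy hy2
        exact hE y hy (lt_abs.mpr (Or.inl (by linarith [show x < y from hy2])))
      exact tendsto_nhds_unique (((hgc2 x hx).tendsto.mono_left nhdsWithin_le_nhds).congr' hev)
        (hcR.tendsto.mono_left nhdsWithin_le_nhds)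
    · have hev : deriv (deriv g) =ᶠ[𝓝[<] x]
          fun y => lam ^ 2 / Real.cos (lam * (y - L0 / 2)) ^ 2 := by
        filter_upwards [mem_nhdsWithin_of_mem_nhds (hIo.mem_nhds hx), self_mem_nhdsWithin]
          with y hy hy2
        exact hE y hy (lt_abs.mpr (Or.inr (by linarith [show y < x from hy2])))
      exact tendsto_nhds_unique (((hgc2 x hx).tendsto.mono_left nhdsWithin_le_nhds).congr' hev)
        (hcR.tendsto.mono_left nhdsWithin_le_nhds)
  intro z hz hno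
  by_cases hno2 : ∀ γ : Gq, ac γ z ∉ Stp L0 (3 / 2 * L0)
  · have hzI : z.re ∈ Ioo (-(7 / 2 * L0)) (9 / 2 * L0) := hz
    rw [Pool.Agent.Y993.EX.curv_re (h := fun x => F0 x + c1) (p4 z hz hno2) ?_ ?_, Pool.Agent.Y993.EX.derderF (hcos _ hzI) c1,
      Pool.Agent.Y993.EX.expF (hcos _ hzI)]
    · filter_upwards [Pool.Agent.Y993.EX.cosnear (hcos _ hzI)] with y hy using (Pool.Agent.Y993.EX.dF hy c1).differentiableAt
    · exact ((Pool.Agent.Y993.EX.ddF (hcos _ hzI)).congr_of_eventuallyEq (Pool.Agent.Y993.EX.derF (hcos _ hzI) c1)).differentiableAt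
  · push Not at hno2
    obtain ⟨γ, hγ⟩ := hno2
    have hOmO : IsOpen Om := by
      have e : Om = Complex.re ⁻¹' Ioo (-(7 / 2 * L0)) (9 / 2 * L0) := rfl
      rw [e]; exact isOpen_Ioo.preimage Complex.continuous_re
    obtain ⟨r, hr, hball⟩ := Metric.isOpen_iff.mp hOmO z hz
    have hgm := (hG Om (phi g c1) z r (ac γ) hOmO hInv.1 hr hball
      (fun ζ hζ => ((hAc.1 γ ζ (hball hζ)).2.2.2.1).differentiableWithinAt)
      (fun ζ hζ => ⟨(hAc.1 γ ζ (hball hζ)).1, (hInv.2 γ ζ (hball hζ)).1,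
        (hInv.2 γ ζ (hball hζ)).2⟩)).1 z (Metric.mem_ball_self hr)
    rw [← hgm, hA _ hγ]
    have hzI : (ac γ z).re ∈ Ioo (-(7 / 2 * L0)) (9 / 2 * L0) :=
      ⟨by linarith [hγ.1], by linarith [hγ.2]⟩
    have hab : L0 ≤ |(ac γ z).re - L0 / 2| := by
      by_contra hcon
      push Not at hcon
      have := abs_lt.mp hcon
      exact hno γ ⟨by linarith [this.1], by linarith [this.2]⟩
    rw [hE' _ hzI hab, hg.hyp _ hzI hab, Pool.Agent.Y993.EX.expF (hcos _ hzI)]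

end Pool.Agent.H240.CG
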