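import Pool.Agent.H240.CG.PhiW
import Pool.Agent.H240.CG.Bfun

/-!
# Profiles which vanish on a short interval, and their perturbations
-/

set_option autoImplicit false
set_option linter.unusedSectionVars false

open Set Filter Topology MeasureTheory
open scoped ContDiff Real

noncomputable section

namespace Pool.Agent.H240.CG

open Pool.Agent.Y262.EG Pool.Agent.Y262.EX Pool.Agent.H240.SG

section

variable {g X G : ℝ → ℝ} {c1 C0 c r m C : ℝ}

theorem et_cd (hG : ContDiffOn ℝ ∞ G I0) (hX : Cut X) (c : ℝ) : ContDiff ℝ ∞ (et G X c) := by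
  have h0 := L0p
  rw [contDiff_iff_contDiffAt]
  intro x
  by_cases hx : x ∈ I0
  · have h1 : ContDiffAt ℝ ∞ G x := hG.contDiffAt (I0_open.mem_nhds hx)
    have h2 : ContDiffAt ℝ ∞ X x := hX.sm.contDiffAt
    exact (h1.mul h2).add (contDiffAt_const.mul (contDiffAt_const.sub h2))
  · have h1 : 9 / 10 * L0 < |x - L0 / 2| := by
      by_contra hcon
      push Not at hcon
      exact hx (mem_I0 (by linarith))
    have hO : IsOpen {x : ℝ | 9 / 10 * L0 < |x - L0 / 2|} := isOpen_lt continuous_const (by fun_prop)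
    refine (contDiffAt_const (c := c)).congr_of_eventuallyEq ?_
    filter_upwards [hO.mem_nhds h1] with y hy
    exact et_far hX (le_of_lt hy)

/-- functions which are constant far from the centre have bounded derivatives -/
theorem bdd_der {f : ℝ → ℝ} (hf : ContDiff ℝ ∞ f) {c : ℝ}
    (hc : ∀ x, 9 / 10 * L0 ≤ |x - L0 / 2| → f x = c) (N : ℕ) :
    ∃ K : ℝ, 0 ≤ K ∧ ∀ n ≤ N, ∀ x, |iteratedDeriv n f x| ≤ K := by
  have h0 := L0p
  have hone : ∀ n : ℕ, ∃ K : ℝ, 0 ≤ K ∧ ∀ x, |iteratedDeriv n f x| ≤ K := by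
    intro n
    have hcn : Continuous (iteratedDeriv n f) :=
      hf.continuous_iteratedDeriv n (by exact_mod_cast le_top)
    obtain ⟨K, hK⟩ := (isCompact_Icc (a := -L0) (b := 2 * L0)).exists_bound_of_continuousOn
      hcn.continuousOn
    refine ⟨max K |c|, (abs_nonneg c).trans (le_max_right _ _), fun x => ?_⟩
    by_cases hx : 9 / 10 * L0 < |x - L0 / 2|
    · have hO : IsOpen {x : ℝ | 9 / 10 * L0 < |x - L0 / 2|} :=
        isOpen_lt continuous_const (by fun_prop)
      have h1 : f =ᶠ[𝓝 x] fun _ => c := by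
        filter_upwards [hO.mem_nhds hx] with y hy
        exact hc y (le_of_lt hy)
      rw [h1.iteratedDeriv_eq n, iteratedDeriv_const]
      refine le_trans ?_ (le_max_right _ _)
      split_ifs
      · exact le_rfl
      · rw [abs_zero]
        exact abs_nonneg c
    · push Not at hx
      have h2 := abs_le.1 hx
      refine le_trans ?_ (le_max_left _ _)
      rw [← Real.norm_eq_abs]
      exact hK x ⟨by linarith [h2.1], by linarith [h2.2]⟩
  induction N with
  | zero =>
    obtain ⟨K, hK0, hK⟩ := hone 0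
    refine ⟨K, hK0, fun n hn x => ?_⟩
    obtain rfl : n = 0 := by omega
    exact hK x
  | succ N ih =>
    obtain ⟨K, hK0, hK⟩ := ih
    obtain ⟨K', hK0', hK'⟩ := hone (N + 1)
    refine ⟨max K K', hK0.trans (le_max_left _ _), fun n hn x => ?_⟩
    rcases Nat.lt_or_ge n (N + 1) with h | h
    · exact (hK n (by omega) x).trans (le_max_left _ _)
    · obtain rfl : n = N + 1 := by omega
      exact (hK' x).trans (le_max_right _ _)

/-- the derivative of a linear combination -/
theorem d_step {G B F : ℝ → ℝ} {O : Set ℝ} (hO : IsOpen O) (hG : ∀ x ∈ O, DifferentiableAt ℝ G x)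
    (hB : ∀ x ∈ O, DifferentiableAt ℝ B x) (a δ : ℝ) (hF : ∀ x ∈ O, F x = a * (G x + δ * B x)) :
    ∀ x ∈ O, deriv F x = a * (deriv G x + δ * deriv B x) := by
  intro x hx
  have h1 : F =ᶠ[𝓝 x] fun x => a * (G x + δ * B x) := by
    filter_upwards [hO.mem_nhds hx] with y hy
    exact hF y hy
  rw [h1.deriv_eq]
  exact (((hG x hx).hasDerivAt.add ((hB x hx).hasDerivAt.const_mul δ)).const_mul a).deriv

theorem diff_of {f : ℝ → ℝ} (hf : ContDiffOn ℝ ∞ f I0) {x : ℝ} (hx : x ∈ I0) :
    DifferentiableAt ℝ f x := (hf.contDiffAt (I0_open.mem_nhds hx)).differentiableAt (by simp)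

/-- the first three derivatives of a linear combination -/
theorem d_three {G B F : ℝ → ℝ} {O : Set ℝ} (hO : IsOpen O) (hOI : O ⊆ I0)
    (hG : ContDiffOn ℝ ∞ G I0) (hB : ContDiff ℝ ∞ B) (a δ : ℝ)
    (hF : ∀ x ∈ O, F x = a * (G x + δ * B x)) :
    (∀ x ∈ O, deriv F x = a * (deriv G x + δ * deriv B x)) ∧
    (∀ x ∈ O, deriv (deriv F) x = a * (deriv (deriv G) x + δ * deriv (deriv B) x)) ∧
    ∀ x ∈ O, deriv (deriv (deriv F)) x =
      a * (deriv (deriv (deriv G)) x + δ * deriv (deriv (deriv B)) x) := by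
  have g1 := deriv_smooth hG
  have g2 := deriv_smooth g1
  have b1 := (contDiff_infty_iff_deriv.1 hB).2
  have b2 := (contDiff_infty_iff_deriv.1 b1).2
  have h1 := d_step hO (fun x hx => diff_of hG (hOI hx))
    (fun x _ => (hB.differentiable (by simp)) x) a δ hF
  have h2 := d_step hO (fun x hx => diff_of g1 (hOI hx))
    (fun x _ => (b1.differentiable (by simp)) x) a δ h1
  have h3 := d_step hO (fun x hx => diff_of g2 (hOI hx))
    (fun x _ => (b2.differentiable (by simp)) x) a δ h2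
  exact ⟨h1, h2, h3⟩

/-- a convex profile is positive outside of its flat part -/
theorem pos_gen {a b : ℝ} (hab : a < b) (ha : a ∈ I0) (hb : b ∈ I0) (hsm : ContDiffOn ℝ ∞ G I0)
    (hcx : ∀ x ∈ I0, 0 ≤ deriv (deriv G) x)
    (hzr : ∀ x ∈ I0, deriv (deriv G) x = 0 → a ≤ x ∧ x ≤ b) (hfl : ∀ x, a ≤ x → x ≤ b → G x = 0)
    {x : ℝ} (hx : x ∈ I0) (hn : ¬ (a ≤ x ∧ x ≤ b)) : 0 < G x := by
  have hIn : interior I0 = I0 := I0_open.interior_eq
  have hcv : ConvexOn ℝ I0 G := by
    refine convexOn_of_deriv2_nonneg (D := I0) (convex_Ioo _ _) hsm.continuousOn ?_ ?_ ?_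
    · rw [hIn]
      exact hsm.differentiableOn (by simp)
    · rw [hIn]
      exact (deriv_smooth hsm).differentiableOn (by simp)
    · rw [hIn]
      exact fun y hy => hcx y hy
  have g0 : G a = 0 := hfl a le_rfl hab.le
  have gL : G b = 0 := hfl b hab.le le_rfl
  -- three points
  have three : ∀ u v w : ℝ, u ∈ I0 → w ∈ I0 → u < v → v < w →
      (w - u) * G v ≤ (w - v) * G u + (v - u) * G w := by
    intro u v w hu hw huv hvw
    have hwu : 0 < w - u := by linarith
    have q1 : 0 ≤ (w - v) / (w - u) := div_nonneg (by linarith) hwu.le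
    have q2 : 0 ≤ (v - u) / (w - u) := div_nonneg (by linarith) hwu.le
    have q3 : (w - v) / (w - u) + (v - u) / (w - u) = 1 := by
      field_simp
      ring
    have h1 := hcv.2 hu hw q1 q2 q3
    have h2 : ((w - v) / (w - u)) • u + ((v - u) / (w - u)) • w = v := by
      simp only [smul_eq_mul]
      field_simp
      ring
    rw [h2] at h1
    simp only [smul_eq_mul] at h1
    have h3 := mul_le_mul_of_nonneg_left h1 hwu.le
    have h4 : (w - u) * ((w - v) / (w - u) * G u + (v - u) / (w - u) * G w) =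
        (w - v) * G u + (v - u) * G w := by
      field_simp
    rwa [h4] at h3
  rcases lt_or_ge x a with hx0 | hx0
  · have h1 := three x a b hx hb hx0 hab
    rw [g0, gL] at h1
    have h2 : 0 ≤ G x := by
      by_contra hcon
      push Not at hcon
      nlinarith
    rcases eq_or_lt_of_le h2 with h3 | h3
    swap
    · exact h3
    exfalso
    have h4 : ∀ y ∈ Ioo x a, G y = (fun _ => (0 : ℝ)) y := by
      intro y hy
      have a1 := three x y a hx ha hy.1 hy.2
      rw [g0, ← h3] at a1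
      have a2 := three y a b ⟨by linarith [hx.1, hy.1], by linarith [hy.2, ha.2]⟩ hb hy.2 hab
      rw [g0, gL] at a2
      have hy1 := hy.1
      have hy2 := hy.2
      have b1 : G y ≤ 0 := by
        by_contra hcon
        push Not at hcon
        nlinarith
      have b2 : 0 ≤ G y := by
        by_contra hcon
        push Not at hcon
        nlinarith
      exact le_antisymm b1 b2
    have h5 := deriv_loc isOpen_Ioo h4
    have h5' : ∀ y ∈ Ioo x a, deriv G y = (fun _ => (0 : ℝ)) y := fun y hy => by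
      rw [h5 y hy]
      simp
    have h6 := deriv_loc isOpen_Ioo h5'
    have h7 : (x + a) / 2 ∈ Ioo x a := ⟨by linarith, by linarith⟩
    have h8 := h6 _ h7
    rw [deriv_const] at h8
    have h9 := hzr ((x + a) / 2) ⟨by linarith [hx.1, ha.1], by linarith [ha.2]⟩ h8
    linarith [h9.1]
  · have hxL : b < x := by
      by_contra hcon
      exact hn ⟨hx0, not_lt.1 hcon⟩
    have h1 := three a b x ha hx hab hxL
    rw [g0, gL] at h1
    have h2 : 0 ≤ G x := by
      by_contra hcon
      push Not at hcon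
      nlinarith
    rcases eq_or_lt_of_le h2 with h3 | h3
    swap
    · exact h3
    exfalso
    have h4 : ∀ y ∈ Ioo b x, G y = (fun _ => (0 : ℝ)) y := by
      intro y hy
      have a1 := three b y x hb hx hy.1 hy.2
      rw [gL, ← h3] at a1
      have a2 := three a b y ha ⟨by linarith [hy.1, hb.1], by linarith [hx.2, hy.2]⟩ hab hy.1
      rw [g0, gL] at a2
      have hy1 := hy.1
      have hy2 := hy.2
      have b1 : G y ≤ 0 := by
        by_contra hcon
        push Not at hcon
        nlinarith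
      have b2 : 0 ≤ G y := by
        by_contra hcon
        push Not at hcon
        nlinarith
      exact le_antisymm b1 b2
    have h5 := deriv_loc isOpen_Ioo h4
    have h5' : ∀ y ∈ Ioo b x, deriv G y = (fun _ => (0 : ℝ)) y := fun y hy => by
      rw [h5 y hy]
      simp
    have h6 := deriv_loc isOpen_Ioo h5'
    have h7 : (b + x) / 2 ∈ Ioo b x := ⟨by linarith, by linarith⟩
    have h8 := h6 _ h7
    rw [deriv_const] at h8
    have h9 := hzr ((b + x) / 2) ⟨by linarith [hb.1], by linarith [hx.2]⟩ h8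
    linarith [h9.2]

/-- Profiles which vanish exactly for `|x - L0 / 2| ≤ r` and are equal to the profile `g` up to a
constant far from the centre. -/
structure PK (g : ℝ → ℝ) (G : ℝ → ℝ) (c r m C : ℝ) : Prop where
  rp : 0 < r
  rL : r ≤ L0 / 2
  mp : 0 < m
  Cp : 0 ≤ C
  sm : ContDiffOn ℝ ∞ G I0
  far : ∀ x, 9 / 10 * L0 ≤ |x - L0 / 2| → G x = g x + c
  flat : ∀ x, |x - L0 / 2| ≤ r → G x = 0
  cvx : ∀ x, |x - L0 / 2| < 4 / 5 * L0 → 0 ≤ deriv (deriv G) x
  zero : ∀ x, |x - L0 / 2| < 4 / 5 * L0 → deriv (deriv G) x = 0 → |x - L0 / 2| ≤ r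
  mid : ∀ x, 4 / 5 * L0 ≤ |x - L0 / 2| → |x - L0 / 2| ≤ 9 / 10 * L0 → m ≤ deriv (deriv G) x
  der : ∀ x, |x - L0 / 2| < 4 / 5 * L0 →
    |deriv (deriv (deriv G)) x| ≤ C * (deriv (deriv G) x) ^ (39 / 40 : ℝ)

theorem PK.far2 (h : PK g G c r m C) {x : ℝ} (hx : 9 / 10 * L0 < |x - L0 / 2|) :
    deriv (deriv G) x = deriv (deriv g) x := by
  have hO : IsOpen {x : ℝ | 9 / 10 * L0 < |x - L0 / 2|} := isOpen_lt continuous_const (by fun_prop)
  have h1 : ∀ x ∈ {x : ℝ | 9 / 10 * L0 < |x - L0 / 2|}, G x = (fun x => g x + c) x := fun x hx =>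
    h.far x (le_of_lt hx)
  have h2 := deriv_loc hO h1
  have h3 : ∀ x ∈ {x : ℝ | 9 / 10 * L0 < |x - L0 / 2|}, deriv G x = (deriv g) x := fun x hx => by
    rw [h2 x hx, deriv_add_const]
  exact deriv_loc hO h3 x hx

theorem tri (x : ℝ) : |x - L0 / 2| < 4 / 5 * L0 ∨
    (4 / 5 * L0 ≤ |x - L0 / 2| ∧ |x - L0 / 2| ≤ 9 / 10 * L0) ∨ 9 / 10 * L0 < |x - L0 / 2| := by
  rcases lt_or_ge (|x - L0 / 2|) (4 / 5 * L0) with h | h
  · exact Or.inl h
  · rcases le_or_gt (|x - L0 / 2|) (9 / 10 * L0) with h' | h'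
    · exact Or.inr (Or.inl ⟨h, h'⟩)
    · exact Or.inr (Or.inr h')

theorem PK.cvxI (hP : Prof g c1 C0) (h : PK g G c r m C) {x : ℝ} (hx : x ∈ I0) :
    0 ≤ deriv (deriv G) x := by
  rcases tri x with h1 | h1 | h1
  · exact h.cvx x h1
  · exact h.mp.le.trans (h.mid x h1.1 h1.2)
  · rw [h.far2 h1]
    exact hP.cvx x hx

theorem PK.zeroI (hP : Prof g c1 C0) (h : PK g G c r m C) {x : ℝ} (hx : x ∈ I0)
    (h0 : deriv (deriv G) x = 0) : |x - L0 / 2| ≤ r := by
  have hL := L0p
  rcases tri x with h1 | h1 | h1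
  · exact h.zero x h1 h0
  · have h2 := h.mid x h1.1 h1.2
    have h3 := h.mp
    linarith
  · rw [h.far2 h1] at h0
    have h2 := hP.zero x hx h0
    have h3 : |x - L0 / 2| ≤ L0 / 2 := by
      rw [abs_le]
      constructor <;> linarith [h2.1, h2.2]
    linarith

theorem PK.pos (hP : Prof g c1 C0) (h : PK g G c r m C) {x : ℝ} (hx : x ∈ I0)
    (hn : r < |x - L0 / 2|) : 0 < G x := by
  have hL := L0p
  have h1 := h.rp
  have h2 := h.rL
  have e : ∀ x : ℝ, (L0 / 2 - r ≤ x ∧ x ≤ L0 / 2 + r) ↔ |x - L0 / 2| ≤ r := by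
    intro x
    rw [abs_le]
    constructor
    · rintro ⟨h1, h2⟩
      constructor <;> linarith
    · rintro ⟨h1, h2⟩
      constructor <;> linarith
  refine pos_gen (a := L0 / 2 - r) (b := L0 / 2 + r) (by linarith)
    ⟨by linarith, by linarith⟩ ⟨by linarith, by linarith⟩ h.sm (fun x hx => h.cvxI hP hx)
    (fun x hx h0 => (e x).2 (h.zeroI hP hx h0)) (fun x h1 h2 => h.flat x ((e x).1 ⟨h1, h2⟩)) hx ?_
  rw [e]
  exact not_le.2 hn

theorem PK.nn (hP : Prof g c1 C0) (h : PK g G c r m C) {x : ℝ} (hx : x ∈ I0) : 0 ≤ G x := by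
  rcases le_or_gt (|x - L0 / 2|) r with h1 | h1
  · rw [h.flat x h1]
  · exact (h.pos hP hx h1).le

theorem PK.prof (hP : Prof g c1 C0) (h : PK g G c r m C) : ProfW G (c1 + c) := by
  have hL := L0p
  refine ⟨h.sm, fun x hx hx2 => ?_⟩
  rw [h.far x (by linarith), hP.hyp x hx hx2]
  ring

/-- the profile of the library -/
theorem PK.base (hP : Prof g c1 C0) : ∃ m C, PK g g 0 (L0 / 2) m C := by
  have h0 := L0p
  have hsm : ContDiffOn ℝ ∞ g I0 := hP.smooth
  have g2 := deriv_smooth (deriv_smooth hsm)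
  set K : Set ℝ := {x : ℝ | 4 / 5 * L0 ≤ |x - L0 / 2| ∧ |x - L0 / 2| ≤ 9 / 10 * L0} with hK
  have hKc : IsCompact K := by
    refine isCompact_Icc.of_isClosed_subset (s := Icc (-(2 * L0)) (3 * L0)) ?_ ?_
    · have k1 : IsClosed {x : ℝ | 4 / 5 * L0 ≤ |x - L0 / 2|} :=
        isClosed_le continuous_const (by fun_prop)
      have k2 : IsClosed {x : ℝ | |x - L0 / 2| ≤ 9 / 10 * L0} :=
        isClosed_le (by fun_prop) continuous_const
      exact k1.inter k2
    · intro x hx
      have := abs_le.1 hx.2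
      exact ⟨by linarith [this.1], by linarith [this.2]⟩
  have hKI : K ⊆ I0 := fun x hx => mem_I0 (by linarith [hx.2])
  have hKne : K.Nonempty := by
    refine ⟨L0 / 2 + 4 / 5 * L0, ?_, ?_⟩
    · rw [add_sub_cancel_left, abs_of_pos (by positivity)]
    · rw [add_sub_cancel_left, abs_of_pos (by positivity)]
      linarith
  obtain ⟨xm, hxm, hmin⟩ := hKc.exists_isMinOn hKne (g2.continuousOn.mono hKI)
  have e : ∀ x : ℝ, (0 ≤ x ∧ x ≤ L0) → |x - L0 / 2| ≤ L0 / 2 := by
    intro x hx
    rw [abs_le]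
    constructor <;> linarith [hx.1, hx.2]
  have hm0 : 0 < deriv (deriv g) xm := by
    refine lt_of_le_of_ne (hP.cvx xm (hKI hxm)) fun hcon => ?_
    have h1 := e xm (hP.zero xm (hKI hxm) hcon.symm)
    linarith [hxm.1]
  refine ⟨deriv (deriv g) xm, |C0|, by positivity, le_rfl, hm0, abs_nonneg _, hsm,
    fun x _ => by ring, fun x hx => ?_, fun x hx => ?_, fun x hx h => ?_,
    fun x h1 h2 => hmin ⟨h1, h2⟩, fun x hx => ?_⟩
  · have h1 := abs_le.1 hx
    exact hP.flat x (by linarith [h1.1]) (by linarith [h1.2])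
  · exact hP.cvx x (mem_I0 (by linarith))
  · exact e x (hP.zero x (mem_I0 (by linarith)) h)
  · refine (hP.der x (by linarith)).trans (mul_le_mul_of_nonneg_right (le_abs_self _) ?_)
    exact Real.rpow_nonneg (hP.cvx x (mem_I0 (by linarith))) _

end

end Pool.Agent.H240.CG
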