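import Pool.Agent.H240.CG.Pert

/-!
# Sums of perturbations
-/

set_option autoImplicit false
set_option linter.unusedSectionVars false

open Set Filter Topology MeasureTheory
open scoped ContDiff Real

noncomputable section

namespace Pool.Agent.H240.CG

/-- the first derivatives of a sum -/
theorem tail3 {p : ℕ → ℝ → ℝ} {ρ : ℕ → ℝ} (hs : Summable ρ) (hp : ∀ n, ContDiff ℝ ∞ (p n))
    (hb : ∀ n, ∀ j ≤ 3, ∀ x, |iteratedDeriv j (p n) x| ≤ ρ n) {T : ℝ → ℝ}
    (hT : ∀ x, T x = ∑' n, p n x) :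
    (∀ x, |T x| ≤ ∑' n, ρ n) ∧ (∀ x, |deriv T x| ≤ ∑' n, ρ n) ∧
      (∀ x, |deriv (deriv T) x| ≤ ∑' n, ρ n) ∧ ∀ x, |deriv (deriv (deriv T)) x| ≤ ∑' n, ρ n := by
  have hT' : T = fun x => ∑' n, p n x := funext hT
  have b0 : ∀ n x, ‖p n x‖ ≤ ρ n := fun n x => by
    have := hb n 0 (by norm_num) x
    rwa [iteratedDeriv_zero] at this
  have b1 : ∀ n x, ‖deriv (p n) x‖ ≤ ρ n := fun n x => by
    have := hb n 1 (by norm_num) x
    rwa [iteratedDeriv_one] at this
  have b2 : ∀ n x, ‖deriv (deriv (p n)) x‖ ≤ ρ n := fun n x => by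
    have := hb n 2 (by norm_num) x
    rwa [iteratedDeriv_succ, iteratedDeriv_one] at this
  have b3 : ∀ n x, ‖deriv (deriv (deriv (p n))) x‖ ≤ ρ n := fun n x => by
    have := hb n 3 (by norm_num) x
    rwa [iteratedDeriv_succ, iteratedDeriv_succ, iteratedDeriv_one] at this
  have c1 : ∀ n, ContDiff ℝ ∞ (deriv (p n)) := fun n => (contDiff_infty_iff_deriv.1 (hp n)).2
  have c2 : ∀ n, ContDiff ℝ ∞ (deriv (deriv (p n))) := fun n =>
    (contDiff_infty_iff_deriv.1 (c1 n)).2
  have s0 : ∀ x, Summable fun n => p n x := fun x => Summable.of_norm_bounded hs fun n => b0 n x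
  have s1 : ∀ x, Summable fun n => deriv (p n) x := fun x =>
    Summable.of_norm_bounded hs fun n => b1 n x
  have s2 : ∀ x, Summable fun n => deriv (deriv (p n)) x := fun x =>
    Summable.of_norm_bounded hs fun n => b2 n x
  have d1 : deriv T = fun x => ∑' n, deriv (p n) x := by
    funext x
    rw [hT']
    exact (hasDerivAt_tsum hs (fun n y => ((hp n).differentiable (by simp) y).hasDerivAt) b1
      (s0 0) x).deriv
  have d2 : deriv (deriv T) = fun x => ∑' n, deriv (deriv (p n)) x := by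
    funext x
    rw [d1]
    exact (hasDerivAt_tsum hs (fun n y => ((c1 n).differentiable (by simp) y).hasDerivAt) b2
      (s1 0) x).deriv
  have d3 : deriv (deriv (deriv T)) = fun x => ∑' n, deriv (deriv (deriv (p n))) x := by
    funext x
    rw [d2]
    exact (hasDerivAt_tsum hs (fun n y => ((c2 n).differentiable (by simp) y).hasDerivAt) b3
      (s2 0) x).deriv
  have gen : ∀ (a : ℕ → ℝ), (∀ n, ‖a n‖ ≤ ρ n) → |∑' n, a n| ≤ ∑' n, ρ n := by
    intro a ha
    rw [← Real.norm_eq_abs]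
    exact tsum_of_norm_bounded hs.hasSum ha
  refine ⟨fun x => ?_, fun x => ?_, fun x => ?_, fun x => ?_⟩
  · rw [hT x]
    exact gen _ fun n => b0 n x
  · rw [d1]
    exact gen _ fun n => b1 n x
  · rw [d2]
    exact gen _ fun n => b2 n x
  · rw [d3]
    exact gen _ fun n => b3 n x

/-- the sum is smooth -/
theorem tail_cd {p : ℕ → ℝ → ℝ} {ρ : ℕ → ℝ} (hs : Summable ρ) (hp : ∀ n, ContDiff ℝ ∞ (p n))
    {k : ℕ} (hb : ∀ n, ∀ j ≤ n + k, ∀ x, |iteratedDeriv j (p n) x| ≤ ρ n) :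
    ContDiff ℝ ∞ fun x => ∑' n, p n x := by
  refine contDiff_tsum_of_eventually hp (v := fun _ => ρ) (fun _ _ => hs) fun j _ => ?_
  rw [Nat.cofinite_eq_atTop]
  filter_upwards [eventually_ge_atTop j] with n hn x
  rw [norm_iteratedFDeriv_eq_norm_iteratedDeriv, Real.norm_eq_abs]
  exact hb n j (by omega) x

end Pool.Agent.H240.CG
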